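import Pool.Agent.Work.MP_a2bf38_gt.Fu.K.Setup
import Pool.Agent.Work.MP_a2bf38_gt.Fu.H.Gen
import Mathlib.Analysis.Calculus.BumpFunction.FiniteDimension
import Mathlib.Analysis.Calculus.BumpFunction.Convolution
import Mathlib.Analysis.Calculus.ContDiff.Convolution
import Mathlib.MeasureTheory.Measure.Haar.Unique
import Mathlib.Topology.TietzeExtension

/-!
# Smoothing of continuous plurisubharmonic functions
-/

open scoped ContDiff ENNReal ComplexOrder Topology
open Set MeasureTheory Filter Pool.Agent.ToricKRF Pool.Agent.ToricKRF.G Pool.Agent.KRFS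
  Pool.Agent.KRFF

namespace Pool.Agent.KRFG

/-- the second order expansion of a function of class `C^2` -/
theorem taylor_two {E : Type*} [NormedAddCommGroup E] [NormedSpace ℝ E] {h : E → ℝ}
    (hh : ContDiff ℝ 2 h) {ε : ℝ} (hε : 0 < ε) : ∃ r > 0, ∀ x : E, ‖x‖ ≤ r →
      ‖h x - h 0 - fderiv ℝ h 0 x - 1 / 2 * fderiv ℝ (fderiv ℝ h) 0 x x‖ ≤ ε * ‖x‖ ^ 2 := by
  have hd : Differentiable ℝ h := hh.differentiable (by norm_num)
  have hd1 : ContDiff ℝ 1 (fderiv ℝ h) := hh.fderiv_right (by norm_num)
  have hd2 : DifferentiableAt ℝ (fderiv ℝ h) 0 := hd1.differentiable (by norm_num) 0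
  have hs : IsSymmSndFDerivAt ℝ h 0 := by
    apply hh.contDiffAt.isSymmSndFDerivAt
    rw [minSmoothness_of_isRCLikeNormedField]
  have h1 := hd2.hasFDerivAt.isLittleO
  rw [Asymptotics.isLittleO_iff] at h1
  obtain ⟨r, hr, hrs⟩ := Metric.nhds_basis_closedBall.eventually_iff.mp (h1 hε)
  refine ⟨r, hr, fun x hx => ?_⟩
  set B := fderiv ℝ (fderiv ℝ h) 0 with hB
  have hg : ∀ y : E, HasFDerivAt (fun y => h y - h 0 - fderiv ℝ h 0 y - 1 / 2 * B y y)
      (fderiv ℝ h y - fderiv ℝ h 0 - B y) y := by
    intro y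
    have k1 := (((hd y).hasFDerivAt).sub_const (h 0)).sub (fderiv ℝ h 0).hasFDerivAt
    have k2 : HasFDerivAt (fun y => B y y) (B y + B.flip y) y := by
      have k3 := B.hasFDerivAt (x := y)
      have k4 := k3.clm_apply (hasFDerivAt_id y)
      refine k4.congr_fderiv ?_
      ext w
      simp
    refine (k1.sub (k2.const_mul (1 / 2))).congr_fderiv ?_
    ext w
    have k5 : B w y = B y w := hs w y
    simp only [sub_apply, smul_apply, add_apply, ContinuousLinearMap.flip_apply, smul_eq_mul, k5]
    ring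
  have h2 : ∀ y ∈ Metric.closedBall (0 : E) ‖x‖,
      ‖fderiv ℝ h y - fderiv ℝ h 0 - B y‖ ≤ ε * ‖x‖ := by
    intro y hy
    rw [mem_closedBall_zero_iff] at hy
    have := hrs (show y ∈ Metric.closedBall (0 : E) r by
      rw [mem_closedBall_zero_iff]
      exact hy.trans hx)
    rw [sub_zero] at this
    exact this.trans (mul_le_mul_of_nonneg_left hy hε.le)
  have h3 := (convex_closedBall (0 : E) ‖x‖).norm_image_sub_le_of_norm_hasFDerivWithin_le
    (f := fun y => h y - h 0 - fderiv ℝ h 0 y - 1 / 2 * B y y)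
    (fun y _ => (hg y).hasFDerivWithinAt) h2 (x := 0) (y := x)
    (Metric.mem_closedBall_self (norm_nonneg _)) (by simp)
  simp only [sub_self, map_zero, sub_zero, mul_zero] at h3
  calc _ ≤ ε * ‖x‖ * ‖x‖ := h3
    _ = _ := by ring

/-- a smooth function with the sub-mean value property on small circles is subharmonic -/
theorem lapC_nonneg_of_cavg {h : ℂ → ℝ} (hh : ContDiff ℝ 2 h) {r : ℝ} (hr : 0 < r)
    (hs : ∀ s ∈ Ioc 0 r, h 0 ≤ cavg h s) : 0 ≤ lapC h 0 := by
  refine le_of_forall_pos_le_add fun ε hε => ?_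
  obtain ⟨r', hr', ht⟩ := taylor_two hh (ε := ε / 4) (by positivity)
  set s := min r r' with hsdef
  have hs0 : 0 < s := lt_min hr hr'
  have hpi := Real.pi_pos
  set B := fderiv ℝ (fderiv ℝ h) 0 with hB
  have hsym : B Complex.I 1 = B 1 Complex.I := by
    have k : IsSymmSndFDerivAt ℝ h 0 := by
      apply hh.contDiffAt.isSymmSndFDerivAt
      rw [minSmoothness_of_isRCLikeNormedField]
    exact k Complex.I 1
  have hlap : lapC h 0 = B 1 1 + B Complex.I Complex.I := by
    have hd2 : DifferentiableAt ℝ (fderiv ℝ h) 0 :=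
      (hh.fderiv_right (m := 1) (by norm_num)).differentiable (by norm_num) 0
    have k : ∀ w : ℂ, D w (D w h) 0 = B w w := by
      intro w
      unfold D
      rw [fderiv_clm_apply hd2 (differentiableAt_const w)]
      simp [hB]
    rw [lapC, k, k]
  have hexp : ∀ θ : ℝ, (s : ℂ) * Complex.exp (θ * Complex.I) =
      (s * Real.cos θ) • (1 : ℂ) + (s * Real.sin θ) • Complex.I := by
    intro θ
    rw [Complex.exp_mul_I, Complex.real_smul, Complex.real_smul]
    push_cast
    ring
  have hpt : ∀ θ : ℝ, h (s * Complex.exp (θ * Complex.I)) ≤ h 0 +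
      s * fderiv ℝ h 0 1 * Real.cos θ + s * fderiv ℝ h 0 Complex.I * Real.sin θ +
      s ^ 2 / 2 * (B 1 1 * Real.cos θ ^ 2 + 2 * B 1 Complex.I * (Real.sin θ * Real.cos θ) +
        B Complex.I Complex.I * Real.sin θ ^ 2) + ε / 4 * s ^ 2 := by
    intro θ
    have hn : ‖(s : ℂ) * Complex.exp (θ * Complex.I)‖ = s := by
      rw [norm_mul, Complex.norm_exp_ofReal_mul_I, mul_one, Complex.norm_real,
        Real.norm_of_nonneg hs0.le]
    have k := ht (s * Complex.exp (θ * Complex.I)) (by rw [hn]; exact min_le_right _ _)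
    rw [hn] at k
    have k1 := (abs_le.1 (Real.norm_eq_abs _ ▸ k)).2
    rw [hexp] at k1 ⊢
    simp only [map_add, map_smul, add_apply, smul_apply, smul_eq_mul, hsym] at k1
    nlinarith [k1]
  have hcont : Continuous fun θ : ℝ => h (s * Complex.exp (θ * Complex.I)) :=
    hh.continuous.comp (by fun_prop)
  have hint : ∫ θ in (0 : ℝ)..2 * Real.pi, h (s * Complex.exp (θ * Complex.I)) ≤
      2 * Real.pi * h 0 + s ^ 2 / 2 * (Real.pi * (B 1 1 + B Complex.I Complex.I)) +
        2 * Real.pi * (ε / 4 * s ^ 2) := by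
    refine (intervalIntegral.integral_mono_on (by positivity)
      (hcont.intervalIntegrable _ _) ?_ (fun θ _ => hpt θ)).trans (le_of_eq ?_)
    · exact Continuous.intervalIntegrable (by fun_prop) _ _
    have c1 : IntervalIntegrable (fun θ : ℝ => h 0) volume 0 (2 * Real.pi) :=
      Continuous.intervalIntegrable (by fun_prop) _ _
    have c2 : IntervalIntegrable (fun θ : ℝ => s * fderiv ℝ h 0 1 * Real.cos θ) volume 0
      (2 * Real.pi) := Continuous.intervalIntegrable (by fun_prop) _ _
    have c3 : IntervalIntegrable (fun θ : ℝ => s * fderiv ℝ h 0 Complex.I * Real.sin θ) volume 0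
      (2 * Real.pi) := Continuous.intervalIntegrable (by fun_prop) _ _
    have c4 : IntervalIntegrable (fun θ : ℝ => s ^ 2 / 2 * (B 1 1 * Real.cos θ ^ 2 +
        2 * B 1 Complex.I * (Real.sin θ * Real.cos θ) + B Complex.I Complex.I * Real.sin θ ^ 2))
        volume 0 (2 * Real.pi) := Continuous.intervalIntegrable (by fun_prop) _ _
    have c5 : IntervalIntegrable (fun θ : ℝ => ε / 4 * s ^ 2) volume 0 (2 * Real.pi) :=
      Continuous.intervalIntegrable (by fun_prop) _ _
    have d1 : IntervalIntegrable (fun θ : ℝ => B 1 1 * Real.cos θ ^ 2) volume 0 (2 * Real.pi) :=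
      Continuous.intervalIntegrable (by fun_prop) _ _
    have d2 : IntervalIntegrable (fun θ : ℝ => 2 * B 1 Complex.I * (Real.sin θ * Real.cos θ))
      volume 0 (2 * Real.pi) := Continuous.intervalIntegrable (by fun_prop) _ _
    have d3 : IntervalIntegrable (fun θ : ℝ => B Complex.I Complex.I * Real.sin θ ^ 2)
      volume 0 (2 * Real.pi) := Continuous.intervalIntegrable (by fun_prop) _ _
    rw [intervalIntegral.integral_add (((c1.add c2).add c3).add c4) c5,
      intervalIntegral.integral_add ((c1.add c2).add c3) c4,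
      intervalIntegral.integral_add (c1.add c2) c3, intervalIntegral.integral_add c1 c2,
      intervalIntegral.integral_const_mul, intervalIntegral.integral_const_mul,
      intervalIntegral.integral_const_mul, intervalIntegral.integral_add (d1.add d2) d3,
      intervalIntegral.integral_add d1 d2, intervalIntegral.integral_const_mul,
      intervalIntegral.integral_const_mul, intervalIntegral.integral_const_mul,
      intervalIntegral.integral_const, intervalIntegral.integral_const, integral_cos, integral_sin,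
      integral_cos_sq, integral_sin_sq, integral_sin_mul_cos₁]
    simp only [Real.sin_two_pi, Real.cos_two_pi, Real.sin_zero, Real.cos_zero, smul_eq_mul]
    ring
  have hs1 := hs s ⟨hs0, min_le_left _ _⟩
  rw [cavg, inv_mul_eq_div, le_div_iff₀ (by positivity)] at hs1
  have h3 : 0 ≤ s ^ 2 / 2 * (Real.pi * (B 1 1 + B Complex.I Complex.I)) +
        2 * Real.pi * (ε / 4 * s ^ 2) := by linarith
  have h4 : s ^ 2 / 2 * (Real.pi * (B 1 1 + B Complex.I Complex.I)) +
        2 * Real.pi * (ε / 4 * s ^ 2) =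
      (s ^ 2 / 2 * Real.pi) * (B 1 1 + B Complex.I Complex.I + ε) := by ring
  rw [h4] at h3
  rw [hlap]
  exact nonneg_of_mul_nonneg_right h3 (by positivity)

theorem lapC_comp_line {m : ℕ} {f : Cn m → ℝ} (hf : ContDiff ℝ ∞ f) (z v : Cn m) :
    lapC (fun ζ => f (line z v ζ)) 0 = 4 * levz f v z := by
  have h1 : ∀ (g : Cn m → ℝ), Differentiable ℝ g → ∀ w ζ : ℂ,
      D w (fun ζ => g (line z v ζ)) ζ = D (lineL v w) g (line z v ζ) := by
    intro g hg w ζ
    have h3 := ((hg (line z v ζ)).hasFDerivAt).comp ζ (hasFDerivAt_line z v ζ)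
    change fderiv ℝ (fun ζ => g (line z v ζ)) ζ w = _
    have h4 : (fun ζ => g (line z v ζ)) = g ∘ line z v := rfl
    rw [h4, h3.fderiv]
    rfl
  have hd : Differentiable ℝ f := hf.differentiable (by simp)
  have hd2 : ∀ w : Cn m, Differentiable ℝ (D w f) := by
    intro w
    have k : ContDiff ℝ ∞ (D w f) := by
      have := contDiffOn_D isOpen_univ hf.contDiffOn w
      exact contDiffOn_univ.1 this
    exact k.differentiable (by simp)
  have h2 : ∀ w : ℂ, D w (D w fun ζ => f (line z v ζ)) 0 = D (lineL v w) (D (lineL v w) f) z := by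
    intro w
    have : D w (fun ζ => f (line z v ζ)) = fun ζ => D (lineL v w) f (line z v ζ) :=
      funext (h1 f hd w)
    rw [this, h1 _ (hd2 _), line_zero]
  rw [lapC, levz, h2, h2, lineL_one, lineL_I]
  ring

theorem line_sub {m : ℕ} (z v x : Cn m) (ζ : ℂ) : line (z - x) v ζ = line z v ζ - x := by
  simp only [line]
  abel

theorem line_smul {m : ℕ} (z v : Cn m) (s : ℝ) (ζ : ℂ) : line z (s • v) ζ = line z v (s * ζ) := by
  simp only [line, J_smul, Complex.re_ofReal_mul, Complex.im_ofReal_mul, smul_smul]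
  rw [mul_comm s, mul_comm s]

/-- the sub-mean value property of the convolution -/
theorem conv_le {m : ℕ} {g φ : Cn m → ℝ} (hg : Continuous g) (hφ : Continuous φ)
    (hφ0 : ∀ x, 0 ≤ φ x) {δ : ℝ} (hφs : ∀ x, φ x ≠ 0 → ‖x‖ ≤ δ) {z v : Cn m}
    (h : ∀ x, ‖x‖ ≤ δ → g (z - x) ≤ cavg (fun ζ => g (line (z - x) v ζ)) 1) :
    ∫ x, φ x * g (z - x) ≤ cavg (fun ζ => ∫ x, φ x * g (line z v ζ - x)) 1 := by
  have hpi := Real.pi_pos
  set L : ℝ → Cn m := fun θ => line z v ((1 : ℝ) * Complex.exp (θ * Complex.I)) with hL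
  have hLc : Continuous L := (contDiff_line z v).continuous.comp (by fun_prop)
  have hcs : ∀ (k : Cn m → ℝ), Continuous k → Integrable fun x => φ x * k x := by
    intro k hk
    apply (hφ.mul hk).integrable_of_hasCompactSupport
    apply HasCompactSupport.of_support_subset_isCompact (isCompact_closedBall (0 : Cn m) δ)
    intro x hx
    rw [mem_closedBall_zero_iff]
    exact hφs x (left_ne_zero_of_mul hx)
  have hcont2 : Continuous fun p : Cn m × ℝ => φ p.1 * g (L p.2 - p.1) := by fun_prop
  have hi : Integrable (Function.uncurry fun (x : Cn m) (θ : ℝ) => φ x * g (L θ - x))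
      (volume.prod (volume.restrict (Ioc 0 (2 * Real.pi)))) := by
    have e : (volume : Measure (Cn m)).prod ((volume : Measure ℝ).restrict (Ioc 0 (2 * Real.pi))) =
        ((volume : Measure (Cn m)).prod (volume : Measure ℝ)).restrict
          (univ ×ˢ Ioc 0 (2 * Real.pi)) := by
      rw [← Measure.prod_restrict, Measure.restrict_univ]
    rw [e]
    have k1 : IntegrableOn (Function.uncurry fun (x : Cn m) (θ : ℝ) => φ x * g (L θ - x))
        (Metric.closedBall 0 δ ×ˢ Icc 0 (2 * Real.pi))
        ((volume : Measure (Cn m)).prod (volume : Measure ℝ)) :=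
      hcont2.continuousOn.integrableOn_compact ((isCompact_closedBall _ _).prod isCompact_Icc)
    have k2 : IntegrableOn (Function.uncurry fun (x : Cn m) (θ : ℝ) => φ x * g (L θ - x))
        (univ ×ˢ Icc 0 (2 * Real.pi))
        ((volume : Measure (Cn m)).prod (volume : Measure ℝ)) := by
      refine k1.of_forall_sdiff_eq_zero (MeasurableSet.univ.prod measurableSet_Icc) ?_
      rintro ⟨x, θ⟩ ⟨⟨-, h2⟩, h3⟩
      by_contra hne
      apply h3
      refine ⟨?_, h2⟩
      rw [mem_closedBall_zero_iff]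
      exact hφs x (left_ne_zero_of_mul hne)
    exact k2.mono_set (prod_mono subset_rfl Ioc_subset_Icc_self)
  have hswap := integral_integral_swap hi
  have hin : Continuous fun x => ∫ θ in (0 : ℝ)..2 * Real.pi, g (L θ - x) := by
    apply intervalIntegral.continuous_parametric_intervalIntegral_of_continuous'
    fun_prop
  have h1 : ∫ x, φ x * g (z - x) ≤
      ∫ x, φ x * ((2 * Real.pi)⁻¹ * ∫ θ in (0 : ℝ)..2 * Real.pi, g (L θ - x)) := by
    apply integral_mono (hcs _ (by fun_prop)) (hcs _ (continuous_const.mul hin))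
    intro x
    dsimp only
    by_cases hx : φ x = 0
    · rw [hx, zero_mul, zero_mul]
    · apply mul_le_mul_of_nonneg_left _ (hφ0 x)
      have k := h x (hφs x hx)
      simp only [cavg, line_sub] at k
      exact k
  refine h1.trans (le_of_eq ?_)
  have h2 : ∀ x, φ x * ((2 * Real.pi)⁻¹ * ∫ θ in (0 : ℝ)..2 * Real.pi, g (L θ - x)) =
      (2 * Real.pi)⁻¹ * ∫ θ in Ioc 0 (2 * Real.pi), φ x * g (L θ - x) := by
    intro x
    rw [intervalIntegral.integral_of_le (by positivity), integral_const_mul]
    ring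
  simp only [h2]
  rw [integral_const_mul, hswap, cavg, intervalIntegral.integral_of_le (by positivity)]

theorem haar_Cn (m : ℕ) : (volume : Measure (Cn m)).IsAddHaarMeasure :=
  Measure.prod.instIsAddHaarMeasure (G := Fin m → ℝ) (H := Fin m → ℝ) volume volume

theorem pshC_mollify {m : ℕ} {u : Cn m → ℝ} {V A : Set (Cn m)} (hV : IsOpen V) (hu : PshC u V)
    (hA : IsCompact A) (hAV : A ⊆ V) {ε : ℝ} (hε : 0 < ε) :
    ∃ (u' : Cn m → ℝ) (V' : Set (Cn m)), IsOpen V' ∧ A ⊆ V' ∧ V' ⊆ V ∧ ContDiffOn ℝ ∞ u' V' ∧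
      (∀ z ∈ V', ∀ v, 0 ≤ levz u' v z) ∧ ∀ z ∈ V', |u' z - u z| ≤ ε := by
  have hH := haar_Cn m
  have hR : (volume : Measure (Cn m)).Regular :=
    Measure.Regular.of_sigmaCompactSpace_of_isLocallyFiniteMeasure _
  have hN : (volume : Measure (Cn m)).IsNegInvariant :=
    Measure.IsAddHaarMeasure.isNegInvariant_of_regular _
  obtain ⟨δ₀, hδ₀, hsub⟩ := hA.exists_cthickening_subset_open hV hAV
  set δ := δ₀ / 2 with hδ
  have hδ0 : 0 < δ := by positivity
  set K := Metric.cthickening δ₀ A with hK
  have hKc : IsCompact K := hA.cthickening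
  have huK : ContinuousOn u K := hu.1.mono hsub
  -- a continuous extension
  obtain ⟨g, hg⟩ := ContinuousMap.exists_restrict_eq (Metric.isClosed_cthickening (δ := δ₀) (E := A))
    (⟨K.domRestrict u, continuousOn_iff_continuous_domRestrict.1 huK⟩ : C(K, ℝ))
  have hgu : ∀ x ∈ K, g x = u x := by
    intro x hx
    have := congrArg (fun f : C(K, ℝ) => f ⟨x, hx⟩) hg
    simpa using this
  have hunif := hKc.uniformContinuousOn_of_continuous huK
  rw [Metric.uniformContinuousOn_iff] at hunif
  obtain ⟨η, hη, hunif⟩ := hunif ε hε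
  set ρ := min δ η with hρ
  have hρ0 : 0 < ρ := lt_min hδ0 hη
  let b : ContDiffBump (0 : Cn m) := ⟨ρ / 2, ρ, by positivity, by linarith⟩
  have hVK : ∀ z ∈ Metric.thickening δ A, ∀ x : Cn m, ‖x‖ ≤ ρ → z - x ∈ K := by
    intro z hz x hx
    obtain ⟨a, ha, hza⟩ := Metric.mem_thickening_iff.1 hz
    apply Metric.mem_cthickening_of_dist_le _ a δ₀ A ha
    have k1 : dist (z - x) z ≤ ρ := by
      rw [dist_eq_norm, sub_sub_cancel_left, norm_neg]
      exact hx
    have k2 := dist_triangle (z - x) z a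
    have k3 : ρ ≤ δ := min_le_left _ _
    rw [hδ] at *
    linarith
  have hzK : ∀ z ∈ Metric.thickening δ A, z ∈ K := by
    intro z hz
    have := hVK z hz 0 (by rw [norm_zero]; exact hρ0.le)
    rwa [sub_zero] at this
  set φ : Cn m → ℝ := b.normed volume with hφ
  have hφc : Continuous φ := b.continuous_normed
  have hφ0 : ∀ x, 0 ≤ φ x := b.nonneg_normed
  have hφs : ∀ x, φ x ≠ 0 → ‖x‖ ≤ ρ := by
    intro x hx
    have : x ∈ Function.support φ := hx
    rw [hφ, b.support_normed_eq, mem_ball_zero_iff] at this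
    exact this.le
  set u' : Cn m → ℝ := MeasureTheory.convolution φ g (ContinuousLinearMap.lsmul ℝ ℝ) volume
    with hu'
  have hconv : ∀ z, u' z = ∫ x, φ x * g (z - x) := by
    intro z
    rw [hu', MeasureTheory.convolution_def]
    rfl
  have hsm : ContDiff ℝ ∞ u' := by
    apply HasCompactSupport.contDiff_convolution_left
    · exact b.hasCompactSupport_normed
    · exact b.contDiff_normed
    · exact g.continuous.locallyIntegrable
  have hmean : ∀ z v : Cn m, (∀ ζ : ℂ, ‖ζ‖ ≤ 1 → line z v ζ ∈ Metric.thickening δ A) →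
      u' z ≤ cavg (fun ζ => u' (line z v ζ)) 1 := by
    intro z v hz
    have k := conv_le (g := g) (φ := φ) g.continuous hφc hφ0 hφs (z := z) (v := v) ?_
    · simp only [hconv]
      exact k
    intro x hx
    have k1 : ∀ ζ : ℂ, ‖ζ‖ ≤ 1 → line (z - x) v ζ ∈ K := by
      intro ζ hζ
      rw [line_sub]
      exact hVK _ (hz ζ hζ) x hx
    have k2 := hu.2 (z - x) v fun ζ hζ => hsub (k1 ζ hζ)
    have k3 := k1 0 (by simp)
    rw [line_zero] at k3
    rw [hgu _ k3]
    refine k2.trans (le_of_eq ?_)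
    unfold cavg
    congr 1
    apply intervalIntegral.integral_congr
    intro θ _
    dsimp only
    rw [hgu]
    apply k1
    rw [norm_mul, Complex.norm_exp_ofReal_mul_I, mul_one]
    simp
  refine ⟨u', Metric.thickening δ A, Metric.isOpen_thickening, Metric.self_subset_thickening hδ0 A,
    fun z hz => hsub (hzK z hz), hsm.contDiffOn, ?_, ?_⟩
  · intro z hz v
    have hev : ∀ᶠ ζ in 𝓝 (0 : ℂ), line z v ζ ∈ Metric.thickening δ A := by
      apply (contDiff_line z v).continuous.continuousAt.eventually_mem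
      rw [line_zero]
      exact Metric.isOpen_thickening.mem_nhds hz
    obtain ⟨r, hr, hrs⟩ := Metric.nhds_basis_closedBall.eventually_iff.mp hev
    have h1 : 0 ≤ lapC (fun ζ => u' (line z v ζ)) 0 := by
      have hc : ContDiff ℝ 2 fun ζ => u' (line z v ζ) :=
        (hsm.comp (contDiff_line z v)).of_le two_le_infty
      apply lapC_nonneg_of_cavg hc hr
      intro s hs
      have k := hmean z (s • v) fun ζ hζ => by
        rw [line_smul]
        apply hrs
        rw [mem_closedBall_zero_iff, norm_mul, Complex.norm_real, Real.norm_of_nonneg hs.1.le]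
        calc s * ‖ζ‖ ≤ s * 1 := mul_le_mul_of_nonneg_left hζ hs.1.le
          _ ≤ r := by rw [mul_one]; exact hs.2
      have e2 : cavg (fun ζ => u' (line z (s • v) ζ)) 1 = cavg (fun ζ => u' (line z v ζ)) s := by
        simp only [cavg, line_smul, Complex.ofReal_one, one_mul]
      rw [line_zero, ← e2]
      exact k
    rw [lapC_comp_line hsm] at h1
    linarith
  · intro z hz
    have k := b.dist_normed_convolution_le (μ := volume) (g := g) (x₀ := z) (ε := ε)
      g.continuous.aestronglyMeasurable ?_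
    · rw [Real.dist_eq, hgu z (hzK z hz)] at k
      exact k
    intro x hx
    have hx' : ‖z - x‖ ≤ ρ := by
      rw [← dist_eq_norm, dist_comm]
      exact (Metric.mem_ball.1 hx).le
    have hxK : x ∈ K := by
      have := hVK z hz (z - x) hx'
      rwa [sub_sub_cancel] at this
    rw [hgu x hxK, hgu z (hzK z hz)]
    exact (hunif x hxK z (hzK z hz) (lt_of_lt_of_le (Metric.mem_ball.1 hx) (min_le_right _ _))).le

end Pool.Agent.KRFG
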