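import Pool.Agent.Work.MP_a2bf38_gt.Fu.K.Setup
import Pool.Agent.Work.MP_a2bf38_gt.Fu.I.Overlap
import Pool.Agent.Work.MP_a2bf38_gt.Fu.I.Sect
import Pool.Agent.Work.MP_a2bf38_gt.Fu.I.GapA

section

/-!
# Logarithmic coordinates of the fibres: periodicity, reachability and domains
-/

open scoped ContDiff ENNReal ComplexOrder Topology
open Set Pool.Agent.ToricKRF Pool.Agent.ToricKRF.G Pool.Agent.KRFS Pool.Agent.KRFF

namespace Pool.Agent.KRFG

namespace ER

theorem cc_ofC {n : ℕ} (z : Fin n → ℂ) (l : Fin n) : cc (ofC z) l = z l := by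
  apply Complex.ext <;> simp [cc, ofC]

theorem cn_ext {n : ℕ} {x y : Cn n} (h : ∀ l, cc x l = cc y l) : x = y := by
  refine Prod.ext ?_ ?_
  · funext l
    exact congrArg Complex.re (h l)
  · funext l
    exact congrArg Complex.im (h l)

theorem sq_norm_cc {n : ℕ} (x : Cn n) (l : Fin n) : ‖cc x l‖ ^ 2 = x.1 l ^ 2 + x.2 l ^ 2 := by
  rw [← Complex.normSq_eq_norm_sq, Complex.normSq_apply]
  simp only [cc]
  ring

theorem mem_cpd_iff {n : ℕ} {r : ℝ} (hr : 0 ≤ r) {x : Cn n} :
    x ∈ cpd r ↔ ∀ l, ‖cc x l‖ ≤ r := by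
  constructor
  · intro h l
    have := h l
    rw [← sq_norm_cc] at this
    exact (pow_le_pow_iff_left₀ (norm_nonneg _) hr two_ne_zero).1 this
  · intro h l
    rw [← sq_norm_cc]
    exact (pow_le_pow_iff_left₀ (norm_nonneg _) hr two_ne_zero).2 (h l)

theorem mem_opd_iff {n : ℕ} {r : ℝ} (hr : 0 ≤ r) {x : Cn n} :
    x ∈ opd r ↔ ∀ l, ‖cc x l‖ < r := by
  constructor
  · intro h l
    have := h l
    rw [← sq_norm_cc] at this
    exact (pow_lt_pow_iff_left₀ (norm_nonneg _) hr two_ne_zero).1 this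
  · intro h l
    rw [← sq_norm_cc]
    exact (pow_lt_pow_iff_left₀ (norm_nonneg _) hr two_ne_zero).2 (h l)

section E

variable {n m : ℕ} {row : Fin n → Option (Fin m)} {piv : Fin m → Fin n}

theorem Em_cc_none (q w : Cn n) {l : Fin n} (h : row l = none) :
    cc (Em row piv q w) l = cc q l + cc w l := by
  simp only [Em, cc_ofC]
  rw [h]

theorem Em_cc_piv (q w : Cn n) {i : Fin m} (h : row (piv i) = some i) :
    cc (Em row piv q w) (piv i) = cc q (piv i) *
      Complex.exp (-∑ l', if row l' = some i ∧ l' ≠ piv i then cc w l' else 0) := by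
  simp only [Em, cc_ofC]
  rw [h]
  simp

theorem Em_cc_some (q w : Cn n) {l : Fin n} {i : Fin m} (h : row l = some i) (hl : l ≠ piv i) :
    cc (Em row piv q w) l = cc q l * Complex.exp (cc w l) := by
  simp only [Em, cc_ofC]
  rw [h]
  simp [hl]

/-- a coordinate with a row is a pivot or not -/
theorem Em_congr {q w w' : Cn n} (hpiv : ∀ i, row (piv i) = some i)
    (h : ∀ l, (∀ i, l ≠ piv i) → cc w l = cc w' l) : Em row piv q w = Em row piv q w' := by
  refine cn_ext fun l => ?_
  rcases hr : row l with _ | i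
  · rw [Em_cc_none _ _ hr, Em_cc_none _ _ hr, h l]
    intro i hi
    rw [hi, hpiv] at hr
    simp at hr
  · by_cases hl : l = piv i
    · subst hl
      rw [Em_cc_piv _ _ hr, Em_cc_piv _ _ hr]
      congr 3
      refine Finset.sum_congr rfl fun l' _ => ?_
      split_ifs with h'
      · refine h l' fun i' hi' => ?_
        rw [hi', hpiv] at h'
        obtain ⟨h1, h2⟩ := h'
        simp only [Option.some.injEq] at h1
        exact h2 (by rw [h1])
      · rfl
    · rw [Em_cc_some _ _ hr hl, Em_cc_some _ _ hr hl, h l]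
      intro i' hi'
      rw [hi', hpiv] at hr
      simp only [Option.some.injEq] at hr
      exact hl (by rw [hi', hr])

/-- periodicity in the imaginary directions of all coordinates with a row -/
theorem Em_period_of_ne_none (q : Cn n) (z : Cn n) {l : Fin n} (hl : row l ≠ none) :
    Em row piv q (z.1, z.2 + Pi.single l (2 * Real.pi)) = Em row piv q z := by
  have hcc : ∀ l', cc ((z.1, z.2 + Pi.single l (2 * Real.pi)) : Cn n) l' =
      cc z l' + if l' = l then 2 * Real.pi * Complex.I else 0 := by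
    intro l'
    by_cases h : l' = l
    · subst h
      apply Complex.ext <;> simp [cc]
    · apply Complex.ext <;> simp [cc, h]
  refine cn_ext fun k => ?_
  rcases hr : row k with _ | i
  · rw [Em_cc_none _ _ hr, Em_cc_none _ _ hr, hcc, if_neg, add_zero]
    rintro rfl
    exact hl hr
  · by_cases hk : k = piv i
    · subst hk
      rw [Em_cc_piv _ _ hr, Em_cc_piv _ _ hr]
      congr 1
      by_cases hli : row l = some i ∧ l ≠ piv i
      · have : ∑ l', (if row l' = some i ∧ l' ≠ piv i then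
            cc ((z.1, z.2 + Pi.single l (2 * Real.pi)) : Cn n) l' else 0) =
            (∑ l', if row l' = some i ∧ l' ≠ piv i then cc z l' else 0) +
              2 * Real.pi * Complex.I := by
          have : ∀ l', (if row l' = some i ∧ l' ≠ piv i then
            cc ((z.1, z.2 + Pi.single l (2 * Real.pi)) : Cn n) l' else 0) =
            (if row l' = some i ∧ l' ≠ piv i then cc z l' else 0) +
              if l' = l then 2 * Real.pi * Complex.I else 0 := by
            intro l'
            rw [hcc]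
            by_cases h' : l' = l
            · subst h'
              simp [hli]
            · simp [h']
          rw [Finset.sum_congr rfl fun l' _ => this l', Finset.sum_add_distrib]
          simp
        rw [this, neg_add, Complex.exp_add, Complex.exp_neg (2 * Real.pi * Complex.I),
          Complex.exp_two_pi_mul_I]
        simp
      · congr 2
        refine Finset.sum_congr rfl fun l' _ => ?_
        split_ifs with h'
        · rw [hcc, if_neg, add_zero]
          rintro rfl
          exact hli h'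
        · rfl
    · rw [Em_cc_some _ _ hr hk, Em_cc_some _ _ hr hk, hcc]
      split_ifs with h'
      · rw [Complex.exp_add, Complex.exp_two_pi_mul_I, mul_one]
      · rw [add_zero]

/-- the points with a given product of the coordinates of a row -/
theorem prow_split (hpiv : ∀ i, row (piv i) = some i) (x : Cn n) (i : Fin m) :
    prow row i x = cc x (piv i) *
      ∏ l, if row l = some i ∧ l ≠ piv i then cc x l else 1 := by
  unfold prow
  rw [← Finset.mul_prod_erase _ _ (Finset.mem_univ (piv i)), if_pos (hpiv i)]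
  congr 1
  rw [← Finset.mul_prod_erase Finset.univ (fun l => if row l = some i ∧ l ≠ piv i then cc x l else 1)
    (Finset.mem_univ (piv i)), if_neg (by simp), one_mul]
  refine Finset.prod_congr rfl fun l hl => ?_
  simp [Finset.ne_of_mem_erase hl]

theorem cc_ne_zero_of_prow {x : Cn n} {i : Fin m} (h : prow row i x ≠ 0) {l : Fin n}
    (hl : row l = some i) : cc x l ≠ 0 := by
  intro h0
  refine h (Finset.prod_eq_zero (Finset.mem_univ l) ?_)
  rw [if_pos hl, h0]

/-- the coordinates are bounded below by the product -/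
theorem norm_prow_le {x : Cn n} (hx : x ∈ cpd 2) {i : Fin m} {l : Fin n} (hl : row l = some i) :
    ‖prow row i x‖ ≤ ‖cc x l‖ * 2 ^ n := by
  have h2 := (mem_cpd_iff (by norm_num)).1 hx
  unfold prow
  rw [← Finset.mul_prod_erase _ _ (Finset.mem_univ l), if_pos hl, norm_mul, norm_prod]
  refine mul_le_mul_of_nonneg_left ?_ (norm_nonneg _)
  calc ∏ l' ∈ Finset.univ.erase l, ‖if row l' = some i then cc x l' else 1‖
      ≤ ∏ l' ∈ Finset.univ.erase l, (2 : ℝ) := by
        refine Finset.prod_le_prod (fun _ _ => norm_nonneg _) fun l' _ => ?_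
        split_ifs
        · exact h2 l'
        · simp
    _ = 2 ^ (Finset.univ.erase l).card := by simp
    _ ≤ 2 ^ n := by
        refine pow_le_pow_right₀ (by norm_num) ?_
        calc (Finset.univ.erase l).card ≤ (Finset.univ : Finset (Fin n)).card :=
              Finset.card_le_card (Finset.erase_subset _ _)
          _ = n := by simp

/-- the logarithms of the coordinates -/
theorem abs_log_cc_le {x : Cn n} (hx : x ∈ cpd 2) {i : Fin m} (h : prow row i x ≠ 0) {l : Fin n}
    (hl : row l = some i) : |Real.log ‖cc x l‖| ≤ |Real.log ‖prow row i x‖| + (n + 1) := by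
  have h2 := (mem_cpd_iff (by norm_num)).1 hx l
  have h0 : 0 < ‖cc x l‖ := norm_pos_iff.2 (cc_ne_zero_of_prow h hl)
  have hp : 0 < ‖prow row i x‖ := norm_pos_iff.2 h
  have hlog2 : Real.log 2 ≤ 1 := by
    have := Real.log_two_lt_d9
    linarith
  have hlog2' : 0 ≤ Real.log 2 := Real.log_nonneg (by norm_num)
  rw [abs_le]
  constructor
  · have h3 : Real.log ‖prow row i x‖ ≤ Real.log ‖cc x l‖ + n * Real.log 2 := by
      rw [← Real.log_pow, ← Real.log_mul h0.ne' (by positivity)]
      exact Real.log_le_log hp (norm_prow_le hx hl)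
    have h4 := neg_abs_le (Real.log ‖prow row i x‖)
    have h5 : (n : ℝ) * Real.log 2 ≤ n := by
      have : (0 : ℝ) ≤ n := Nat.cast_nonneg n
      nlinarith
    linarith
  · have h3 : Real.log ‖cc x l‖ ≤ Real.log 2 := Real.log_le_log h0 h2
    have h4 := abs_nonneg (Real.log ‖prow row i x‖)
    have : (0 : ℝ) ≤ n := Nat.cast_nonneg n
    linarith

end E

end ER

open ER

/-- **periodicity** -/
theorem Em_period {n m : ℕ} {row : Fin n → Option (Fin m)} {piv : Fin m → Fin n} {l : Fin n}
    {i : Fin m} (hl : row l = some i) (_hnp : l ≠ piv i) (q w : Cn n) :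
    Em row piv q (w.1, w.2 + Pi.single l (2 * Real.pi)) = Em row piv q w :=
  Em_period_of_ne_none q w (by rw [hl]; simp)

open Classical in
/-- **the points of the fibre are reached** -/
theorem reach (n m : ℕ) : ∃ C : ℝ, 1 ≤ C ∧ ∀ (row : Fin n → Option (Fin m))
    (piv : Fin m → Fin n), (∀ i, row (piv i) = some i) →
    ∀ p ∈ cpd (k := n) 2, ∀ q ∈ cpd (k := n) 2, (∀ i, prow row i q ≠ 0) →
    (∀ i, prow row i p = prow row i q) →
    ∃ w₁ : Cn n, Em row piv q w₁ = p ∧
      (∀ l i, row l = some i → l ≠ piv i → |w₁.2 l| ≤ Real.pi ∧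
        |w₁.1 l| ≤ C * (1 + ∑ i, |Real.log ‖prow row i q‖|)) ∧
      (∀ i, w₁.1 (piv i) = 0 ∧ w₁.2 (piv i) = 0) ∧
      (∀ l, row l = none → w₁.1 l = p.1 l - q.1 l ∧ w₁.2 l = p.2 l - q.2 l) := by
  refine ⟨2 * (n + 1), by have : (0 : ℝ) ≤ n := Nat.cast_nonneg n; linarith, ?_⟩
  intro row piv hpiv p hp q hq hq0 hpq
  have hp0 : ∀ i, prow row i p ≠ 0 := fun i => by rw [hpq i]; exact hq0 i
  set w₁ : Cn n := ofC fun l => match row l with
    | none => cc p l - cc q l
    | some i => if l = piv i then 0 else Complex.log (cc p l / cc q l) with hw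
  have hnone : ∀ l, row l = none → cc w₁ l = cc p l - cc q l := by
    intro l hl
    rw [hw, cc_ofC]
    simp only [hl]
  have hsome : ∀ l i, row l = some i → l ≠ piv i → cc w₁ l = Complex.log (cc p l / cc q l) := by
    intro l i hl hli
    rw [hw, cc_ofC]
    simp only [hl, if_neg hli]
  have hpv : ∀ i, cc w₁ (piv i) = 0 := by
    intro i
    rw [hw, cc_ofC]
    simp only [hpiv i, if_true]
  have hne : ∀ l i, row l = some i → cc p l ≠ 0 ∧ cc q l ≠ 0 := fun l i hl =>
    ⟨cc_ne_zero_of_prow (hp0 i) hl, cc_ne_zero_of_prow (hq0 i) hl⟩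
  have hexp : ∀ l i, row l = some i → l ≠ piv i → Complex.exp (cc w₁ l) = cc p l / cc q l := by
    intro l i hl hli
    rw [hsome l i hl hli, Complex.exp_log]
    exact div_ne_zero (hne l i hl).1 (hne l i hl).2
  refine ⟨w₁, ?_, ?_, ?_, ?_⟩
  · refine cn_ext fun l => ?_
    rcases hr : row l with _ | i
    · rw [Em_cc_none _ _ hr, hnone l hr]
      ring
    · obtain ⟨hpl, hql⟩ := hne l i hr
      by_cases hl : l = piv i
      · subst hl
        rw [Em_cc_piv _ _ hr, Complex.exp_neg, Complex.exp_sum]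
        have h1 : ∏ l', Complex.exp (if row l' = some i ∧ l' ≠ piv i then cc w₁ l' else 0) =
            (∏ l', if row l' = some i ∧ l' ≠ piv i then cc p l' else 1) /
              ∏ l', if row l' = some i ∧ l' ≠ piv i then cc q l' else 1 := by
          rw [← Finset.prod_div_distrib]
          refine Finset.prod_congr rfl fun l' _ => ?_
          split_ifs with h'
          · exact hexp l' i h'.1 h'.2
          · simp
        rw [h1]
        have h2 := hpq i
        rw [prow_split hpiv, prow_split hpiv] at h2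
        have hPn : (∏ l', if row l' = some i ∧ l' ≠ piv i then cc p l' else 1) ≠ 0 := by
          rw [Finset.prod_ne_zero_iff]
          intro l' _
          split_ifs with h'
          · exact (hne l' i h'.1).1
          · exact one_ne_zero
        rw [inv_div, mul_div_assoc', ← h2, mul_div_assoc, div_self hPn, mul_one]
      · rw [Em_cc_some _ _ hr hl, hexp l i hr hl]
        field_simp
  · intro l i hl hli
    obtain ⟨hpl, hql⟩ := hne l i hl
    have h := hsome l i hl hli
    constructor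
    · have : w₁.2 l = (Complex.log (cc p l / cc q l)).im := by
        rw [← h]
        rfl
      rw [this, Complex.log_im]
      exact Complex.abs_arg_le_pi _
    · have : w₁.1 l = (Complex.log (cc p l / cc q l)).re := by
        rw [← h]
        rfl
      rw [this, Complex.log_re, norm_div,
        Real.log_div (norm_ne_zero_iff.2 hpl) (norm_ne_zero_iff.2 hql)]
      have h1 := abs_log_cc_le hp (hp0 i) hl
      have h2 := abs_log_cc_le hq (hq0 i) hl
      rw [hpq i] at h1
      have h3 : |Real.log ‖prow row i q‖| ≤ ∑ i, |Real.log ‖prow row i q‖| :=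
        Finset.single_le_sum (f := fun i => |Real.log ‖prow row i q‖|)
          (fun _ _ => abs_nonneg _) (Finset.mem_univ i)
      have h4 : 0 ≤ ∑ i, |Real.log ‖prow row i q‖| := Finset.sum_nonneg fun _ _ => abs_nonneg _
      have hn : (0 : ℝ) ≤ n := Nat.cast_nonneg n
      calc |Real.log ‖cc p l‖ - Real.log ‖cc q l‖| ≤ |Real.log ‖cc p l‖| + |Real.log ‖cc q l‖| :=
            abs_sub _ _
        _ ≤ 2 * (∑ i, |Real.log ‖prow row i q‖| + (n + 1)) := by linarith
        _ ≤ 2 * (n + 1) * (1 + ∑ i, |Real.log ‖prow row i q‖|) := by nlinarith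
  · intro i
    have := hpv i
    exact ⟨congrArg Complex.re this, congrArg Complex.im this⟩
  · intro l hl
    have := hnone l hl
    exact ⟨congrArg Complex.re this, congrArg Complex.im this⟩

end Pool.Agent.KRFG

end

section

/-!
# `φ` along the fibres, in the charts of `W`
-/

open scoped ContDiff ENNReal ComplexOrder Topology
open Set Filter Pool.Agent.ToricKRF Pool.Agent.ToricKRF.G Pool.Agent.KRFS Pool.Agent.KRFF

namespace Pool.Agent.KRFG

namespace Fb

theorem levz_congr {n : ℕ} {f g : Cn n → ℝ} {z : Cn n} (h : f =ᶠ[𝓝 z] g) (u : Cn n) :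
    levz f u z = levz g u z := by
  have h2 : ∀ w, D w (D w f) z = D w (D w g) z := by
    intro w
    have h1 : D w f =ᶠ[𝓝 z] D w g := by
      filter_upwards [h.eventuallyEq_nhds] with x hx
      change fderiv ℝ f x w = fderiv ℝ g x w
      rw [hx.fderiv_eq]
    change fderiv ℝ (D w f) z w = fderiv ℝ (D w g) z w
    rw [h1.fderiv_eq]
  unfold levz
  rw [h2, h2]

theorem levz_const {n : ℕ} (a : ℝ) (u z : Cn n) : levz (fun _ : Cn n => a) u z = 0 := by
  have h1 : ∀ w : Cn n, D w (fun _ : Cn n => a) = fun _ => 0 := by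
    intro w
    funext x
    simp [D]
  have h2 : ∀ w : Cn n, D w (fun _ : Cn n => (0 : ℝ)) z = 0 := by
    intro w
    simp [D]
  unfold levz
  rw [h1, h1, h2, h2]
  norm_num

theorem nsq_nonneg {n : ℕ} (v : Cn n) : 0 ≤ nsq v := by
  simp only [nsq, dotProduct]
  exact add_nonneg (Finset.sum_nonneg fun i _ => mul_self_nonneg _)
    (Finset.sum_nonneg fun i _ => mul_self_nonneg _)

theorem nsq_pos {n : ℕ} {v : Cn n} (hv : v ≠ 0) : 0 < nsq v := by
  refine lt_of_le_of_ne (nsq_nonneg v) fun h => hv ?_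
  rw [Touch.nsq_eq] at h
  have h1 := (Finset.sum_eq_zero_iff_of_nonneg fun l _ => Complex.normSq_nonneg (cc v l)).1 h.symm
  refine ER.cn_ext fun l => ?_
  rw [Complex.normSq_eq_zero.1 (h1 l (Finset.mem_univ l))]
  apply Complex.ext <;> simp [cc]

theorem contDiff_nsq {n : ℕ} : ContDiff ℝ ∞ (nsq : Cn n → ℝ) := by
  unfold nsq dotProduct
  fun_prop

theorem lev_nonneg {n : ℕ} {M : Type} [TopologicalSpace M] {κ : Type} {T : ℝ} (F : Flow n M κ T)
    {c : κ} {t : ℝ} (ht : t ∈ Ico 0 T) {z : Cn n} (hz : z ∈ (F.e c).target) (u : Cn n) :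
    0 ≤ lev (F.ψ c) u (t, z) := by
  obtain ⟨U, hU, hsub, hψ⟩ := F.krf.smooth c
  by_cases hu : u = 0
  · subst hu
    have h0 : ∀ g : ℝ × Cn n → ℝ, D ((0 : ℝ), (0 : Cn n)) g (t, z) = 0 := fun g =>
      map_zero (fderiv ℝ g (t, z))
    have hJ : J (0 : Cn n) = 0 := by simp [J]
    simp only [lev]
    rw [hJ, h0]
    simp
  · exact (lev_pos hU hψ (hsub ⟨ht, hz⟩) (F.krf.pos c t ht z hz) hu).le

section Em

variable {n m : ℕ} {row : Fin n → Option (Fin m)} {piv : Fin m → Fin n}

theorem prow_Em' (hpiv : ∀ i, row (piv i) = some i) (q w : Cn n) (i : Fin m) :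
    prow row i (Em row piv q w) = prow row i q := by
  rw [ER.prow_split hpiv, ER.prow_split hpiv, ER.Em_cc_piv q w (hpiv i)]
  have h1 : ∏ l, (if row l = some i ∧ l ≠ piv i then cc (Em row piv q w) l else 1) =
      (∏ l, if row l = some i ∧ l ≠ piv i then cc q l else 1) *
        Complex.exp (∑ l, if row l = some i ∧ l ≠ piv i then cc w l else 0) := by
    rw [Complex.exp_sum, ← Finset.prod_mul_distrib]
    refine Finset.prod_congr rfl fun l _ => ?_
    by_cases h : row l = some i ∧ l ≠ piv i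
    · rw [if_pos h, if_pos h, if_pos h, ER.Em_cc_some q w h.1 h.2]
    · rw [if_neg h, if_neg h, if_neg h, Complex.exp_zero, mul_one]
  rw [h1, Complex.exp_neg]
  have h2 := Complex.exp_ne_zero (∑ l, if row l = some i ∧ l ≠ piv i then cc w l else 0)
  field_simp

theorem holC_exp {g : Cn n → ℂ} {S : Set (Cn n)} (hS : IsOpen S) (hg : NF.HolC g S) :
    NF.HolC (fun z => Complex.exp (g z)) S :=
  (Touch.holC_comp isOpen_univ Complex.differentiable_exp.differentiableOn hS hg
    (mapsTo_univ _ _)).1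

theorem Em_holOn' (q : Cn n) : HolOn (Em row piv q) univ := by
  classical
  have hid : HolOn (fun w : Cn n => w) univ := ⟨contDiff_id.contDiffOn, fun z _ u => by simp⟩
  have hc : ∀ l, NF.HolC (fun w : Cn n => cc w l) univ := fun l =>
    NF.holOn_cc isOpen_univ hid l
  unfold Em
  refine (Touch.holOn_ofC isOpen_univ fun l => ?_).1
  rcases hr : row l with _ | i
  · simp only
    exact (NF.HolC.const _ _).add isOpen_univ (hc l)
  · simp only
    by_cases hl : l = piv i
    · simp only [if_pos hl]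
      refine (NF.HolC.const _ _).mul isOpen_univ (holC_exp isOpen_univ ?_)
      have h1 : NF.HolC (fun w : Cn n => (-1 : ℂ) * ∑ l', if row l' = some i ∧ l' ≠ l then
          cc w l' else 0) univ := by
        refine (NF.HolC.const _ _).mul isOpen_univ (NF.HolC.sum _ isOpen_univ fun l' => ?_)
        by_cases h : row l' = some i ∧ l' ≠ l
        · simp only [if_pos h]
          exact hc l'
        · simp only [if_neg h]
          exact NF.HolC.const _ _
      simpa only [neg_one_mul] using h1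
    · simp only [if_neg hl]
      exact (NF.HolC.const _ _).mul isOpen_univ (holC_exp isOpen_univ (hc l))

end Em

end Fb

section

variable {n m : ℕ} {M Y W : Type} [TopologicalSpace M] [TopologicalSpace Y] [TopologicalSpace W]
  {κ P ι : Type} {T : ℝ} (F : Mod n m M Y W κ P ι T)

/-- `π` in the charts `a c` and `e (al c)` -/
noncomputable def Mod.piC (c : ι) (x : Cn n) : Cn n := F.e (F.al c) (F.π ((F.a c).symm x))

theorem Mod.mem_src (c : ι) {x : Cn n} (hx : x ∈ opd 10) :
    F.π ((F.a c).symm x) ∈ (F.e (F.al c)).source :=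
  F.model.mem c _ ((F.a c).map_target (by rw [F.model.target c]; exact hx))

theorem Mod.piC_mem (c : ι) {x : Cn n} (hx : x ∈ opd 10) : F.piC c x ∈ (F.e (F.al c)).target :=
  (F.e (F.al c)).map_source (F.mem_src c hx)

theorem Mod.symm_piC (c : ι) {x : Cn n} (hx : x ∈ opd 10) :
    (F.e (F.al c)).symm (F.piC c x) = F.π ((F.a c).symm x) :=
  (F.e (F.al c)).left_inv (F.mem_src c hx)

theorem Mod.piC_hol (c : ι) : HolOn (F.piC c) (opd 10) := F.model.holo c

theorem Mod.Phi_piC {t : ℝ} (ht : t ∈ Ico 0 T) (c : ι) {x : Cn n} (hx : x ∈ opd 10) :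
    F.Phi t (F.π ((F.a c).symm x)) = F.phi (F.al c) (t, F.piC c x) :=
  F.Phi_eq ht (F.mem_src c hx)

theorem Mod.phi_slice (c : κ) {t : ℝ} (ht : t ∈ Ico 0 T) :
    ContDiffOn ℝ ∞ (fun z => F.phi c (t, z)) (F.e c).target := by
  obtain ⟨U, hU, hsub, hs⟩ := F.phi_isFun.smooth c
  exact hs.comp (contDiff_const.prodMk contDiff_id).contDiffOn fun z hz => hsub ⟨ht, hz⟩

theorem Mod.smooth_W' {t : ℝ} (ht : t ∈ Ico 0 T) (c : ι) :
    ContDiffOn ℝ ∞ (fun x => F.phi (F.al c) (t, F.piC c x)) (opd 10) :=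
  (F.phi_slice (F.al c) ht).comp (F.piC_hol c).1 fun _ hx => F.piC_mem c hx

theorem Mod.smooth_W {t : ℝ} (ht : t ∈ Ico 0 T) (c : ι) :
    ContDiffOn ℝ ∞ (fun x => F.Phi t (F.π ((F.a c).symm x))) (opd 10) :=
  (F.smooth_W' ht c).congr fun _ hx => F.Phi_piC ht c hx

/-- the pull-back of `ω(0)` to `W` is bounded in the charts -/
theorem Mod.pull_le (hT : 0 < T) (c : ι) : ∃ C : ℝ, 0 ≤ C ∧ ∀ x ∈ cpd (k := n) 9, ∀ v,
    lev (F.ψ (F.al c)) (fderiv ℝ (F.piC c) x v) (0, F.piC c x) ≤ C * nsq v := by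
  have h0 : (0 : ℝ) ∈ Ico 0 T := ⟨le_rfl, hT⟩
  obtain ⟨U, hU, hsub, hs⟩ := F.krf.smooth (F.al c)
  have hsl : ContDiffOn ℝ ∞ (fun z => F.ψ (F.al c) (0, z)) (F.e (F.al c)).target :=
    hs.comp (contDiff_const.prodMk contDiff_id).contDiffOn fun z hz => hsub ⟨h0, hz⟩
  have hcomp : ContDiffOn ℝ ∞ (fun x => F.ψ (F.al c) (0, F.piC c x)) (opd 10) :=
    hsl.comp (F.piC_hol c).1 fun _ hx => F.piC_mem c hx
  have h9 : (cpd 9 : Set (Cn n)) ⊆ opd 10 := cpd_subset_opd (by norm_num) (by norm_num)
  obtain ⟨C, hC, h⟩ := quad_le (isCompact_cpd (k := n) 9)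
    (fun x v => levz (fun x => F.ψ (F.al c) (0, F.piC c x)) v x) (fun _ v => nsq v)
    ((levz_continuousOn (isOpen_opd 10) hcomp).mono (prod_mono h9 le_rfl))
    ((Fb.contDiff_nsq.continuous.comp continuous_snd).continuousOn)
    (fun x hx r v => Bd.levz_smul (isOpen_opd 10) hcomp (h9 hx) r v)
    (fun x _ r v => by
      simp only [nsq, Prod.smul_fst, Prod.smul_snd, dotProduct_smul, smul_dotProduct, smul_eq_mul]
      ring)
    (fun x _ v hv => Fb.nsq_pos hv)
  refine ⟨C, hC, fun x hx v => ?_⟩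
  have h1 := h x hx v
  have h2 := levz_comp (F.e (F.al c)).open_target hsl (isOpen_opd 10) (F.piC_hol c) (h9 hx)
    (F.piC_mem c (h9 hx)) v
  have h3 : levz (fun z => F.ψ (F.al c) (0, z)) (fderiv ℝ (F.piC c) x v) (F.piC c x) =
      lev (F.ψ (F.al c)) (fderiv ℝ (F.piC c) x v) (0, F.piC c x) :=
    levz_slice hU hs (hsub ⟨h0, F.piC_mem c (h9 hx)⟩) _
  rw [← h3, ← h2]
  exact h1

theorem Mod.fib_psh [Fintype ι] : ∃ C : ℝ, 0 ≤ C ∧ ∀ t ∈ Ico 0 T, ∀ c, ∀ q ∈ opd (k := n) 9,
    ∀ M₀ : ℝ,
    ∀ piv : Fin m → Fin n, (∀ i, F.row c (piv i) = some i) → ∀ w,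
    Em (F.row c) piv q w ∈ opd 9 → ∀ u,
    0 ≤ levz (fun w => F.Phi t (F.π ((F.a c).symm (Em (F.row c) piv q w))) - M₀ +
      C * (1 - t / T) * (nsq (Em (F.row c) piv q w) - 81 * n)) u w := by
  by_cases hT : 0 < T
  swap
  · exact ⟨0, le_rfl, fun t ht => absurd (lt_of_le_of_lt ht.1 ht.2) hT⟩
  choose C' hC' h' using F.pull_le hT
  obtain ⟨B, hB⟩ := (Set.finite_range C').bddAbove
  set C : ℝ := max B 0 with hCdef
  refine ⟨C, le_max_right _ _, fun t ht c q hq M₀ piv hpiv w hw u => ?_⟩
  have hC0 : 0 ≤ C := le_max_right _ _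
  set E : Cn n → Cn n := Em (F.row c) piv q with hE
  have hEh : HolOn E univ := Fb.Em_holOn' q
  have hEc : Continuous E := (continuousOn_univ.1 hEh.1.continuousOn)
  set S : Set (Cn n) := E ⁻¹' opd 9 with hS
  have hSo : IsOpen S := (isOpen_opd 9).preimage hEc
  have hwS : w ∈ S := hw
  have h910 : (opd 9 : Set (Cn n)) ⊆ opd 10 := NT.opd_mono (by norm_num) (by norm_num)
  have hES : HolOn E S := NT.hol_mono hEh (subset_univ _)
  have hH : HolOn (fun w => F.piC c (E w)) S :=
    NT.hol_comp hSo (isOpen_opd 10) (F.piC_hol c) hES fun x hx => h910 hx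
  have hzt : F.piC c (E w) ∈ (F.e (F.al c)).target := F.piC_mem c (h910 hw)
  set z : Cn n := F.piC c (E w) with hz
  set V : Cn n := fderiv ℝ E w u with hV
  set X : Cn n := fderiv ℝ (F.piC c) (E w) V with hX
  have hXeq : fderiv ℝ (fun w => F.piC c (E w)) w u = X :=
    NT.fderiv_hol_comp hSo (isOpen_opd 10) (F.piC_hol c) hES hwS (h910 hw) u
  -- the function near `w`
  have hev : (fun w => F.Phi t (F.π ((F.a c).symm (E w))) - M₀ +
      C * (1 - t / T) * (nsq (E w) - 81 * n)) =ᶠ[𝓝 w]
      fun w => F.phi (F.al c) (t, F.piC c (E w)) + (-M₀ - C * (1 - t / T) * (81 * n) +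
        C * (1 - t / T) * nsq (E w)) := by
    filter_upwards [hSo.mem_nhds hwS] with x hx
    rw [F.Phi_piC ht c (h910 hx)]
    ring
  have hphi : ContDiffOn ℝ ∞ (fun w => F.phi (F.al c) (t, F.piC c (E w))) S :=
    (F.phi_slice (F.al c) ht).comp hH.1 fun x hx => F.piC_mem c (h910 hx)
  have hnsq : ContDiff ℝ ∞ (nsq : Cn n → ℝ) := Fb.contDiff_nsq
  have hnE : ContDiffOn ℝ ∞ (fun w => nsq (E w)) S := hnsq.comp_contDiffOn hES.1
  have d1 : ContDiffAt ℝ 2 (fun w => F.phi (F.al c) (t, F.piC c (E w))) w :=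
    (hphi.contDiffAt (hSo.mem_nhds hwS)).of_le two_le_infty
  have d2 : ContDiffAt ℝ 2 (fun w => nsq (E w)) w :=
    (hnE.contDiffAt (hSo.mem_nhds hwS)).of_le two_le_infty
  have d3 : ContDiffAt ℝ 2 (fun w => C * (1 - t / T) * nsq (E w)) w := contDiffAt_const.mul d2
  have d4 : ContDiffAt ℝ 2 (fun _ : Cn n => -M₀ - C * (1 - t / T) * (81 * n)) w :=
    contDiffAt_const
  have hconst : levz (fun _ : Cn n => -M₀ - C * (1 - t / T) * (81 * n)) u w = 0 :=
    Fb.levz_const _ _ _
  have e1 : levz (fun w => F.Phi t (F.π ((F.a c).symm (E w))) - M₀ +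
      C * (1 - t / T) * (nsq (E w) - 81 * n)) u w =
      levz (fun w => F.phi (F.al c) (t, F.piC c (E w))) u w +
        C * (1 - t / T) * levz (fun w => nsq (E w)) u w := by
    rw [Fb.levz_congr hev, Bd.levz_add d1 (d4.add d3), Bd.levz_add d4 d3, hconst,
      Bd.levz_const_mul _ d2]
    ring
  -- the Levi form of `φ`
  obtain ⟨U, hU, hsub, hs⟩ := F.phi_isFun.smooth (F.al c)
  have e2 : levz (fun w => F.phi (F.al c) (t, F.piC c (E w))) u w =
      lev (F.phi (F.al c)) X (t, z) := by
    have h1 := levz_comp (F.e (F.al c)).open_target (F.phi_slice (F.al c) ht) hSo hH hwS hzt u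
    rw [h1, hXeq]
    exact levz_slice hU hs (hsub ⟨ht, hzt⟩) X
  have e3 : levz (fun w => nsq (E w)) u w = nsq V := by
    rw [levz_comp isOpen_univ hnsq.contDiffOn hSo hES hwS (mem_univ _) u, Gap.levz_nsq']
  -- `θ` vanishes along the fibre
  obtain ⟨hsrc, -⟩ := F.base_chart c (h910 hw)
  have hθ : levz (F.Θ (F.al c)) X z = 0 := by
    have h1 := F.theta (F.al c) z hzt X
    rw [← h1]
    have h2 : (F.e (F.al c)).symm z = F.π ((F.a c).symm (E w)) := F.symm_piC c (h910 hw)
    have h3 : F.f ((F.e (F.al c)).symm z) ∈ (F.b (F.pc c)).source := by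
      rw [h2]
      exact hsrc
    rw [F.lim.eq (F.al c) (F.pc c) z hzt h3 X]
    set S' : Set (Cn n) := {z | z ∈ (F.e (F.al c)).target ∧
      F.f ((F.e (F.al c)).symm z) ∈ (F.b (F.pc c)).source} with hS'
    have hS'o : IsOpen S' := by
      have h4 : ContinuousOn (fun z => F.f ((F.e (F.al c)).symm z)) (F.e (F.al c)).target :=
        F.hol.cont.comp_continuousOn (F.e (F.al c)).continuousOn_symm
      exact h4.isOpen_inter_preimage (F.e (F.al c)).open_target (F.b (F.pc c)).open_source
    have hK : ContDiffOn ℝ ∞ (fun z => F.K (F.pc c) (F.b (F.pc c) (F.f ((F.e (F.al c)).symm z))))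
        S' :=
      (F.lim.smooth (F.pc c)).comp (F.hol.holo (F.al c) (F.pc c)).1
        fun x hx => (F.b (F.pc c)).map_source hx.2
    have h5 := levz_comp hS'o hK hSo hH hwS ⟨hzt, h3⟩ u
    rw [hXeq] at h5
    rw [← h5]
    have h6 : (fun x => F.K (F.pc c) (F.b (F.pc c) (F.f ((F.e (F.al c)).symm (F.piC c (E x))))))
        =ᶠ[𝓝 w] fun _ => F.K (F.pc c)
          (ofC fun i => ((F.s c i : ℂ) * prow (F.row c) i q) ^ F.N (F.pc c) i) := by
      filter_upwards [hSo.mem_nhds hwS] with x hx
      rw [F.symm_piC c (h910 hx), (F.base_chart c (h910 hx)).2]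
      congr 2
      funext i
      rw [hE, Fb.prow_Em' hpiv]
    rw [Fb.levz_congr h6]
    exact Fb.levz_const _ _ _
  have hE9 : E w ∈ cpd (k := n) 9 := fun i => (hw i).le
  have h7 := h' c (E w) hE9 V
  have h8 : lev (F.ψ (F.al c)) X (0, z) ≤ C * nsq V := by
    exact h7.trans (mul_le_mul_of_nonneg_right ((hB ⟨c, rfl⟩).trans (le_max_left _ _))
      (Fb.nsq_nonneg V))
  have h9 : 0 ≤ lev (F.ψ (F.al c)) X (t, z) := Fb.lev_nonneg F.toFlow ht hzt X
  have h10 : 0 ≤ 1 - t / T := by
    rw [sub_nonneg, div_le_one hT]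
    exact ht.2.le
  rw [e1, e2, e3, F.lev_phi ht hzt, hθ]
  have h11 := mul_le_mul_of_nonneg_left h8 h10
  nlinarith

end

end Pool.Agent.KRFG

end
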