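import Pool.Agent.Work.MP_a2bf38_gt.Fu.I.NatDefs
import Pool.Agent.Work.MP_a2bf38_gt.Fu.I.NatLin
import Pool.Agent.Work.MP_a2bf38_gt.Fu.K.Setup
import Pool.Agent.Work.MP_a2bf38_gt.Fu.I.GapA
import Pool.Agent.Work.MP_a2bf38_gt.Fu.Z.PoleW
import Pool.Agent.Work.MP_a2bf38_gt.Fu.Q.Exh
import Pool.Agent.Work.MP_a2bf38_gt.Fu.X.Defs
import Pool.Agent.Work.MP_a2bf38_gt.Fu.H.Cut
import Pool.Agent.Work.MP_a2bf38_gt.Fu.I.Sect
import Pool.Agent.Work.MP_a2bf38_gt.Fu.I.ABP2
import Pool.Agent.Work.MP_a2bf38_gt.Fu.I.Ray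
import Pool.Agent.Work.MP_a2bf38_gt.Fu.I.GapB
import Pool.Agent.Work.MP_a2bf38_gt.Fu.I.FibBasic

section

/-!
# Submersions have semistable models
-/

open scoped ContDiff ENNReal ComplexOrder Topology
open Set Filter Pool.Agent.ToricKRF Pool.Agent.ToricKRF.G Pool.Agent.KRFS Pool.Agent.KRFF

namespace Pool.Agent.KRFG

namespace NSub

theorem cc_sub {m : ℕ} (u v : Cn m) (i : Fin m) : cc (u - v) i = cc u i - cc v i := by
  apply Complex.ext <;> simp [cc]

theorem cc_ext {m : ℕ} {u v : Cn m} (h : ∀ i, cc u i = cc v i) : u = v := by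
  ext i
  · exact congrArg Complex.re (h i)
  · exact congrArg Complex.im (h i)

theorem isCompact_cpd {m : ℕ} (s : ℝ) : IsCompact (cpd s : Set (Cn m)) := by
  have hclosed : IsClosed (cpd s : Set (Cn m)) := by
    have h1 : (cpd s : Set (Cn m)) = ⋂ i, {u : Cn m | u.1 i ^ 2 + u.2 i ^ 2 ≤ s ^ 2} := by
      ext u
      simp [cpd]
    rw [h1]
    refine isClosed_iInter fun i => isClosed_le ?_ continuous_const
    fun_prop
  refine Metric.isCompact_of_isClosed_isBounded hclosed ?_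
  refine (Metric.isBounded_closedBall (x := (0 : Cn m)) (r := |s|)).subset fun u hu => ?_
  rw [mem_closedBall_zero_iff, Prod.norm_def, max_le_iff, pi_norm_le_iff_of_nonneg (abs_nonneg s),
    pi_norm_le_iff_of_nonneg (abs_nonneg s)]
  refine ⟨fun i => ?_, fun i => ?_⟩
  · rw [Real.norm_eq_abs]
    exact sq_le_sq.1 (by nlinarith [hu i, sq_nonneg (u.2 i)])
  · rw [Real.norm_eq_abs]
    exact sq_le_sq.1 (by nlinarith [hu i, sq_nonneg (u.1 i)])

theorem cpd_subset_opd' {m : ℕ} {s r : ℝ} (hs : 0 ≤ s) (h : s < r) :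
    (cpd s : Set (Cn m)) ⊆ opd r := fun u hu i =>
  lt_of_le_of_lt (hu i) (pow_lt_pow_left₀ h hs (by norm_num))

/-- the projection to the last coordinates as a monomial map -/
def prowSnd (k m : ℕ) : Fin (k + m) → Option (Fin m) := Fin.addCases (fun _ => none) some

theorem prow_prowSnd {k m : ℕ} (x : Cn (k + m)) (i : Fin m) :
    prow (prowSnd k m) i x = cc (sndC x) i := by
  unfold prow prowSnd
  rw [Fin.prod_univ_add]
  simp only [Fin.addCases_left, Fin.addCases_right, Option.some.injEq]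
  rw [Finset.prod_ite_eq']
  simp
  rfl

end NSub

open NSub NT

theorem semistable_of_submersion {M Y : Type} [TopologicalSpace M] [CompactSpace M] [T2Space M]
    [TopologicalSpace Y] [T2Space Y] {k m : ℕ} {κ P : Type}
    {e : κ → OpenPartialHomeomorph M (Cn (k + m))} {b : P → OpenPartialHomeomorph Y (Cn m)}
    {f : M → Y} (he : IsAtlas e) (hb : IsAtlas b) (hf : IsSubmersion e b f)
    (hconn : ∀ y, IsPreconnected (f ⁻¹' {y})) (y₀ : Y) : Nonempty (SemistableAt e b f y₀) := by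
  obtain ⟨j, hj⟩ := hb.cover y₀
  set z₀ := b j y₀ with hz₀
  obtain ⟨r, hr, hrt⟩ := exists_opd (b j).open_target ((b j).map_source hj)
  rw [← hz₀] at hrt
  have hVo : IsOpen {y : Cn m | y - z₀ ∈ opd r} := (NT.isOpen_opd r).preimage (by fun_prop)
  have hYo : IsOpen ((b j).source ∩ (b j) ⁻¹' {y : Cn m | y - z₀ ∈ opd r}) :=
    (b j).isOpen_inter_preimage hVo
  let U : TopologicalSpace.Opens M :=
    ⟨f ⁻¹' ((b j).source ∩ (b j) ⁻¹' {y : Cn m | y - z₀ ∈ opd r}), hYo.preimage hf.continuous⟩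
  have hU : ∀ w : U, f w.1 ∈ (b j).source ∧ b j (f w.1) - z₀ ∈ opd r := fun w => w.2
  have hcont : Continuous fun w : U => b j (f w.1) - z₀ := by
    have h1 : Continuous fun w : U => b j (f w.1) := by
      rw [continuous_iff_continuousAt]
      intro w
      have h2 : ContinuousAt (b j) (f w.1) := (b j).continuousAt (hU w).1
      exact ContinuousAt.comp (f := fun w : U => f w.1) h2
        (hf.continuous.comp continuous_subtype_val).continuousAt
    exact h1.sub continuous_const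
  refine ⟨{
    j := j
    mem := hj
    r := r
    r_pos := hr
    W := U
    top := inferInstance
    t2 := inferInstance
    π := Subtype.val
    τ := fun w => b j (f w.1) - z₀
    N := fun _ => 1
    N_pos := fun _ => one_pos
    cont := hcont
    range := fun w => (hU w).2
    base := fun w => ⟨(hU w).1, fun i => ?_⟩
    lift := fun p hp t ht h => ?_
    proper := fun s hs hsr => ?_
    connected := fun t ht => ?_
    chart := fun w hw => ?_ }⟩
  · rw [pow_one, cc_sub]
    ring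
  · have h1 : b j (f p) - z₀ = t := cc_ext fun i => by
      rw [cc_sub, h i, pow_one]
      ring
    exact ⟨⟨p, hp, by rw [← h1] at ht; exact ht⟩, h1, rfl⟩
  · -- the map is proper
    have hDc : IsCompact ((b j).symm '' {y : Cn m | y - z₀ ∈ cpd s}) := by
      have h1 : IsCompact {y : Cn m | y - z₀ ∈ cpd s} := by
        have h2 : {y : Cn m | y - z₀ ∈ cpd s} = (fun y => y + z₀) '' cpd s := by
          ext y
          constructor
          · intro hy
            exact ⟨y - z₀, hy, by simp⟩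
          · rintro ⟨u, hu, rfl⟩
            simpa using hu
        rw [h2]
        exact (NSub.isCompact_cpd s).image (by fun_prop)
      refine h1.image_of_continuousOn ((b j).continuousOn_symm.mono fun y hy => ?_)
      exact hrt y (cpd_subset_opd' hs hsr hy)
    have hM : IsCompact (f ⁻¹' ((b j).symm '' {y : Cn m | y - z₀ ∈ cpd s})) :=
      (hDc.isClosed.preimage hf.continuous).isCompact
    have himg : Subtype.val '' {w : U | b j (f w.1) - z₀ ∈ cpd s} =
        f ⁻¹' ((b j).symm '' {y : Cn m | y - z₀ ∈ cpd s}) := by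
      ext p
      constructor
      · rintro ⟨w, hw, rfl⟩
        exact ⟨b j (f w.1), hw, (b j).left_inv (hU w).1⟩
      · rintro ⟨y, hy, hyp⟩
        have hyt : y ∈ (b j).target := hrt y (cpd_subset_opd' hs hsr hy)
        have h1 : f p ∈ (b j).source := by
          rw [← hyp]
          exact (b j).map_target hyt
        have h2 : b j (f p) = y := by
          rw [← hyp]
          exact (b j).right_inv hyt
        refine ⟨⟨p, h1, ?_⟩, ?_, rfl⟩
        · change b j (f p) - z₀ ∈ opd r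
          rw [h2]
          exact cpd_subset_opd' hs hsr hy
        · change b j (f p) - z₀ ∈ cpd s
          rw [h2]
          exact hy
    rw [Topology.IsEmbedding.subtypeVal.isCompact_iff, himg]
    exact hM
  · -- the fibres are connected
    by_cases htr : t ∈ opd r
    · have h1 : IsPreconnected (f ⁻¹' {(b j).symm (z₀ + t)}) := hconn _
      have htt : z₀ + t ∈ (b j).target := hrt _ (by simpa using htr)
      have himg : Subtype.val '' {w : U | b j (f w.1) - z₀ = t} =
          f ⁻¹' {(b j).symm (z₀ + t)} := by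
        ext p
        constructor
        · rintro ⟨w, hw, rfl⟩
          have hw' : b j (f w.1) - z₀ = t := hw
          change f w.1 = _
          rw [← hw', add_sub_cancel, (b j).left_inv (hU w).1]
        · intro hp
          have hp' : f p = (b j).symm (z₀ + t) := hp
          have h2 : f p ∈ (b j).source := by
            rw [hp']
            exact (b j).map_target htt
          have h3 : b j (f p) = z₀ + t := by
            rw [hp']
            exact (b j).right_inv htt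
          refine ⟨⟨p, h2, ?_⟩, ?_, rfl⟩
          · change b j (f p) - z₀ ∈ opd r
            rw [h3]
            simpa using htr
          · change b j (f p) - z₀ = t
            rw [h3]
            simp
      rw [← himg] at h1
      exact Topology.IsInducing.subtypeVal.isPreconnected_image.1 h1
    · have h1 : {w : U | b j (f w.1) - z₀ = t} = ∅ := by
        ext w
        simp only [mem_ofPred_eq, mem_empty_iff_false, iff_false]
        rintro rfl
        exact htr (hU w).2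
      change IsPreconnected {w : U | b j (f w.1) - z₀ = t}
      rw [h1]
      exact isPreconnected_empty
  · -- the charts
    have hw' : b j (f w.1) - z₀ = 0 := hw
    obtain ⟨c, E, hpE, hEs, hEf, hEsnd, hE1, hE2⟩ := exists_local he hf j w.1 (hU w).1
    set p := w.1 with hp
    let E' : OpenPartialHomeomorph M (Cn (k + m)) :=
      E.transHomeomorph (Homeomorph.subRight (E p))
    have hE's : E'.source = E.source := rfl
    have hE'a : ∀ q, E' q = E q - E p := fun q => rfl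
    have hE'y : ∀ x, E'.symm x = E.symm (x + E p) := fun x => rfl
    have hE't : ∀ x, x ∈ E'.target ↔ x + E p ∈ E.target := fun x => Iff.rfl
    let a : OpenPartialHomeomorph U (Cn (k + m)) := E'.subtypeRestr ⟨w⟩
    have has : ∀ w' : U, w' ∈ a.source ↔ w'.1 ∈ E.source := fun w' => by
      change w' ∈ (E'.subtypeRestr ⟨w⟩).source ↔ _
      rw [OpenPartialHomeomorph.subtypeRestr_source]
      rfl
    have haa : ∀ w' : U, a w' = E w'.1 - E p := fun w' => rfl
    have hat : ∀ x ∈ a.target, (a.symm x).1 = E.symm (x + E p) := by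
      intro x hx
      have h1 := (OpenPartialHomeomorph.subtypeRestr_symm_eqOn E' ⟨w⟩) hx
      exact h1.symm
    have hat' : ∀ x ∈ a.target, x + E p ∈ E.target := by
      intro x hx
      have h1 := a.map_target hx
      have h2 : a (a.symm x) = x := a.right_inv hx
      rw [haa] at h2
      have h3 : x + E p = E (a.symm x).1 := (sub_eq_iff_eq_add.1 h2).symm
      rw [h3]
      exact E.map_source ((has _).1 h1)
    refine ⟨a, c, prowSnd k m, (has w).2 hpE, ?_, fun i => ⟨Fin.natAdd k i, ?_⟩, fun w' h => ?_, ?_,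
      fun w' h i => ?_⟩
    · rw [haa, hp, sub_self]
    · simp [prowSnd]
    · exact hEs ((has w').1 h)
    · have h1 : HolOn (fun x => e c (E.symm (E p + (1 : ℝ) • x))) a.target :=
        hol_comp (G := fun z => e c (E.symm z)) (S' := E.target) a.open_target E.open_target hE1
          (hol_scale 1 (E p) _) fun x hx => by
            rw [one_smul, add_comm (E p) x]
            exact hat' x hx
      refine hol_congr a.open_target h1 fun x hx => ?_
      change e c (a.symm x).1 = e c (E.symm (E p + (1 : ℝ) • x))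
      rw [hat x hx, one_smul, add_comm (E p) x]
    · rw [prow_prowSnd, haa, sndC_sub, hEsnd _ ((has w').1 h), hEsnd _ hpE]
      rw [← sub_eq_zero.1 hw']

end Pool.Agent.KRFG

end

section

/-!
# Volumes in `M` and in the charts of the models
-/

open scoped ContDiff ENNReal ComplexOrder Topology
open Set MeasureTheory Filter Pool.Agent.ToricKRF Pool.Agent.ToricKRF.G Pool.Agent.KRFS
  Pool.Agent.KRFF

namespace Pool.Agent.KRFG

namespace Up

/-- a smooth map increases the outer measure of the subsets of a compact set by a bounded factor -/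
theorem volume_image_le {n : ℕ} {h : Cn n → Cn n} {U K : Set (Cn n)} (hU : IsOpen U)
    (hh : ContDiffOn ℝ ∞ h U) (hK : IsCompact K) (hKU : K ⊆ U) :
    ∃ C : ℝ, 0 ≤ C ∧ ∀ B ⊆ K, volume (h '' B) ≤ ENNReal.ofReal C * volume B := by
  have hfd : ContinuousOn (fderiv ℝ h) U :=
    ((contDiffOn_infty_iff_fderiv_of_isOpen hU).1 hh).2.continuousOn
  have hdet : ContinuousOn (fun x => |(fderiv ℝ h x).det|) K :=
    (ContinuousLinearMap.continuous_det.comp_continuousOn (hfd.mono hKU)).abs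
  obtain ⟨C, hC⟩ := hK.bddAbove_image hdet
  refine ⟨max C 0, le_max_right _ _, fun B hB => ?_⟩
  have hms : MeasurableSet (toMeasurable volume B ∩ K) :=
    (measurableSet_toMeasurable _ _).inter hK.measurableSet
  calc volume (h '' B) ≤ volume (h '' (toMeasurable volume B ∩ K)) := by
        gcongr
        exact fun x hx => ⟨subset_toMeasurable _ _ hx, hB hx⟩
    _ ≤ ∫⁻ x in toMeasurable volume B ∩ K, ENNReal.ofReal |(fderiv ℝ h x).det| := by
        have : (volume : Measure (Cn n)).IsAddHaarMeasure := Measure.prod.instIsAddHaarMeasure _ _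
        refine addHaar_image_le_lintegral_abs_det_fderiv volume hms fun x hx => ?_
        exact ((hh.differentiableOn (by simp)).differentiableAt
          (hU.mem_nhds (hKU hx.2))).hasFDerivAt.hasFDerivWithinAt
    _ ≤ ∫⁻ _ in toMeasurable volume B ∩ K, ENNReal.ofReal (max C 0) := by
        refine setLIntegral_mono measurable_const fun x hx => ?_
        exact ENNReal.ofReal_le_ofReal ((hC (mem_image_of_mem _ hx.2)).trans (le_max_left _ _))
    _ = ENNReal.ofReal (max C 0) * volume (toMeasurable volume B ∩ K) := by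
        rw [setLIntegral_const]
    _ ≤ ENNReal.ofReal (max C 0) * volume B := by
        refine mul_le_mul_right ?_ _
        exact (measure_mono inter_subset_left).trans (measure_toMeasurable _).le

end Up

section Mod

variable {n m : ℕ} {M Y W : Type} [TopologicalSpace M] [CompactSpace M] [T2Space M]
  [TopologicalSpace Y] [T2Space Y] [TopologicalSpace W] [T2Space W] {κ P ι : Type}
  [Finite P] [Fintype ι] {T : ℝ} (F : Mod n m M Y W κ P ι T)

omit [CompactSpace M] [T2Space Y] [T2Space W] [Finite P] [Fintype ι] in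
theorem Mod.up_one (c : κ) {A : Set (Cn n)} (hA : IsCompact A) (hAt : A ⊆ (F.e c).target)
    (i : ι) : ∃ C : ℝ, 0 ≤ C ∧ ∀ B ⊆ cpd (k := n) 1,
      volume {z | z ∈ A ∧ ∃ x ∈ B, F.π ((F.a i).symm x) = (F.e c).symm z} ≤
        ENNReal.ofReal C * volume B := by
  have hO : IsOpen (opd (k := n) 10) := Gap.isOpen_opd 10
  have hsub : cpd (k := n) 1 ⊆ opd 10 := Gap.cpd_subset_opd (by norm_num) (by norm_num)
  -- the map to `M`
  have hmem : ∀ x ∈ opd (k := n) 10, F.π ((F.a i).symm x) ∈ (F.e (F.al i)).source := by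
    intro x hx
    refine F.model.mem i _ ((F.a i).map_target ?_)
    rw [F.model.target i]
    exact hx
  have hP : ContinuousOn (fun x => F.π ((F.a i).symm x)) (opd 10) := by
    have h1 : ContinuousOn (fun x => (F.e (F.al i)).symm (F.e (F.al i) (F.π ((F.a i).symm x))))
        (opd 10) := by
      refine (F.e (F.al i)).continuousOn_symm.comp (F.model.holo i).1.continuousOn ?_
      exact fun x hx => (F.e (F.al i)).map_source (hmem x hx)
    refine h1.congr fun x hx => ?_
    exact ((F.e (F.al i)).left_inv (hmem x hx)).symm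
  -- the compact set of the points over `A`
  have hAc : IsClosed ((F.e c).symm '' A) :=
    (hA.image_of_continuousOn ((F.e c).continuousOn_symm.mono hAt)).isClosed
  have hK : IsCompact (cpd (k := n) 1 ∩ (fun x => F.π ((F.a i).symm x)) ⁻¹' ((F.e c).symm '' A)) :=
    (Gap.isCompact_cpd 1).of_isClosed_subset
      ((hP.mono hsub).preimage_isClosed_of_isClosed (Gap.isClosed_cpd 1) hAc) inter_subset_left
  have hU : IsOpen (opd (k := n) 10 ∩ (fun x => F.π ((F.a i).symm x)) ⁻¹' (F.e c).source) :=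
    hP.isOpen_inter_preimage hO (F.e c).open_source
  have hh : ContDiffOn ℝ ∞ (fun x => F.e c (F.π ((F.a i).symm x)))
      (opd 10 ∩ (fun x => F.π ((F.a i).symm x)) ⁻¹' (F.e c).source) := by
    have h1 : ContDiffOn ℝ ∞ (fun x => tr F.e (F.al i) c (F.e (F.al i) (F.π ((F.a i).symm x))))
        (opd 10 ∩ (fun x => F.π ((F.a i).symm x)) ⁻¹' (F.e c).source) := by
      refine (F.atlas.holo (F.al i) c).1.comp ((F.model.holo i).1.mono inter_subset_left) ?_
      rintro x ⟨hx, hx'⟩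
      refine ⟨(F.e (F.al i)).map_source (hmem x hx), ?_⟩
      rw [(F.e (F.al i)).left_inv (hmem x hx)]
      exact hx'
    refine h1.congr fun x hx => ?_
    change _ = F.e c ((F.e (F.al i)).symm _)
    rw [(F.e (F.al i)).left_inv (hmem x hx.1)]
  have hKU : cpd (k := n) 1 ∩ (fun x => F.π ((F.a i).symm x)) ⁻¹' ((F.e c).symm '' A) ⊆
      opd 10 ∩ (fun x => F.π ((F.a i).symm x)) ⁻¹' (F.e c).source := by
    rintro x ⟨hx, z, hz, hxz⟩
    refine ⟨hsub hx, ?_⟩
    have h1 : F.π ((F.a i).symm x) = (F.e c).symm z := hxz.symm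
    change F.π ((F.a i).symm x) ∈ (F.e c).source
    rw [h1]
    exact (F.e c).map_target (hAt hz)
  obtain ⟨C, hC0, hC⟩ := Up.volume_image_le hU hh hK hKU
  refine ⟨C, hC0, fun B hB => ?_⟩
  calc volume {z | z ∈ A ∧ ∃ x ∈ B, F.π ((F.a i).symm x) = (F.e c).symm z}
      ≤ volume ((fun x => F.e c (F.π ((F.a i).symm x))) ''
          (B ∩ (fun x => F.π ((F.a i).symm x)) ⁻¹' ((F.e c).symm '' A))) := by
        gcongr
        rintro z ⟨hz, x, hx, hxz⟩
        refine ⟨x, ⟨hx, z, hz, hxz.symm⟩, ?_⟩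
        change F.e c (F.π ((F.a i).symm x)) = z
        rw [hxz]
        exact (F.e c).right_inv (hAt hz)
    _ ≤ ENNReal.ofReal C *
          volume (B ∩ (fun x => F.π ((F.a i).symm x)) ⁻¹' ((F.e c).symm '' A)) :=
        hC _ (inter_subset_inter_left _ hB)
    _ ≤ ENNReal.ofReal C * volume B := by
        gcongr
        exact inter_subset_left

omit [CompactSpace M] [T2Space Y] [T2Space W] [Finite P] in
/-- **volumes in `M` and in `W`** -/
theorem Mod.up (c : κ) {A : Set (Cn n)} (hA : IsCompact A) (hAt : A ⊆ (F.e c).target) :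
    ∃ C : ℝ, 0 ≤ C ∧ ∀ S ⊆ A, ∀ B : ι → Set (Cn n), (∀ i, B i ⊆ cpd 1) →
      (∀ z ∈ S, ∃ i, ∃ x ∈ B i, F.π ((F.a i).symm x) = (F.e c).symm z) →
      volume S ≤ ENNReal.ofReal C * ∑ i, volume (B i) := by
  choose C hC0 hC using F.up_one c hA hAt
  refine ⟨∑ i, C i, Finset.sum_nonneg fun i _ => hC0 i, fun S hS B hB hcov => ?_⟩
  calc volume S ≤ volume (⋃ i, {z | z ∈ A ∧ ∃ x ∈ B i, F.π ((F.a i).symm x) =
          (F.e c).symm z}) := by
        gcongr
        intro z hz
        obtain ⟨i, x, hx, hxz⟩ := hcov z hz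
        exact mem_iUnion.2 ⟨i, hS hz, x, hx, hxz⟩
    _ ≤ ∑ i, volume {z | z ∈ A ∧ ∃ x ∈ B i, F.π ((F.a i).symm x) = (F.e c).symm z} :=
        measure_iUnion_fintype_le _ _
    _ ≤ ∑ i, ENNReal.ofReal (∑ i, C i) * volume (B i) := by
        refine Finset.sum_le_sum fun i _ => (hC i (B i) (hB i)).trans ?_
        gcongr
        exact Finset.single_le_sum (fun j _ => hC0 j) (Finset.mem_univ i)
    _ = ENNReal.ofReal (∑ i, C i) * ∑ i, volume (B i) := (Finset.mul_sum _ _ _).symm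

end Mod

end Pool.Agent.KRFG

end

section

/-!
# The logarithmic pole with a cut-off: local calculus
-/

open scoped ContDiff Topology
open Set Filter Pool.Agent.ToricKRF Pool.Agent.ToricKRF.G Pool.Agent.KRFS

namespace Pool.Agent.KRFKo

open Pool.Agent.KRFS.ABP (ip ip_self)

/-- `log s` for `s ≤ a` and `0` for `b ≤ s` -/
noncomputable def cutlog (a b s : ℝ) : ℝ := Real.smoothTransition ((b - s) / (b - a)) * Real.log s

section cutlog

variable {a b : ℝ}

theorem cutlog_of_le (hab : a < b) {s : ℝ} (hs : s ≤ a) : cutlog a b s = Real.log s := by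
  have h1 : 1 ≤ (b - s) / (b - a) := by
    rw [le_div_iff₀ (sub_pos.2 hab)]
    linarith
  rw [cutlog, Real.smoothTransition.one_of_one_le h1, one_mul]

theorem cutlog_of_ge (hab : a < b) {s : ℝ} (hs : b ≤ s) : cutlog a b s = 0 := by
  have h1 : (b - s) / (b - a) ≤ 0 := div_nonpos_of_nonpos_of_nonneg (by linarith)
    (sub_pos.2 hab).le
  rw [cutlog, Real.smoothTransition.zero_of_nonpos h1, zero_mul]

theorem cutlog_nonpos (hab : a < b) (hb : b ≤ 1) {s : ℝ} (hs : 0 < s) : cutlog a b s ≤ 0 := by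
  rcases le_or_gt b s with h | h
  · exact (cutlog_of_ge hab h).le
  · exact mul_nonpos_of_nonneg_of_nonpos (Real.smoothTransition.nonneg _)
      (Real.log_nonpos hs.le (h.le.trans hb))

theorem log_le_cutlog {s : ℝ} (hs : 0 < s) (hs1 : s ≤ 1) :
    Real.log s ≤ cutlog a b s := by
  have h1 := Real.smoothTransition.le_one ((b - s) / (b - a))
  have h2 := Real.log_nonpos hs.le hs1
  have h3 := mul_nonneg_of_nonpos_of_nonpos h2 (sub_nonpos.2 h1)
  unfold cutlog
  nlinarith

theorem contDiffOn_cutlog (a b : ℝ) : ContDiffOn ℝ ∞ (cutlog a b) (Ioi 0) := by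
  intro s hs
  refine ContDiffAt.contDiffWithinAt ?_
  unfold cutlog
  refine ContDiffAt.mul ?_ ?_
  · exact Real.smoothTransition.contDiff.contDiffAt.comp s
      ((contDiffAt_const.sub contDiffAt_id).div_const _)
  · exact Real.contDiffAt_log.2 (ne_of_gt hs)

end cutlog

/-! ### The Levi form of a function of a function -/

section Comp

variable {n : ℕ}

theorem fderiv_fderiv_real {h : ℝ → ℝ} {y : ℝ} (hh : ContDiffAt ℝ 2 h y) (a b : ℝ) :
    fderiv ℝ (fderiv ℝ h) y a b = deriv (deriv h) y * a * b := by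
  have h2 : DifferentiableAt ℝ (fderiv ℝ h) y :=
    (hh.fderiv_right (m := 1) (by norm_num)).differentiableAt (by norm_num)
  have h3 : deriv h = fun s => fderiv ℝ h s 1 := rfl
  have h4 : deriv (deriv h) y = fderiv ℝ (fderiv ℝ h) y 1 1 := by
    rw [h3]
    change fderiv ℝ (fun s => fderiv ℝ h s 1) y 1 = _
    rw [fderiv_clm_apply h2 (differentiableAt_const (1 : ℝ))]
    simp
  have h5 : fderiv ℝ (fderiv ℝ h) y a b = a * (b * fderiv ℝ (fderiv ℝ h) y 1 1) := by
    have h6 : a = a • (1 : ℝ) := by simp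
    have h7 : b = b • (1 : ℝ) := by simp
    conv_lhs => rw [h6, h7]
    rw [map_smul, map_smul, smul_apply]
    simp only [smul_eq_mul]
    ring
  rw [h5, h4]
  ring

theorem D_D_real {f : Cn n → ℝ} {h : ℝ → ℝ} {z : Cn n} (hf : ContDiffAt ℝ 2 f z)
    (hh : ContDiffAt ℝ 2 h (f z)) (w : Cn n) :
    D w (D w fun x => h (f x)) z =
      deriv (deriv h) (f z) * (D w f z) ^ 2 + deriv h (f z) * D w (D w f) z := by
  rw [D_D_comp hh hf, fderiv_fderiv_real hh]
  have h1 : fderiv ℝ h (f z) (fderiv ℝ (fun q => fderiv ℝ f q w) z w) =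
      deriv h (f z) * fderiv ℝ (fun q => fderiv ℝ f q w) z w := by
    have h2 := fderiv_eq_smul_deriv (f := h) (x := f z)
      (fderiv ℝ (fun q => fderiv ℝ f q w) z w)
    rw [h2, smul_eq_mul]
    ring
  rw [h1]
  have h3 : D w f = fun q => fderiv ℝ f q w := rfl
  rw [h3]
  simp only [D]
  ring

theorem levz_real {f : Cn n → ℝ} {h : ℝ → ℝ} {z : Cn n} (hf : ContDiffAt ℝ 2 f z)
    (hh : ContDiffAt ℝ 2 h (f z)) (u : Cn n) :
    levz (fun x => h (f x)) u z = deriv h (f z) * levz f u z +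
      deriv (deriv h) (f z) * (((D u f z) ^ 2 + (D (J u) f z) ^ 2) / 4) := by
  unfold levz
  rw [D_D_real hf hh, D_D_real hf hh]
  ring

end Comp

/-! ### The Levi form of `cutlog (|z - a|^2 + ε^2)` -/

section Loc

variable {n : ℕ}

/-- the pole with a cut-off -/
noncomputable def poleL (a b : ℝ) (z₀ : Cn n) (ε : ℝ) (z : Cn n) : ℝ :=
  cutlog a b (nsq (z - z₀) + ε ^ 2)

theorem arg_pos (z₀ z : Cn n) {ε : ℝ} (hε : 0 < ε) : 0 < nsq (z - z₀) + ε ^ 2 := by
  have := Pool.Agent.KRFX.NC.nsq_nonneg (z - z₀)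
  positivity

theorem contDiff_arg (z₀ : Cn n) (ε : ℝ) : ContDiff ℝ ∞ fun z : Cn n => nsq (z - z₀) + ε ^ 2 :=
  (Pool.Agent.KRFX.NC.contDiff_nsq.comp (contDiff_id.sub contDiff_const)).add contDiff_const

theorem contDiff_poleL (a b : ℝ) (z₀ : Cn n) {ε : ℝ} (hε : 0 < ε) :
    ContDiff ℝ ∞ (poleL a b z₀ ε) := by
  rw [contDiff_iff_contDiffAt]
  intro z
  exact ((contDiffOn_cutlog a b).contDiffAt (isOpen_Ioi.mem_nhds (arg_pos z₀ z hε))).comp z
    (contDiff_arg z₀ ε).contDiffAt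

theorem D_arg (z₀ : Cn n) (ε : ℝ) (u z : Cn n) :
    D u (fun z : Cn n => nsq (z - z₀) + ε ^ 2) z = 2 * ip (z - z₀) u := by
  have h1 : HasFDerivAt (nsq : Cn n → ℝ) (fderiv ℝ nsq (z - z₀)) (z - z₀) :=
    (Pool.Agent.KRFX.NC.contDiff_nsq.differentiable (by simp) _).hasFDerivAt
  have h2 : HasFDerivAt (fun z : Cn n => z - z₀) (ContinuousLinearMap.id ℝ (Cn n)) z :=
    (hasFDerivAt_id z).sub_const z₀
  have h3 := ((h1.comp z h2).add_const (ε ^ 2)).fderiv
  have h4 := Pool.Agent.KRFX.NC.D_nsq (z - z₀) u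
  unfold D at h4 ⊢
  rw [← h4]
  have h5 : (fun z : Cn n => nsq (z - z₀) + ε ^ 2) =
      fun z => (nsq ∘ fun z : Cn n => z - z₀) z + ε ^ 2 := rfl
  rw [h5, h3]
  simp

/-- Cauchy-Schwarz -/
theorem ip_sq_le (z u : Cn n) : ip z u ^ 2 + ip z (J u) ^ 2 ≤ nsq u * nsq z := by
  have := Pool.Agent.KRFX.NC.fs_nonneg z u
  unfold Pool.Agent.KRFX.NC.fs at this
  linarith

theorem levz_arg (z₀ : Cn n) (ε : ℝ) (u z : Cn n) :
    levz (fun z : Cn n => nsq (z - z₀) + ε ^ 2) u z = nsq u := by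
  have hs : ContDiff ℝ ∞ fun z : Cn n => nsq (z - z₀) :=
    Pool.Agent.KRFX.NC.contDiff_nsq.comp (contDiff_id.sub contDiff_const)
  rw [Bd.levz_add (hs.contDiffAt.of_le two_le_infty) contDiffAt_const, Bd.levz_const, add_zero,
    Pool.Agent.KRFF.Gap.levz_nsq]

/-- **The lower bound of the Levi form of the pole.** -/
theorem exists_levz_poleL (n : ℕ) {a b : ℝ} (ha : 0 < a) (hab : a < b) : ∃ C : ℝ, 0 ≤ C ∧
    ∀ (z₀ : Cn n) (ε : ℝ), 0 < ε → ∀ u z, -(C * nsq u) ≤ levz (poleL a b z₀ ε) u z := by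
  have hK : Icc a b ⊆ Ioi (0 : ℝ) := fun s hs => lt_of_lt_of_le ha hs.1
  have hc0 := contDiffOn_cutlog a b
  have hc1 : ContDiffOn ℝ ∞ (deriv (cutlog a b)) (Ioi 0) :=
    ((contDiffOn_infty_iff_deriv_of_isOpen isOpen_Ioi).1 hc0).2
  have hc2 : ContDiffOn ℝ ∞ (deriv (deriv (cutlog a b))) (Ioi 0) :=
    ((contDiffOn_infty_iff_deriv_of_isOpen isOpen_Ioi).1 hc1).2
  obtain ⟨C₁, h₁⟩ := isCompact_Icc.exists_bound_of_continuousOn (hc1.continuousOn.mono hK)
  obtain ⟨C₂, h₂⟩ := isCompact_Icc.exists_bound_of_continuousOn (hc2.continuousOn.mono hK)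
  have hC₁ : 0 ≤ C₁ := (norm_nonneg _).trans (h₁ a ⟨le_rfl, hab.le⟩)
  have hC₂ : 0 ≤ C₂ := (norm_nonneg _).trans (h₂ a ⟨le_rfl, hab.le⟩)
  refine ⟨C₁ + C₂ * b, add_nonneg hC₁ (mul_nonneg hC₂ (ha.trans hab).le), ?_⟩
  intro z₀ ε hε u z
  have hu := Pool.Agent.KRFX.NC.nsq_nonneg u
  have hneg : -((C₁ + C₂ * b) * nsq u) ≤ 0 := by
    have : 0 ≤ (C₁ + C₂ * b) * nsq u :=
      mul_nonneg (add_nonneg hC₁ (mul_nonneg hC₂ (ha.trans hab).le)) hu
    linarith
  have hcont : Continuous fun z : Cn n => nsq (z - z₀) + ε ^ 2 := (contDiff_arg z₀ ε).continuous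
  rcases lt_or_ge (nsq (z - z₀) + ε ^ 2) a with hs | hs
  · have h1 : poleL a b z₀ ε =ᶠ[𝓝 z] Pool.Agent.KRFZ.Pole.W0 z₀ ε := by
      filter_upwards [(isOpen_lt hcont continuous_const).mem_nhds hs] with x hx
      exact cutlog_of_le hab (le_of_lt hx)
    rw [Bd.levz_congr h1]
    exact hneg.trans (Pool.Agent.KRFZ.Pole.W0_psh z₀ hε z u)
  rcases lt_or_ge b (nsq (z - z₀) + ε ^ 2) with hs' | hs'
  · have h1 : poleL a b z₀ ε =ᶠ[𝓝 z] fun _ => 0 := by
      filter_upwards [(isOpen_lt continuous_const hcont).mem_nhds hs'] with x hx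
      exact cutlog_of_ge hab (le_of_lt hx)
    rw [Bd.levz_congr h1, Bd.levz_const]
    exact hneg
  · have hmem : nsq (z - z₀) + ε ^ 2 ∈ Icc a b := ⟨hs, hs'⟩
    have h0 : poleL a b z₀ ε = fun x => cutlog a b (nsq (x - z₀) + ε ^ 2) := rfl
    rw [h0, levz_real ((contDiff_arg z₀ ε).contDiffAt.of_le two_le_infty)
      (((contDiffOn_cutlog a b).contDiffAt (isOpen_Ioi.mem_nhds (hK hmem))).of_le two_le_infty),
      levz_arg, D_arg, D_arg]
    have h3 := abs_le.1 (h₁ _ hmem)
    have h4 := abs_le.1 (h₂ _ hmem)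
    have h5 := ip_sq_le (z - z₀) u
    set p := deriv (cutlog a b) (nsq (z - z₀) + ε ^ 2)
    set q := deriv (deriv (cutlog a b)) (nsq (z - z₀) + ε ^ 2)
    have h6 : 0 ≤ ip (z - z₀) u ^ 2 + ip (z - z₀) (J u) ^ 2 := by positivity
    have h7 : ip (z - z₀) u ^ 2 + ip (z - z₀) (J u) ^ 2 ≤ nsq u * b := by
      refine h5.trans (mul_le_mul_of_nonneg_left ?_ hu)
      have := sq_nonneg ε
      linarith
    have h8 : -(C₁ * nsq u) ≤ p * nsq u := by nlinarith
    have h9 : -(C₂ * (ip (z - z₀) u ^ 2 + ip (z - z₀) (J u) ^ 2)) ≤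
        q * (ip (z - z₀) u ^ 2 + ip (z - z₀) (J u) ^ 2) := by nlinarith
    have h10 : C₂ * (ip (z - z₀) u ^ 2 + ip (z - z₀) (J u) ^ 2) ≤ C₂ * (nsq u * b) :=
      mul_le_mul_of_nonneg_left h7 hC₂
    have h11 : q * (((2 * ip (z - z₀) u) ^ 2 + (2 * ip (z - z₀) (J u)) ^ 2) / 4) =
        q * (ip (z - z₀) u ^ 2 + ip (z - z₀) (J u) ^ 2) := by ring
    rw [h11]
    nlinarith

end Loc

end Pool.Agent.KRFKo

end

section

/-!
# Semistable models over `Y` are semistable models over a modification of `Y`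
-/

open scoped ContDiff ENNReal ComplexOrder Topology
open Set Filter Pool.Agent.ToricKRF Pool.Agent.ToricKRF.G Pool.Agent.KRFS Pool.Agent.KRFF
  Pool.Agent.KRFG

namespace Pool.Agent.KRFX

namespace XS

variable {m : ℕ}

theorem nsq_le_norm (v : Cn m) : nsq v ≤ 2 * m * ‖v‖ ^ 2 := by
  have h1 : ∀ i, v.1 i ^ 2 ≤ ‖v‖ ^ 2 := fun i => by
    have h2 : |v.1 i| ≤ ‖v‖ := (norm_le_pi_norm v.1 i).trans (norm_fst_le v)
    rw [← sq_abs]
    exact pow_le_pow_left₀ (abs_nonneg _) h2 2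
  have h2 : ∀ i, v.2 i ^ 2 ≤ ‖v‖ ^ 2 := fun i => by
    have h2 : |v.2 i| ≤ ‖v‖ := (norm_le_pi_norm v.2 i).trans (norm_snd_le v)
    rw [← sq_abs]
    exact pow_le_pow_left₀ (abs_nonneg _) h2 2
  have h3 : nsq v = ∑ i, (v.1 i ^ 2 + v.2 i ^ 2) := by
    simp only [nsq, dotProduct, ← Finset.sum_add_distrib]
    exact Finset.sum_congr rfl fun i _ => by ring
  rw [h3]
  calc ∑ i, (v.1 i ^ 2 + v.2 i ^ 2) ≤ ∑ _i : Fin m, (2 * ‖v‖ ^ 2) :=
        Finset.sum_le_sum fun i _ => by linarith [h1 i, h2 i]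
    _ = 2 * m * ‖v‖ ^ 2 := by
        rw [Finset.sum_const, Finset.card_univ, Fintype.card_fin, nsmul_eq_mul]
        ring

/-- bounds for the derivative of a local isomorphism near a point -/
theorem local_bounds {T : Set (Cn m)} (hT : IsOpen T) (h0 : (0 : Cn m) ∈ T) {G : Cn m → Cn m}
    (hG : HolOn G T) (hinj : Function.Injective (fderiv ℝ G 0)) :
    ∃ T' ⊆ T, IsOpen T' ∧ (0 : Cn m) ∈ T' ∧ ∃ A c : ℝ, 0 ≤ A ∧ 0 < c ∧ c ≤ 1 ∧ ∀ x ∈ T',
      Function.Injective (fderiv ℝ G x) ∧ (∀ v, nsq v ≤ A * nsq (fderiv ℝ G x v)) ∧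
      c ≤ |(fderiv ℝ G x).det| := by
  have hc : ContinuousOn (fderiv ℝ G) T := hG.1.continuousOn_fderiv_of_isOpen hT (by simp)
  have hc0 : ContinuousAt (fderiv ℝ G) 0 := hc.continuousAt (hT.mem_nhds h0)
  have hker : LinearMap.ker (fderiv ℝ G 0 : Cn m →ₗ[ℝ] Cn m) = ⊥ :=
    LinearMap.ker_eq_bot.2 hinj
  obtain ⟨K, hK, hKa⟩ := LinearMap.exists_antilipschitzWith _ hker
  have hK' : (0 : ℝ) < K := hK
  have hKv : ∀ v, ‖v‖ ≤ K * ‖fderiv ℝ G 0 v‖ := fun v => by
    have h1 := hKa.le_mul_dist v 0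
    simpa using h1
  have hdet0 : (fderiv ℝ G 0).det ≠ 0 := by
    have h1 := LinearMap.isUnit_iff_ker_eq_bot (fderiv ℝ G 0 : Cn m →ₗ[ℝ] Cn m) |>.2 hker
    have h2 := LinearMap.isUnit_det _ h1
    exact h2.ne_zero
  have hcd : ContinuousAt (fun x => |(fderiv ℝ G x).det|) 0 :=
    (ContinuousLinearMap.continuous_det.continuousAt.comp hc0).abs
  set d : ℝ := |(fderiv ℝ G 0).det| with hd
  have hdpos : 0 < d := abs_pos.2 hdet0
  have ev1 : ∀ᶠ x in 𝓝 (0 : Cn m), ‖fderiv ℝ G x - fderiv ℝ G 0‖ < 1 / (2 * K) := by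
    have h1 := Metric.continuousAt_iff'.1 hc0 (1 / (2 * K)) (by positivity)
    simpa [dist_eq_norm] using h1
  have ev2 : ∀ᶠ x in 𝓝 (0 : Cn m), d / 2 < |(fderiv ℝ G x).det| :=
    hcd.eventually_const_lt (by show d / 2 < d; linarith)
  obtain ⟨T₁, hT₁, hT₁o, hT₁0⟩ := mem_nhds_iff.1
    ((ev1.and ev2).and (hT.mem_nhds h0 : ∀ᶠ x in 𝓝 (0 : Cn m), x ∈ T))
  refine ⟨T₁, fun x hx => (hT₁ hx).2, hT₁o, hT₁0, 2 * m * (2 * K) ^ 2, min (d / 2) 1, by positivity,
    lt_min (by positivity) one_pos, min_le_right _ _, fun x hx => ?_⟩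
  obtain ⟨⟨hx1, hx2⟩, hx3⟩ := hT₁ hx
  have key : ∀ v, ‖v‖ ≤ 2 * K * ‖fderiv ℝ G x v‖ := by
    intro v
    have h1 := hKv v
    have h2 : ‖fderiv ℝ G 0 v‖ ≤ ‖fderiv ℝ G x v‖ + 1 / (2 * K) * ‖v‖ := by
      have h3 : fderiv ℝ G 0 v = fderiv ℝ G x v - (fderiv ℝ G x - fderiv ℝ G 0) v := by
        simp
      rw [h3]
      refine (norm_sub_le _ _).trans (add_le_add le_rfl ?_)
      refine (ContinuousLinearMap.le_opNorm _ v).trans ?_
      exact mul_le_mul_of_nonneg_right hx1.le (norm_nonneg v)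
    have h4 : (K : ℝ) * ‖fderiv ℝ G 0 v‖ ≤ K * ‖fderiv ℝ G x v‖ + ‖v‖ / 2 := by
      calc (K : ℝ) * ‖fderiv ℝ G 0 v‖ ≤ K * (‖fderiv ℝ G x v‖ + 1 / (2 * K) * ‖v‖) :=
            mul_le_mul_of_nonneg_left h2 hK'.le
        _ = _ := by field_simp
    linarith
  refine ⟨?_, fun v => ?_, (min_le_left _ _).trans hx2.le⟩
  · intro v w hvw
    have h1 := key (v - w)
    rw [map_sub, hvw, sub_self, norm_zero, mul_zero] at h1
    exact sub_eq_zero.1 (norm_le_zero_iff.1 h1)
  · have h1 := key v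
    have h2 := nsq_le_norm v
    have h3 := Ex.norm_sq_le m (fderiv ℝ G x v)
    have h4 : ‖v‖ ^ 2 ≤ (2 * K) ^ 2 * nsq (fderiv ℝ G x v) := by
      calc ‖v‖ ^ 2 ≤ (2 * K * ‖fderiv ℝ G x v‖) ^ 2 := pow_le_pow_left₀ (norm_nonneg v) h1 2
        _ = (2 * K) ^ 2 * ‖fderiv ℝ G x v‖ ^ 2 := by ring
        _ ≤ _ := mul_le_mul_of_nonneg_left h3 (by positivity)
    calc nsq v ≤ 2 * m * ‖v‖ ^ 2 := h2
      _ ≤ 2 * m * ((2 * K) ^ 2 * nsq (fderiv ℝ G x v)) :=
          mul_le_mul_of_nonneg_left h4 (by positivity)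
      _ = _ := by ring

theorem tr_injective {Y P : Type} [TopologicalSpace Y] {b : P → OpenPartialHomeomorph Y (Cn m)}
    (hb : IsAtlas b) {j j' : P} {z : Cn m} (hz : z ∈ dom b j j') :
    Function.Injective (fderiv ℝ (tr b j j') z) := by
  have hz' : tr b j j' z ∈ dom b j' j := ⟨(b j').map_source hz.2, by
    rw [tr, (b j').left_inv hz.2]
    exact (b j).map_target hz.1⟩
  have d1 : DifferentiableAt ℝ (tr b j j') z := NF.diffAt (isOpen_dom j j') (hb.holo j j').1 hz
  have d2 : DifferentiableAt ℝ (tr b j' j) (tr b j j' z) :=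
    NF.diffAt (isOpen_dom j' j) (hb.holo j' j).1 hz'
  have h1 := d2.hasFDerivAt.comp z d1.hasFDerivAt
  have h2 : (tr b j' j ∘ tr b j j') =ᶠ[𝓝 z] id := by
    filter_upwards [(isOpen_dom j j').mem_nhds hz] with x hx
    rw [Function.comp_apply, tr, tr, (b j').left_inv hx.2, (b j).right_inv hx.1]
    rfl
  have h3 := h1.unique ((hasFDerivAt_id z).congr_of_eventuallyEq h2)
  intro v w hvw
  have h4 := congrArg (fderiv ℝ (tr b j' j) (tr b j j' z)) hvw
  have h5 : ∀ v, fderiv ℝ (tr b j' j) (tr b j j' z) (fderiv ℝ (tr b j j') z v) = v := fun v => by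
    have := congrFun (congrArg DFunLike.coe h3) v
    simpa using this
  rwa [h5, h5] at h4

/-- the map `t ↦ (t_i ^ N_i)` -/
noncomputable def pw (N : Fin m → ℕ) (t : Cn m) : Cn m :=
  (fun i => (cc t i ^ N i).re, fun i => (cc t i ^ N i).im)

theorem cc_pw (N : Fin m → ℕ) (t : Cn m) (i : Fin m) : cc (pw N t) i = cc t i ^ N i := by
  apply Complex.ext <;> simp [cc, pw]

theorem continuous_cc (i : Fin m) : Continuous fun t : Cn m => cc t i := by
  have h1 : (fun t : Cn m => cc t i) = fun t => NF.ccL i t := by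
    funext t
    rw [NF.ccL_apply]
  rw [h1]
  exact (NF.ccL i).continuous

theorem continuous_pw (N : Fin m → ℕ) : Continuous (pw N) := by
  refine Continuous.prodMk ?_ ?_
  · exact continuous_pi fun i => Complex.continuous_re.comp ((continuous_cc i).pow _)
  · exact continuous_pi fun i => Complex.continuous_im.comp ((continuous_cc i).pow _)

theorem pw_zero {N : Fin m → ℕ} (hN : ∀ i, 0 < N i) : pw N 0 = 0 := by
  refine NK.cc_ext fun i => ?_
  rw [cc_pw, NK.cc_zero, zero_pow (hN i).ne']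

end XS

open XS

theorem modifAt_of_semistable {M Y : Type} [TopologicalSpace M] [TopologicalSpace Y] [T2Space Y]
    {n m : ℕ} {κ P : Type} {e : κ → OpenPartialHomeomorph M (Cn n)}
    {b : P → OpenPartialHomeomorph Y (Cn m)} {f : M → Y} (hb : IsAtlas b)
    (hf : IsHolOnto e b f) (h : ∀ y, Nonempty (SemistableAt e b f y)) (y₀ : Y) :
    Nonempty (ModifAt e b f y₀) := by
  obtain ⟨j, hj⟩ := hb.cover y₀
  set z₀ := b j y₀ with hz₀
  obtain ⟨r, hr, hrt⟩ := NT.exists_opd (b j).open_target ((b j).map_source hj)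
  rw [← hz₀] at hrt
  have hVo : IsOpen {y : Cn m | y - z₀ ∈ opd r} := (NT.isOpen_opd r).preimage (by fun_prop)
  have hYo : IsOpen ((b j).source ∩ (b j) ⁻¹' {y : Cn m | y - z₀ ∈ opd r}) :=
    (b j).isOpen_inter_preimage hVo
  let Y' : TopologicalSpace.Opens Y :=
    ⟨(b j).source ∩ (b j) ⁻¹' {y : Cn m | y - z₀ ∈ opd r}, hYo⟩
  have hY' : ∀ p : Y', p.1 ∈ (b j).source ∧ b j p.1 - z₀ ∈ opd r := fun p => p.2
  set g : Cn m → Cn 1 := fun _ => (fun _ => 1, fun _ => 0) with hg
  have hg1 : ∀ y, nsq (g y) = 1 := fun y => by simp [hg, nsq, dotProduct]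
  have hgne : ∀ y, g y ≠ 0 := fun y h0 => by
    have h1 := hg1 y
    rw [h0] at h1
    simp [nsq] at h1
  refine ⟨{
    j := j
    mem := hj
    r := r
    r_pos := hr
    q := 1
    g := g
    holo := Ex.holOn_const _ _
    Y' := Y'
    top := inferInstance
    t2 := inferInstance
    σ := Subtype.val
    cont := continuous_subtype_val
    range := fun p => hY' p
    proper := fun s hs hsr => ?_
    inj := fun y₁ y₂ h _ => Subtype.ext h
    Γ := {q | q.1.1 = f q.2}
    comm := fun y' p h => h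
    full := fun y' p h _ => h
    onto_base := fun y' => ?_
    onto_top := fun p hp hp' => ⟨⟨f p, hp, hp'⟩, rfl⟩
    model := fun y' => ?_ }⟩
  · -- the map is proper
    have h1 : IsCompact {y : Cn m | y - z₀ ∈ cpd s} := by
      have h2 : {y : Cn m | y - z₀ ∈ cpd s} = (fun y => y + z₀) '' cpd s := by
        ext y
        constructor
        · intro hy
          exact ⟨y - z₀, hy, by simp⟩
        · rintro ⟨u, hu, rfl⟩
          simpa using hu
      rw [h2]
      exact (NSub.isCompact_cpd s).image (by fun_prop)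
    have h2 : IsCompact ((b j).symm '' {y : Cn m | y - z₀ ∈ cpd s}) :=
      h1.image_of_continuousOn ((b j).continuousOn_symm.mono fun y hy =>
        hrt y (NSub.cpd_subset_opd' hs hsr hy))
    have himg : Subtype.val '' {p : Y' | b j p.1 - z₀ ∈ cpd s} =
        (b j).symm '' {y : Cn m | y - z₀ ∈ cpd s} := by
      ext q
      constructor
      · rintro ⟨p, hp, rfl⟩
        exact ⟨b j p.1, hp, (b j).left_inv (hY' p).1⟩
      · rintro ⟨y, hy, rfl⟩
        have hyt : y ∈ (b j).target := hrt y (NSub.cpd_subset_opd' hs hsr hy)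
        have h3 : b j ((b j).symm y) = y := (b j).right_inv hyt
        refine ⟨⟨(b j).symm y, (b j).map_target hyt, ?_⟩, ?_, rfl⟩
        · change b j ((b j).symm y) - z₀ ∈ opd r
          rw [h3]
          exact NSub.cpd_subset_opd' hs hsr hy
        · change b j ((b j).symm y) - z₀ ∈ cpd s
          rw [h3]
          exact hy
    rw [Topology.IsEmbedding.subtypeVal.isCompact_iff, himg]
    exact h2
  · obtain ⟨p, hp⟩ := hf.surj y'.1
    exact ⟨p, hp.symm⟩
  · -- the local models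
    obtain ⟨S⟩ := h y'.1
    set u₁ := b S.j y'.1 with hu₁
    set T : Set (Cn m) := {x | (x + u₁ ∈ dom b S.j j) ∧ tr b S.j j (x + u₁) - z₀ ∈ opd r} with hT
    have hTo : IsOpen T := by
      have h1 : ContinuousOn (fun x : Cn m => tr b S.j j (x + u₁) - z₀)
          {x | x + u₁ ∈ dom b S.j j} :=
        (ContinuousOn.comp (g := tr b S.j j) (f := fun x : Cn m => x + u₁)
          (hb.holo S.j j).1.continuousOn (by fun_prop) fun x hx => hx).sub continuousOn_const
      exact h1.isOpen_inter_preimage ((isOpen_dom S.j j).preimage (by fun_prop))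
        (NT.isOpen_opd r)
    have hu₁s : (b S.j).symm u₁ = y'.1 := (b S.j).left_inv S.mem
    have hT0 : (0 : Cn m) ∈ T := by
      refine ⟨⟨?_, ?_⟩, ?_⟩
      · rw [zero_add]
        exact (b S.j).map_source S.mem
      · rw [zero_add, hu₁s]
        exact (hY' y').1
      · rw [zero_add, tr, hu₁s]
        exact (hY' y').2
    set G : Cn m → Cn m := fun x => tr b S.j j (x + u₁) with hG
    have hGT : HolOn G T := by
      have h1 : HolOn (fun x : Cn m => tr b S.j j (u₁ + (1 : ℝ) • x)) T :=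
        NT.hol_comp (G := tr b S.j j) (S' := dom b S.j j) hTo (isOpen_dom S.j j) (hb.holo S.j j)
          (NT.hol_scale 1 u₁ T) fun x hx => by
            rw [one_smul, add_comm]
            exact hx.1
      refine NT.hol_congr hTo h1 fun x hx => ?_
      rw [hG, one_smul, add_comm u₁ x]
    have hGinj : Function.Injective (fderiv ℝ G 0) := by
      rw [hG, fderiv_comp_add_right]
      exact tr_injective hb hT0.1
    obtain ⟨T', hT'T, hT'o, hT'0, A, c, hA, hc, hc1, hT'⟩ := local_bounds hTo hT0 hGT hGinj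
    -- the coordinates
    let E₁ : OpenPartialHomeomorph Y (Cn m) :=
      (b S.j).transHomeomorph (Homeomorph.subRight u₁)
    let E₂ : OpenPartialHomeomorph Y' (Cn m) := E₁.subtypeRestr ⟨y'⟩
    have hE₂s : ∀ p : Y', p ∈ E₂.source ↔ p.1 ∈ (b S.j).source := fun p => by
      change p ∈ (E₁.subtypeRestr ⟨y'⟩).source ↔ _
      rw [OpenPartialHomeomorph.subtypeRestr_source]
      rfl
    have hE₂a : ∀ p : Y', E₂ p = b S.j p.1 - u₁ := fun p => rfl
    let z : OpenPartialHomeomorph Y' (Cn m) := (E₂.symm.restr T').symm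
    have hzs : ∀ p : Y', p ∈ z.source ↔ p.1 ∈ (b S.j).source ∧ b S.j p.1 - u₁ ∈ T' := fun p => by
      change p ∈ (E₂.symm.restr T').target ↔ _
      rw [OpenPartialHomeomorph.restr_target, hT'o.interior_eq]
      constructor
      · rintro ⟨h1, h2⟩
        exact ⟨(hE₂s p).1 h1, h2⟩
      · rintro ⟨h1, h2⟩
        exact ⟨(hE₂s p).2 h1, h2⟩
    have hza : ∀ p : Y', z p = b S.j p.1 - u₁ := fun p => rfl
    have hzt : ∀ x ∈ z.target, x ∈ T' ∧ (z.symm x).1 = (b S.j).symm (x + u₁) := by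
      intro x hx
      have h1 := (hzs _).1 (z.map_target hx)
      have h2 : z (z.symm x) = x := z.right_inv hx
      rw [hza] at h2
      rw [h2] at h1
      refine ⟨h1.2, ?_⟩
      rw [← sub_eq_iff_eq_add.1 h2, (b S.j).left_inv h1.1]
    have hzG : ∀ x ∈ z.target, b j (z.symm x).1 = G x := by
      intro x hx
      rw [(hzt x hx).2]
      rfl
    have hzfd : ∀ x ∈ z.target, fderiv ℝ (fun x => b j (z.symm x).1) x = fderiv ℝ G x := by
      intro x hx
      refine Filter.EventuallyEq.fderiv_eq ?_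
      filter_upwards [z.open_target.mem_nhds hx] with x' hx' using hzG x' hx'
    have hy'z : y' ∈ z.source := (hzs y').2 ⟨S.mem, by rw [← hu₁, sub_self]; exact hT'0⟩
    have hzy' : z y' = 0 := by rw [hza, ← hu₁, sub_self]
    have hz0 : (0 : Cn m) ∈ z.target := by
      rw [← hzy']
      exact z.map_source hy'z
    -- the radius
    obtain ⟨r₁, hr₁, hr₁t⟩ := NT.exists_opd (z.open_target.preimage (continuous_pw S.N))
      (y := (0 : Cn m)) (by rw [mem_preimage, pw_zero S.N_pos]; exact hz0)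
    set r' := min r₁ S.r with hr'
    have hr'0 : 0 < r' := lt_min hr₁ S.r_pos
    have hr'S : r' ≤ S.r := min_le_right _ _
    have hpw : ∀ t ∈ (opd r' : Set (Cn m)), pw S.N t ∈ z.target := fun t ht =>
      hr₁t t (by rw [sub_zero]; exact NT.opd_mono hr'0.le (min_le_left _ _) ht)
    have hpwb : ∀ w, b S.j (f (S.π w)) = pw S.N (S.τ w) + u₁ := fun w => NK.cc_ext fun i => by
      have h1 := (S.base w).2 i
      rw [h1]
      have h2 : cc (pw S.N (S.τ w) + u₁) i = cc (pw S.N (S.τ w)) i + cc u₁ i := by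
        apply Complex.ext <;> simp [cc]
      rw [h2, cc_pw, hu₁]
      ring
    have hpwf : ∀ w, f (S.π w) = (b S.j).symm (pw S.N (S.τ w) + u₁) := fun w => by
      rw [← hpwb, (b S.j).left_inv (S.base w).1]
    let W : TopologicalSpace.Opens S.W := ⟨{w | S.τ w ∈ opd r'}, (NT.isOpen_opd r').preimage S.cont⟩
    have hWt : ∀ w : W, S.τ w.1 ∈ opd r' := fun w => w.2
    have hWY : ∀ w : W, f (S.π w.1) ∈ (b j).source ∧ b j (f (S.π w.1)) - z₀ ∈ opd r := by
      intro w
      have h1 := hT'T (hzt _ (hpw _ (hWt w))).1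
      rw [hpwf w.1]
      exact ⟨h1.1.2, h1.2⟩
    refine ⟨{
      z := z
      mem := hy'z
      center := hzy'
      holo := NT.hol_congr z.open_target (NT.hol_mono hGT fun x hx => hT'T (hzt x hx).1)
        fun x hx => hzG x hx
      inj := fun x hx _ => ?_
      A := A
      A_nonneg := hA
      pos := fun x hx _ v => ?_
      c := c
      c_pos := hc
      B := 0
      low := fun x hx => ?_
      r := r'
      r_pos := hr'0
      W := W
      top := inferInstance
      t2 := inferInstance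
      π := fun w => S.π w.1
      h := fun w => ⟨f (S.π w.1), hWY w⟩
      τ := fun w => S.τ w.1
      N := S.N
      N_pos := S.N_pos
      cont := S.cont.comp continuous_subtype_val
      range := hWt
      base := fun w => ⟨(hzs _).2 ⟨(S.base w.1).1, ?_⟩, fun i => ?_⟩
      main := fun w => rfl
      lift := fun y'' p hp hy'' t ht h => ?_
      proper := fun s hs hsr => ?_
      connected := fun t ht => ?_
      chart := fun w hw => ?_ }⟩
    · rw [hzfd x hx]
      exact (hT' x (hzt x hx).1).1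
    · have h1 := (hT' x (hzt x hx).1).2.1 v
      have h2 : levz (fun x => Real.log (nsq (g (b j (z.symm x).1)))) v x = 0 := by
        simp only [hg1]
        unfold levz D
        simp
      change nsq v ≤ A * (levz (fun x => Real.log (nsq (g (b j (z.symm x).1)))) v x +
        nsq (fderiv ℝ (fun x => b j (z.symm x).1) x v))
      rw [h2, hzfd x hx, zero_add]
      exact h1
    · refine ⟨?_, ?_⟩
      · rw [pow_zero, mul_one]
        exact hc1.trans_eq (hg1 (b j (z.symm x).1)).symm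
      · rw [pow_zero, mul_one, hzfd x hx]
        exact (hT' x (hzt x hx).1).2.2
    · rw [hpwb, add_sub_cancel_right]
      exact (hzt _ (hpw _ (hWt w))).1
    · rw [hza, hpwb, add_sub_cancel_right, cc_pw]
    · have h1 : y''.1 = f p := hp
      have h2 := (hzs y'').1 hy''
      rw [h1] at h2
      have h3 : ∀ i, cc (b S.j (f p)) i = cc (b S.j y'.1) i + cc t i ^ S.N i := fun i => by
        have h4 := h i
        rw [hza, h1, NK.cc_sub] at h4
        rw [← hu₁]
        linear_combination h4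
      obtain ⟨w, hw1, hw2⟩ := S.lift p h2.1 t (NT.opd_mono hr'0.le hr'S ht) h3
      exact ⟨⟨w, by change S.τ w ∈ opd r'; rw [hw1]; exact ht⟩, hw1, hw2⟩
    · have himg : Subtype.val '' {w : W | S.τ w.1 ∈ cpd s} = {w | S.τ w ∈ cpd s} := by
        ext w
        constructor
        · rintro ⟨w', hw', rfl⟩
          exact hw'
        · intro hw
          exact ⟨⟨w, NSub.cpd_subset_opd' hs hsr hw⟩, hw, rfl⟩
      rw [Topology.IsEmbedding.subtypeVal.isCompact_iff, himg]
      exact S.proper s hs (hsr.trans_le hr'S)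
    · by_cases htr : t ∈ opd r'
      · have himg : Subtype.val '' {w : W | S.τ w.1 = t} = {w | S.τ w = t} := by
          ext w
          constructor
          · rintro ⟨w', hw', rfl⟩
            exact hw'
          · intro hw
            exact ⟨⟨w, by change S.τ w ∈ opd r'; rw [show S.τ w = t from hw]; exact htr⟩, hw, rfl⟩
        have h1 := S.connected t ht
        rw [← himg] at h1
        exact Topology.IsInducing.subtypeVal.isPreconnected_image.1 h1
      · have h1 : {w : W | S.τ w.1 = t} = ∅ := by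
          ext w
          simp only [mem_ofPred_eq, mem_empty_iff_false, iff_false]
          rintro rfl
          exact htr (hWt w)
        change IsPreconnected {w : W | S.τ w.1 = t}
        rw [h1]
        exact isPreconnected_empty
    · obtain ⟨a, c', row, ha, ha0, hrow, hmem, hholo, hmono⟩ := S.chart w.1 hw
      let a' : OpenPartialHomeomorph W (Cn n) := a.subtypeRestr ⟨w⟩
      have has : ∀ w' : W, w' ∈ a'.source ↔ w'.1 ∈ a.source := fun w' => by
        change w' ∈ (a.subtypeRestr ⟨w⟩).source ↔ _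
        rw [OpenPartialHomeomorph.subtypeRestr_source]
        rfl
      have haa : ∀ w' : W, a' w' = a w'.1 := fun w' => rfl
      have hat : ∀ x ∈ a'.target, (a'.symm x).1 = a.symm x := by
        intro x hx
        have h1 := (OpenPartialHomeomorph.subtypeRestr_symm_eqOn a ⟨w⟩) hx
        exact h1.symm
      have hat' : a'.target ⊆ a.target := by
        intro x hx
        have h1 := a'.map_target hx
        have h2 : a' (a'.symm x) = x := a'.right_inv hx
        rw [haa] at h2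
        rw [← h2]
        exact a.map_source ((has _).1 h1)
      refine ⟨a', c', row, (has w).2 ha, ha0, hrow, fun w' h => hmem _ ((has w').1 h), ?_,
        fun w' h i => hmono _ ((has w').1 h) i⟩
      refine NT.hol_congr a'.open_target (NT.hol_mono hholo hat') fun x hx => ?_
      change e c' (S.π (a'.symm x).1) = _
      rw [hat x hx]

end Pool.Agent.KRFX

end

section

/-!
# Bounds of the potentials of the base, Lipschitz constants of the changes of charts and of `f`
-/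

open scoped ContDiff ENNReal ComplexOrder Topology
open Set MeasureTheory Filter Pool.Agent.ToricKRF Pool.Agent.ToricKRF.G Pool.Agent.KRFS
  Pool.Agent.KRFF Pool.Agent.KRFG

namespace Pool.Agent.KRFX

set_option linter.unusedSectionVars false

namespace GA

theorem nsq_eq' {n : ℕ} (z : Cn n) : nsq z = ∑ i, (z.1 i ^ 2 + z.2 i ^ 2) := by
  simp only [nsq, dotProduct, ← Finset.sum_add_distrib]
  exact Finset.sum_congr rfl fun i _ => by ring

theorem nsq_nn {n : ℕ} (z : Cn n) : 0 ≤ nsq z := by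
  rw [nsq_eq']
  exact Finset.sum_nonneg fun i _ => by positivity

theorem nsq_add_five {n : ℕ} (x y : Cn n) : nsq (x + y) ≤ 5 / 4 * nsq x + 5 * nsq y := by
  rw [nsq_eq', nsq_eq', nsq_eq', Finset.mul_sum, Finset.mul_sum, ← Finset.sum_add_distrib]
  refine Finset.sum_le_sum fun i _ => ?_
  simp only [Prod.fst_add, Prod.snd_add, Pi.add_apply]
  nlinarith [sq_nonneg (x.1 i / 2 - 2 * y.1 i), sq_nonneg (x.2 i / 2 - 2 * y.2 i)]

theorem nsq_le_25 {n : ℕ} {x y : Cn n} (h : nsq x ≤ 16) (h1 : nsq (y - x) ≤ 1) : nsq y ≤ 25 := by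
  have h2 := nsq_add_five x (y - x)
  rw [add_sub_cancel] at h2
  linarith

theorem convex_nsq {n : ℕ} (r : ℝ) : Convex ℝ {x : Cn n | nsq x ≤ r} := by
  intro x hx y hy s t hs ht hst
  have hx' : nsq x ≤ r := hx
  have hy' : nsq y ≤ r := hy
  show nsq (s • x + t • y) ≤ r
  have h1 : nsq (s • x + t • y) ≤ s * nsq x + t * nsq y := by
    rw [nsq_eq', nsq_eq', nsq_eq', Finset.mul_sum, Finset.mul_sum, ← Finset.sum_add_distrib]
    refine Finset.sum_le_sum fun i _ => ?_
    simp only [Prod.fst_add, Prod.snd_add, Pi.add_apply, Prod.smul_fst, Prod.smul_snd,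
      Pi.smul_apply, smul_eq_mul]
    have key : ∀ a b : ℝ, (s * a + t * b) ^ 2 ≤ s * a ^ 2 + t * b ^ 2 := by
      intro a b
      have h3 : s * a ^ 2 + t * b ^ 2 - (s * a + t * b) ^ 2 = s * t * (a - b) ^ 2 := by
        have : t = 1 - s := by linarith
        rw [this]
        ring
      have := mul_nonneg (mul_nonneg hs ht) (sq_nonneg (a - b))
      linarith
    have h4 := key (x.1 i) (y.1 i)
    have h5 := key (x.2 i) (y.2 i)
    linarith
  calc nsq (s • x + t • y) ≤ s * nsq x + t * nsq y := h1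
    _ ≤ s * r + t * r := by gcongr
    _ = r := by rw [← add_mul, hst, one_mul]

theorem norm_sq_le {n : ℕ} (v : Cn n) : ‖v‖ ^ 2 ≤ nsq v := by
  have h1 := norm_le_sqrt_nsq v
  calc ‖v‖ ^ 2 ≤ √(nsq v) ^ 2 := pow_le_pow_left₀ (norm_nonneg _) h1 2
    _ = nsq v := Real.sq_sqrt (nsq_nn v)

/-- a smooth map is Lipschitz near a compact set -/
theorem lip_near {n m : ℕ} {h : Cn n → Cn m} {U K : Set (Cn n)} (hU : IsOpen U)
    (hh : ContDiffOn ℝ ∞ h U) (hK : IsCompact K) (hKU : K ⊆ U) :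
    ∃ L r : ℝ, 1 ≤ L ∧ 0 < r ∧ ∀ x ∈ K, ∀ v, nsq (v - x) ≤ r ^ 2 → v ∈ U ∧
      nsq (h v - h x) ≤ L ^ 2 * nsq (v - x) := by
  obtain ⟨δ, hδ, hδU⟩ := hK.exists_cthickening_subset_open hU hKU
  have hKc : IsCompact (Metric.cthickening δ K) := hK.cthickening
  have hfd : ContinuousOn (fun x => ‖fderiv ℝ h x‖) (Metric.cthickening δ K) :=
    (((contDiffOn_infty_iff_fderiv_of_isOpen hU).1 hh).2.continuousOn.mono hδU).norm
  obtain ⟨C, hC⟩ := hKc.bddAbove_image hfd
  set A : ℝ := max C 0 with hA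
  have hA0 : 0 ≤ A := le_max_right _ _
  have hmA : (0 : ℝ) ≤ (2 * m) * A := by positivity
  refine ⟨1 + (2 * m) * A, δ, by linarith, hδ, ?_⟩
  intro x hx v hv
  have hball : Metric.closedBall x δ ⊆ Metric.cthickening δ K :=
    Metric.closedBall_subset_cthickening hx δ
  have hvb : v ∈ Metric.closedBall x δ := by
    rw [mem_closedBall_iff_norm]
    exact norm_le_of_nsq_le hδ.le hv
  refine ⟨hδU (hball hvb), ?_⟩
  have h1 : ‖h v - h x‖ ≤ A * ‖v - x‖ := by
    refine (convex_closedBall x δ).norm_image_sub_le_of_norm_fderiv_le (𝕜 := ℝ) (f := h)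
      (fun z hz => ?_) (fun z hz => ?_) (Metric.mem_closedBall_self hδ.le) hvb
    · exact (hh.differentiableOn (by simp)).differentiableAt (hU.mem_nhds (hδU (hball hz)))
    · exact (hC (mem_image_of_mem _ (hball hz))).trans (le_max_left _ _)
  have h2 := XS.nsq_le_norm (h v - h x)
  have h3 := norm_sq_le (v - x)
  have h4 : ‖h v - h x‖ ^ 2 ≤ A ^ 2 * nsq (v - x) := by
    calc ‖h v - h x‖ ^ 2 ≤ (A * ‖v - x‖) ^ 2 := pow_le_pow_left₀ (norm_nonneg _) h1 2
      _ = A ^ 2 * ‖v - x‖ ^ 2 := by ring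
      _ ≤ A ^ 2 * nsq (v - x) := mul_le_mul_of_nonneg_left h3 (by positivity)
  have hm : (2 * m : ℝ) ≤ (1 + 2 * m) ^ 2 := by
    have := Nat.cast_nonneg (α := ℝ) m
    nlinarith
  rcases Nat.eq_zero_or_pos m with h0 | h0
  · subst h0
    calc nsq (h v - h x) ≤ 0 := by simpa using h2
      _ ≤ _ := mul_nonneg (sq_nonneg _) (nsq_nn _)
  · have hm1 : (1 : ℝ) ≤ m := by exact_mod_cast h0
    calc nsq (h v - h x) ≤ 2 * m * (A ^ 2 * nsq (v - x)) :=
          h2.trans (mul_le_mul_of_nonneg_left h4 (by positivity))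
      _ = (2 * m * A ^ 2) * nsq (v - x) := by ring
      _ ≤ (1 + 2 * m * A) ^ 2 * nsq (v - x) := by
          refine mul_le_mul_of_nonneg_right ?_ (nsq_nn _)
          have h5 : 2 * m * A ^ 2 ≤ (2 * m * A) ^ 2 := by
            have : (2 * m * A) ^ 2 = (2 * m) * (2 * m * A ^ 2) := by ring
            rw [this]
            have h6 : (0 : ℝ) ≤ 2 * m * A ^ 2 := by positivity
            nlinarith
          nlinarith

theorem isCompact_nsq_le {n : ℕ} {r : ℝ} (hr : 0 < r) : IsCompact {z : Cn n | nsq z ≤ r} := by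
  have h := isCompact_nsq_sub (n := n) 0 (Real.sqrt_pos.2 hr)
  simp only [sub_zero, Real.sq_sqrt hr.le] at h
  exact h

/-- finitely many positive numbers -/
theorem exists_pos_le' {ι : Type*} [Finite ι] {f : ι → ℝ} (hf : ∀ i, 0 < f i) :
    ∃ c > 0, ∀ i, c ≤ f i := by
  have := Fintype.ofFinite ι
  have h0 : 0 ≤ ∑ i, (f i)⁻¹ := Finset.sum_nonneg fun i _ => (inv_pos.2 (hf i)).le
  refine ⟨(∑ i, (f i)⁻¹ + 1)⁻¹, by positivity, fun i => ?_⟩
  rw [inv_le_comm₀ (by positivity) (hf i)]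
  have := Finset.single_le_sum (f := fun i => (f i)⁻¹) (fun i _ => (inv_pos.2 (hf i)).le)
    (Finset.mem_univ i)
  linarith

/-- uniform Lipschitz constants -/
theorem lip_near_fin {ι : Type*} [Finite ι] {n m : ℕ} {h : ι → Cn n → Cn m} {U K : ι → Set (Cn n)}
    (hU : ∀ i, IsOpen (U i)) (hh : ∀ i, ContDiffOn ℝ ∞ (h i) (U i)) (hK : ∀ i, IsCompact (K i))
    (hKU : ∀ i, K i ⊆ U i) :
    ∃ L : ℝ, 1 ≤ L ∧ ∀ r₀ > 0, ∃ r : ℝ, 0 < r ∧ r ≤ r₀ ∧ L * r ≤ 1 ∧ r ≤ 1 ∧
      ∀ i, ∀ x ∈ K i, ∀ v, nsq (v - x) ≤ r ^ 2 → v ∈ U i ∧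
      nsq (h i v - h i x) ≤ L ^ 2 * nsq (v - x) := by
  choose L r hL hr hlip using fun i => lip_near (hU i) (hh i) (hK i) (hKU i)
  obtain ⟨L', hL'⟩ := Finite.exists_le L
  obtain ⟨r', hr', hr''⟩ := exists_pos_le' hr
  set L₀ := max L' 1 with hL₀
  have hL₀1 : 1 ≤ L₀ := le_max_right _ _
  refine ⟨L₀, hL₀1, fun r₀ hr₀ => ?_⟩
  refine ⟨min (min r' r₀) L₀⁻¹, lt_min (lt_min hr' hr₀) (by positivity),
    (min_le_left _ _).trans (min_le_right _ _), ?_, ?_, ?_⟩
  · calc L₀ * min (min r' r₀) L₀⁻¹ ≤ L₀ * L₀⁻¹ :=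
          mul_le_mul_of_nonneg_left (min_le_right _ _) (by linarith)
      _ = 1 := mul_inv_cancel₀ (by linarith)
  · exact (min_le_right _ _).trans (inv_le_one_of_one_le₀ hL₀1)
  · intro i x hx v hv
    have h1 : nsq (v - x) ≤ r i ^ 2 := by
      refine hv.trans (pow_le_pow_left₀ (le_min (le_min hr'.le hr₀.le) (by positivity)) ?_ 2)
      exact ((min_le_left _ _).trans (min_le_left _ _)).trans (hr'' i)
    obtain ⟨h2, h3⟩ := hlip i x hx v h1
    refine ⟨h2, h3.trans (mul_le_mul_of_nonneg_right ?_ (nsq_nn _))⟩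
    exact pow_le_pow_left₀ (by linarith [hL i]) ((hL' i).trans (le_max_left _ _)) 2

end GA

section Mod

variable {n m l : ℕ} {M Y Y' W : Type} [TopologicalSpace M] [CompactSpace M] [T2Space M]
  [TopologicalSpace Y] [T2Space Y] [TopologicalSpace Y'] [T2Space Y'] [TopologicalSpace W]
  [T2Space W] {κ P P' ι : Type} [Finite P] [Finite P'] [Fintype ι] {T : ℝ}
  (F : Mod n m l M Y Y' W κ P P' ι T)

/-- bounds of the potentials of the base -/
theorem Mod.K_bound : ∃ C : ℝ, 1 ≤ C ∧ (∀ j, ∀ y : Cn m, nsq y ≤ 49 →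
    |F.K j y| ≤ C ∧ nsq (F.g j y) ≤ C ∧ ∀ v, nsq v ≤ C * levz (F.K j) v y) ∧
    ∀ j, ∀ y y' : Cn m, nsq y ≤ 36 → nsq y' ≤ 36 →
      |F.K j y - F.K j y'| ≤ C * √(nsq (y - y')) := by
  have hK49 : IsCompact {y : Cn m | nsq y ≤ 49} := GA.isCompact_nsq_le (by norm_num)
  have hsub : ∀ j, {y : Cn m | nsq y ≤ 49} ⊆ (F.b j).target := fun j y hy =>
    F.hol.target j (show nsq y < 100 from lt_of_le_of_lt hy (by norm_num))
  have hKc : ∀ j, ContinuousOn (fun y => |F.K j y|) {y : Cn m | nsq y ≤ 49} := fun j =>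
    ((F.lim.smooth j).continuousOn.mono (hsub j)).abs
  have hgc : ∀ j, ContinuousOn (fun y => nsq (F.g j y)) {y : Cn m | nsq y ≤ 49} := fun j =>
    nsq_continuous.comp_continuousOn ((F.modif.g_holo j).1.continuousOn.mono fun y hy =>
      show nsq y < 100 from lt_of_le_of_lt hy (by norm_num))
  choose C₁ hC₁ using fun j => hK49.bddAbove_image (hKc j)
  choose C₂ hC₂ using fun j => hK49.bddAbove_image (hgc j)
  have hq : ∀ j, ∃ C : ℝ, 0 ≤ C ∧ ∀ y ∈ {y : Cn m | nsq y ≤ 49}, ∀ v,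
      nsq v ≤ C * levz (F.K j) v y := by
    intro j
    refine quad_le hK49 (fun _ v => nsq v) (fun y v => levz (F.K j) v y) ?_ ?_ ?_ ?_ ?_
    · exact (nsq_continuous.comp continuous_snd).continuousOn
    · exact (levz_continuousOn (F.b j).open_target (F.lim.smooth j)).mono
        (prod_mono (hsub j) le_rfl)
    · exact fun y _ r v => nsq_smul' r v
    · exact fun y hy r v => Bd.levz_smul (F.b j).open_target (F.lim.smooth j) (hsub j hy) r v
    · exact fun y hy v hv => F.lim.psh j y (hsub j hy) v hv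
  choose C₃ hC₃0 hC₃ using hq
  have hfd : ∀ j, ContinuousOn (fun y => ‖fderiv ℝ (F.K j) y‖) {y : Cn m | nsq y ≤ 49} :=
    fun j => (((contDiffOn_infty_iff_fderiv_of_isOpen (F.b j).open_target).1
      (F.lim.smooth j)).2.continuousOn.mono (hsub j)).norm
  choose C₄ hC₄ using fun j => hK49.bddAbove_image (hfd j)
  obtain ⟨C, hC⟩ := Finite.exists_le fun j => max (max (C₁ j) (C₂ j)) (max (C₃ j) (C₄ j))
  have h1 : ∀ j, C₁ j ≤ max C 1 := fun j =>
    (((le_max_left _ _).trans (le_max_left _ _)).trans (hC j)).trans (le_max_left _ _)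
  have h2 : ∀ j, C₂ j ≤ max C 1 := fun j =>
    (((le_max_right _ _).trans (le_max_left _ _)).trans (hC j)).trans (le_max_left _ _)
  have h3 : ∀ j, C₃ j ≤ max C 1 := fun j =>
    (((le_max_left _ _).trans (le_max_right _ _)).trans (hC j)).trans (le_max_left _ _)
  have h4 : ∀ j, C₄ j ≤ max C 1 := fun j =>
    (((le_max_right _ _).trans (le_max_right _ _)).trans (hC j)).trans (le_max_left _ _)
  refine ⟨max C 1, le_max_right _ _, fun j y hy => ⟨?_, ?_, fun v => ?_⟩, ?_⟩
  · exact (hC₁ j (mem_image_of_mem _ hy)).trans (h1 j)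
  · exact (hC₂ j (mem_image_of_mem _ hy)).trans (h2 j)
  · refine (hC₃ j y hy v).trans (mul_le_mul_of_nonneg_right (h3 j) ?_)
    by_cases hv : v = 0
    · rw [hv, Gap.levz_zero_dir]
    · exact (F.lim.psh j y (hsub j hy) v hv).le
  · intro j y y' hy hy'
    have h5 : ‖F.K j y - F.K j y'‖ ≤ max C 1 * ‖y - y'‖ := by
      refine (GA.convex_nsq (n := m) 36).norm_image_sub_le_of_norm_fderiv_le (𝕜 := ℝ)
        (f := F.K j) (fun z hz => ?_) (fun z hz => ?_) hy' hy
      · have hz' : nsq z ≤ 36 := hz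
        exact ((F.lim.smooth j).differentiableOn (by simp)).differentiableAt
          ((F.b j).open_target.mem_nhds (hsub j (show nsq z ≤ 49 by linarith)))
      · have hz' : nsq z ≤ 36 := hz
        exact (hC₄ j (mem_image_of_mem _ (show nsq z ≤ 49 by linarith))).trans (h4 j)
    rw [← Real.norm_eq_abs]
    exact h5.trans (mul_le_mul_of_nonneg_left (norm_le_sqrt_nsq _)
      (le_trans zero_le_one (le_max_right _ _)))

/-- the compact balls of `Y` -/
theorem Mod.isCompact_ballY (j : P) {r : ℝ} (hr : 0 < r) (hr' : r < 100) :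
    IsCompact ((F.b j).symm '' {y : Cn m | nsq y ≤ r}) :=
  (GA.isCompact_nsq_le hr).image_of_continuousOn ((F.b j).continuousOn_symm.mono fun y hy =>
    F.hol.target j (show nsq y < 100 from lt_of_le_of_lt hy hr'))

theorem Mod.mem_ballY (j : P) {r : ℝ} (hr' : r < 100) {y : Y} :
    y ∈ (F.b j).symm '' {y : Cn m | nsq y ≤ r} ↔ y ∈ (F.b j).source ∧ nsq (F.b j y) ≤ r := by
  constructor
  · rintro ⟨z, hz, rfl⟩
    have hzt : z ∈ (F.b j).target := F.hol.target j (show nsq z < 100 from lt_of_le_of_lt hz hr')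
    refine ⟨(F.b j).map_target hzt, ?_⟩
    rw [(F.b j).right_inv hzt]
    exact hz
  · rintro ⟨hy, h⟩
    exact ⟨F.b j y, h, (F.b j).left_inv hy⟩

/-- the compact domain of the change of charts -/
theorem Mod.isCompact_dom (i j : P) {r : ℝ} (hr : 0 < r) (hr' : r < 100) :
    IsCompact {v : Cn m | nsq v ≤ r ∧ (F.b i).symm v ∈ (F.b j).source ∧
      nsq (F.b j ((F.b i).symm v)) ≤ r} := by
  have h1 : {v : Cn m | nsq v ≤ r ∧ (F.b i).symm v ∈ (F.b j).source ∧
      nsq (F.b j ((F.b i).symm v)) ≤ r} = F.b i '' ((F.b i).symm '' {y : Cn m | nsq y ≤ r} ∩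
        (F.b j).symm '' {y : Cn m | nsq y ≤ r}) := by
    ext v
    constructor
    · rintro ⟨h1, h2, h3⟩
      have hvt : v ∈ (F.b i).target := F.hol.target i (show nsq v < 100 from lt_of_le_of_lt h1 hr')
      refine ⟨(F.b i).symm v, ⟨⟨v, h1, rfl⟩, (F.mem_ballY j hr').2 ⟨h2, h3⟩⟩, ?_⟩
      exact (F.b i).right_inv hvt
    · rintro ⟨y, ⟨hy, hy'⟩, rfl⟩
      obtain ⟨h1, h2⟩ := (F.mem_ballY i hr').1 hy
      obtain ⟨h3, h4⟩ := (F.mem_ballY j hr').1 hy'
      refine ⟨h2, ?_, ?_⟩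
      · rw [(F.b i).left_inv h1]
        exact h3
      · rw [(F.b i).left_inv h1]
        exact h4
  rw [h1]
  refine ((F.isCompact_ballY i hr hr').inter (F.isCompact_ballY j hr hr')).image_of_continuousOn ?_
  exact (F.b i).continuousOn.mono fun y hy => ((F.mem_ballY i hr').1 hy.1).1

theorem Mod.isOpen_domY (i j : P) : IsOpen (dom F.b i j) :=
  (F.b i).isOpen_inter_preimage_symm (F.b j).open_source

/-- the transition maps are Lipschitz -/
theorem Mod.trans_lip : ∃ L r : ℝ, 1 ≤ L ∧ 0 < r ∧ ∀ i j, ∀ y ∈ (F.b i).source,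
    y ∈ (F.b j).source → nsq (F.b i y) ≤ 16 → nsq (F.b j y) ≤ 16 →
    ∀ v, nsq (v - F.b i y) ≤ r ^ 2 → nsq v ≤ 25 ∧ (F.b i).symm v ∈ (F.b j).source ∧
      nsq (F.b j ((F.b i).symm v)) ≤ 25 ∧
      nsq (F.b j ((F.b i).symm v) - F.b j y) ≤ L ^ 2 * nsq (v - F.b i y) := by
  obtain ⟨L, hL, h⟩ := GA.lip_near_fin (ι := P × P) (h := fun q => tr F.b q.1 q.2)
    (U := fun q => dom F.b q.1 q.2) (K := fun q => {v : Cn m | nsq v ≤ 16 ∧
      (F.b q.1).symm v ∈ (F.b q.2).source ∧ nsq (F.b q.2 ((F.b q.1).symm v)) ≤ 16})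
    (fun q => F.isOpen_domY q.1 q.2) (fun q => (F.atlasY.holo q.1 q.2).1)
    (fun q => F.isCompact_dom q.1 q.2 (by norm_num) (by norm_num))
    (fun q v hv => ⟨F.hol.target q.1 (show nsq v < 100 from lt_of_le_of_lt hv.1 (by norm_num)),
      hv.2.1⟩)
  obtain ⟨r, hr, -, hLr, hr1, h⟩ := h 1 one_pos
  refine ⟨L, r, hL, hr, fun i j y hi hj h16i h16j v hv => ?_⟩
  obtain ⟨h1, h2⟩ := h (i, j) (F.b i y) ⟨h16i, by rw [(F.b i).left_inv hi]; exact hj, by
    rw [(F.b i).left_inv hi]; exact h16j⟩ v hv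
  have h3 : tr F.b i j (F.b i y) = F.b j y := by
    unfold tr
    rw [(F.b i).left_inv hi]
  simp only at h2
  rw [h3] at h2
  have h4 : nsq (v - F.b i y) ≤ 1 := hv.trans (pow_le_one₀ hr.le hr1)
  have h5 : L ^ 2 * nsq (v - F.b i y) ≤ 1 := by
    calc L ^ 2 * nsq (v - F.b i y) ≤ L ^ 2 * r ^ 2 := mul_le_mul_of_nonneg_left hv (by positivity)
      _ = (L * r) ^ 2 := by ring
      _ ≤ 1 := pow_le_one₀ (by positivity) hLr
  exact ⟨GA.nsq_le_25 h16i h4, h1.2, GA.nsq_le_25 h16j (h2.trans h5), h2⟩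

/-- volumes and the transition maps -/
theorem Mod.trans_vol : ∃ C : ℝ, 0 ≤ C ∧ ∀ i j (A : Set (Cn m)),
    volume {v : Cn m | nsq v ≤ 25 ∧ (F.b i).symm v ∈ (F.b j).source ∧
      nsq (F.b j ((F.b i).symm v)) ≤ 25 ∧ F.b j ((F.b i).symm v) ∈ A} ≤
      ENNReal.ofReal C * volume A := by
  choose C hC0 hC using fun q : P × P => Pool.Agent.KRFG.Up.volume_image_le
    (F.isOpen_domY q.2 q.1) (F.atlasY.holo q.2 q.1).1
    (F.isCompact_dom q.2 q.1 (r := 25) (by norm_num) (by norm_num))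
    (fun v hv => ⟨F.hol.target q.2 (show nsq v < 100 from lt_of_le_of_lt hv.1 (by norm_num)),
      hv.2.1⟩)
  obtain ⟨C', hC'⟩ := Finite.exists_le C
  refine ⟨max C' 0, le_max_right _ _, fun i j A => ?_⟩
  have h1 : {v : Cn m | nsq v ≤ 25 ∧ (F.b i).symm v ∈ (F.b j).source ∧
      nsq (F.b j ((F.b i).symm v)) ≤ 25 ∧ F.b j ((F.b i).symm v) ∈ A} ⊆
      tr F.b j i '' (A ∩ {v : Cn m | nsq v ≤ 25 ∧ (F.b j).symm v ∈ (F.b i).source ∧
        nsq (F.b i ((F.b j).symm v)) ≤ 25}) := by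
    rintro v ⟨h1, h2, h3, h4⟩
    have hvt : v ∈ (F.b i).target :=
      F.hol.target i (show nsq v < 100 from lt_of_le_of_lt h1 (by norm_num))
    have h5 : (F.b j).symm (F.b j ((F.b i).symm v)) = (F.b i).symm v := (F.b j).left_inv h2
    refine ⟨F.b j ((F.b i).symm v), ⟨h4, h3, ?_, ?_⟩, ?_⟩
    · rw [h5]
      exact (F.b i).map_target hvt
    · rw [h5, (F.b i).right_inv hvt]
      exact h1
    · unfold tr
      rw [h5]
      exact (F.b i).right_inv hvt
  calc volume _ ≤ volume (tr F.b j i '' (A ∩ {v : Cn m | nsq v ≤ 25 ∧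
          (F.b j).symm v ∈ (F.b i).source ∧ nsq (F.b i ((F.b j).symm v)) ≤ 25})) :=
        measure_mono h1
    _ ≤ ENNReal.ofReal (C (i, j)) * volume (A ∩ {v : Cn m | nsq v ≤ 25 ∧
          (F.b j).symm v ∈ (F.b i).source ∧ nsq (F.b i ((F.b j).symm v)) ≤ 25}) :=
        hC (i, j) _ inter_subset_right
    _ ≤ ENNReal.ofReal (max C' 0) * volume A := by
        gcongr
        · exact (hC' (i, j)).trans (le_max_left _ _)
        · exact inter_subset_left

/-- `f` is Lipschitz in the charts -/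
theorem Mod.f_lip {c : κ} {z₀ : Cn n} (hz₀ : z₀ ∈ (F.e c).target) : ∃ L r : ℝ, 1 ≤ L ∧
    0 < r ∧ {z | nsq (z - z₀) ≤ (2 * r) ^ 2} ⊆ (F.e c).target ∧ ∀ j z, nsq (z - z₀) ≤ r ^ 2 →
      F.f ((F.e c).symm z) ∈ (F.b j).source → nsq (F.b j (F.f ((F.e c).symm z))) ≤ 16 →
      ∀ w, nsq (w - z) ≤ r ^ 2 → F.f ((F.e c).symm w) ∈ (F.b j).source ∧
        nsq (F.b j (F.f ((F.e c).symm w))) ≤ 25 ∧
        nsq (F.b j (F.f ((F.e c).symm w)) - F.b j (F.f ((F.e c).symm z))) ≤
          L ^ 2 * nsq (w - z) := by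
  obtain ⟨r₁, hr₁, hcomp, hsub⟩ := exists_ball ((F.e c).open_target.mem_nhds hz₀)
  have hfc : ContinuousOn (fun z => F.f ((F.e c).symm z)) (F.e c).target :=
    F.hol.cont.comp_continuousOn (F.e c).continuousOn_symm
  obtain ⟨L, hL, h⟩ := GA.lip_near_fin (ι := P) (h := fun j z => F.b j (F.f ((F.e c).symm z)))
    (U := fun j => {z | z ∈ (F.e c).target ∧ F.f ((F.e c).symm z) ∈ (F.b j).source})
    (K := fun j => {z : Cn n | nsq (z - z₀) ≤ r₁ ^ 2} ∩
      (fun z => F.f ((F.e c).symm z)) ⁻¹' ((F.b j).symm '' {y : Cn m | nsq y ≤ 16}))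
    (fun j => hfc.isOpen_inter_preimage (F.e c).open_target (F.b j).open_source)
    (fun j => (F.hol.holo c j).1)
    (fun j => hcomp.of_isClosed_subset ((hfc.mono hsub).preimage_isClosed_of_isClosed
      hcomp.isClosed (F.isCompact_ballY j (by norm_num) (by norm_num)).isClosed)
      inter_subset_left)
    (fun j z hz => ⟨hsub hz.1, ((F.mem_ballY j (by norm_num)).1 hz.2).1⟩)
  obtain ⟨r, hr, hrr, hLr, hr1, h⟩ := h (r₁ / 2) (by positivity)
  refine ⟨L, r, hL, hr, ?_, fun j z hz hz1 hz2 w hw => ?_⟩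
  · intro z hz
    refine hsub (le_trans (show nsq (z - z₀) ≤ (2 * r) ^ 2 from hz) ?_)
    exact pow_le_pow_left₀ (by positivity) (by linarith) 2
  · have hzK : nsq (z - z₀) ≤ r₁ ^ 2 :=
      hz.trans (pow_le_pow_left₀ hr.le (by linarith) 2)
    obtain ⟨h1, h2⟩ := h j z ⟨hzK, (F.mem_ballY j (by norm_num)).2 ⟨hz1, hz2⟩⟩ w hw
    have h5 : L ^ 2 * nsq (w - z) ≤ 1 := by
      calc L ^ 2 * nsq (w - z) ≤ L ^ 2 * r ^ 2 := mul_le_mul_of_nonneg_left hw (by positivity)
        _ = (L * r) ^ 2 := by ring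
        _ ≤ 1 := pow_le_one₀ (by positivity) hLr
    exact ⟨h1.2, GA.nsq_le_25 hz2 (h2.trans h5), h2⟩

end Mod

end Pool.Agent.KRFX

end

section

/-!
# The logarithmic pole with a cut-off as a function on the manifold
-/

open scoped ContDiff Topology
open Set Filter Pool.Agent.ToricKRF Pool.Agent.ToricKRF.G Pool.Agent.KRFS Pool.Agent.KRFQ

namespace Pool.Agent.KRFKo

section

variable {M : Type} [TopologicalSpace M] {n : ℕ} {κ : Type}
  {e : κ → OpenPartialHomeomorph M (Cn n)} {V : Set M} {w g : κ → Cn n → ℝ}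

/-- The chart `c` contains the ball of radius `√b` around `p`, on which the metric is at least
`1 / C` times the Euclidean metric. -/
def GoodChart (e : κ → OpenPartialHomeomorph M (Cn n)) (g : κ → Cn n → ℝ) (b C : ℝ) (p : M)
    (c : κ) : Prop :=
  p ∈ (e c).source ∧ ∀ z, nsq (z - e c p) ≤ b → z ∈ (e c).target ∧
    ∀ u, nsq u ≤ C * levz (g c) u z

theorem nsq_sub_le {x y z : Cn n} {R : ℝ} (hxy : nsq (x - y) ≤ R) (hyz : nsq (y - z) ≤ R) :
    nsq (x - z) ≤ 4 * R := by
  have h1 : x - z = (x - y) + (y - z) := by abel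
  have h2 : nsq (x - z) + nsq ((x - y) - (y - z)) = 2 * nsq (x - y) + 2 * nsq (y - z) := by
    rw [h1]
    simp only [nsq, Prod.fst_add, Prod.snd_add, Prod.fst_sub, Prod.snd_sub, add_dotProduct,
      dotProduct_add, sub_dotProduct, dotProduct_sub]
    ring
  have h3 := Pool.Agent.KRFX.NC.nsq_nonneg ((x - y) - (y - z))
  linarith

theorem L2D.goodChart_local (h : L2D e V w g) {p₀ : M} (hp₀ : p₀ ∈ V) :
    ∃ b C : ℝ, 0 < b ∧ b ≤ 1 ∧ 0 ≤ C ∧ ∀ᶠ p in 𝓝 p₀, ∃ c, GoodChart e g b C p c := by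
  obtain ⟨c, hc⟩ := h.cover p₀ hp₀
  have hz₀ : e c p₀ ∈ (e c).target := (e c).map_source hc
  have hsm : ContDiffOn ℝ ∞ (fun x : Cn n => nsq x) (e c).target :=
    Pool.Agent.KRFX.NC.contDiff_nsq.contDiffOn
  obtain ⟨C, hC, hev⟩ := Bd.levz_le_local (e c).open_target hsm (h.g_smooth c) hz₀
    (fun x hx u hu => h.g_pos c x hx u hu)
  have hev2 : ∀ᶠ x in 𝓝 (e c p₀), x ∈ (e c).target ∧ ∀ u, nsq u ≤ C * levz (g c) u x := by
    filter_upwards [hev, (e c).open_target.mem_nhds hz₀] with x hx hx'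
    refine ⟨hx', fun u => ?_⟩
    have := hx u
    rwa [show (fun x : Cn n => nsq x) = nsq from rfl, Pool.Agent.KRFF.Gap.levz_nsq'] at this
  obtain ⟨ρ, hρ, hball⟩ := Metric.eventually_nhds_iff.1 hev2
  -- radius
  set R : ℝ := min (ρ / 4) (1 / 2) with hR
  have hR0 : 0 < R := lt_min (by positivity) (by norm_num)
  have hR1 : R ≤ ρ / 4 := min_le_left _ _
  have hR2 : R ≤ 1 / 2 := min_le_right _ _
  refine ⟨R ^ 2, C, by positivity, by nlinarith, hC, ?_⟩
  have hcont : ContinuousAt (fun p => nsq (e c p - e c p₀)) p₀ :=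
    Pool.Agent.KRFX.NC.contDiff_nsq.continuous.continuousAt.comp
      (((e c).continuousAt hc).sub continuousAt_const)
  have h0 : nsq (e c p₀ - e c p₀) < R ^ 2 := by
    rw [sub_self, Pool.Agent.KRFX.NC.nsq_eq_zero.2 rfl]
    positivity
  filter_upwards [hcont.eventually (isOpen_Iio.mem_nhds h0), (e c).open_source.mem_nhds hc] with
    p hp hps
  refine ⟨c, hps, fun z hz => ?_⟩
  have hp' : nsq (e c p - e c p₀) ≤ R ^ 2 := le_of_lt hp
  have h1 := nsq_sub_le hz hp'
  have h2 := (Pool.Agent.KRFX.GA.norm_sq_le (z - e c p₀)).trans h1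
  have h3 : ‖z - e c p₀‖ ≤ 2 * R := by
    refine le_of_sq_le_sq ?_ (by positivity)
    nlinarith
  refine hball ?_
  rw [dist_eq_norm]
  linarith

theorem GoodChart.mono {b b' C C' : ℝ} {p : M} {c : κ} (h : GoodChart e g b C p c) (hb : b' ≤ b)
    (hC : C ≤ C') (hC0 : 0 < C ∨ 0 ≤ C) : GoodChart e g b' C' p c := by
  refine ⟨h.1, fun z hz => ⟨(h.2 z (hz.trans hb)).1, fun u => ?_⟩⟩
  have h1 := (h.2 z (hz.trans hb)).2 u
  have h2 := Pool.Agent.KRFX.NC.nsq_nonneg u
  have hC' : 0 ≤ C := by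
    rcases hC0 with h | h
    · exact h.le
    · exact h
  by_cases hl : 0 ≤ levz (g c) u z
  · exact h1.trans (mul_le_mul_of_nonneg_right hC hl)
  · push Not at hl
    have h3 : C * levz (g c) u z ≤ 0 := mul_nonpos_of_nonneg_of_nonpos hC' hl.le
    have h4 : nsq u = 0 := le_antisymm (h1.trans h3) h2
    have h5 : u = 0 := Pool.Agent.KRFX.NC.nsq_eq_zero.1 h4
    rw [h5, levz_zero_vec] at hl
    exact absurd hl (lt_irrefl _)

theorem L2D.goodChart (h : L2D e V w g) {K : Set M} (hK : IsCompact K) (hKV : K ⊆ V) :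
    ∃ b C : ℝ, 0 < b ∧ b ≤ 1 ∧ 0 ≤ C ∧ ∀ p ∈ K, ∃ c, GoodChart e g b C p c := by
  refine hK.induction_on (p := fun S => ∃ b C : ℝ, 0 < b ∧ b ≤ 1 ∧ 0 ≤ C ∧
    ∀ p ∈ S, ∃ c, GoodChart e g b C p c) ?_ ?_ ?_ ?_
  · exact ⟨1, 0, by norm_num, le_rfl, le_rfl, fun p hp => hp.elim⟩
  · rintro S S' hS ⟨b, C, h1, h2, h3, h4⟩
    exact ⟨b, C, h1, h2, h3, fun p hp => h4 p (hS hp)⟩
  · rintro S S' ⟨b, C, h1, h2, h3, h4⟩ ⟨b', C', h1', h2', h3', h4'⟩
    refine ⟨min b b', max C C', lt_min h1 h1', (min_le_left _ _).trans h2,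
      h3.trans (le_max_left _ _), ?_⟩
    rintro p (hp | hp)
    · obtain ⟨c, hc⟩ := h4 p hp
      exact ⟨c, hc.mono (min_le_left _ _) (le_max_left _ _) (Or.inr h3)⟩
    · obtain ⟨c, hc⟩ := h4' p hp
      exact ⟨c, hc.mono (min_le_right _ _) (le_max_right _ _) (Or.inr h3')⟩
  · intro p hp
    obtain ⟨b, C, h1, h2, h3, h4⟩ := L2D.goodChart_local h (hKV hp)
    exact ⟨_, mem_nhdsWithin_of_mem_nhds h4, b, C, h1, h2, h3, fun q hq => hq⟩

/-- the pole at `p` -/
noncomputable def poleM (e : κ → OpenPartialHomeomorph M (Cn n)) (b : ℝ) (c : κ) (p : M) (ε : ℝ)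
    (q : M) : ℝ := by
  classical
  exact if q ∈ (e c).source then poleL (b / 2) b (e c p) ε (e c q) else 0

theorem poleM_of_mem {b : ℝ} {c : κ} {p : M} {ε : ℝ} {q : M} (hq : q ∈ (e c).source) :
    poleM e b c p ε q = poleL (b / 2) b (e c p) ε (e c q) := by
  simp only [poleM, hq, if_true]

theorem poleM_of_notMem {b : ℝ} {c : κ} {p : M} {ε : ℝ} {q : M} (hq : q ∉ (e c).source) :
    poleM e b c p ε q = 0 := by
  simp only [poleM, hq, if_false]

theorem poleM_symm {b : ℝ} {c : κ} {p : M} {ε : ℝ} {z : Cn n} (hz : z ∈ (e c).target) :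
    poleM e b c p ε ((e c).symm z) = poleL (b / 2) b (e c p) ε z := by
  rw [poleM_of_mem ((e c).map_target hz), (e c).right_inv hz]

theorem poleM_nonpos {b : ℝ} (hb : 0 < b) (hb1 : b ≤ 1) (c : κ) (p : M) {ε : ℝ} (hε : 0 < ε)
    (q : M) : poleM e b c p ε q ≤ 0 := by
  by_cases hq : q ∈ (e c).source
  · rw [poleM_of_mem hq]
    exact cutlog_nonpos (by linarith) hb1 (arg_pos _ _ hε)
  · rw [poleM_of_notMem hq]

/-- the compact set which carries the pole -/
theorem isCompact_ballK {b C : ℝ} {p : M} {c : κ} (h : GoodChart e g b C p c) :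
    IsCompact ((e c).symm '' {z | nsq (z - e c p) ≤ b}) := by
  refine IsCompact.image_of_continuousOn ?_ ((e c).symm.continuousOn.mono fun z hz =>
    (h.2 z hz).1)
  refine Metric.isCompact_of_isClosed_isBounded ?_ ?_
  · exact isClosed_le (Pool.Agent.KRFX.NC.contDiff_nsq.continuous.comp
      (continuous_id.sub continuous_const)) continuous_const
  · refine Metric.isBounded_closedBall (x := e c p) (r := √b) |>.subset fun z hz => ?_
    rw [Metric.mem_closedBall, dist_eq_norm]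
    refine Real.le_sqrt_of_sq_le ?_
    exact (Pool.Agent.KRFX.GA.norm_sq_le (z - e c p)).trans hz

theorem ballK_sub {b C : ℝ} {p : M} {c : κ} (h : GoodChart e g b C p c) :
    (e c).symm '' {z | nsq (z - e c p) ≤ b} ⊆ (e c).source := by
  rintro q ⟨z, hz, rfl⟩
  exact (e c).map_target (h.2 z hz).1

theorem poleM_eq_zero {b : ℝ} (hb : 0 < b) {c : κ} {p : M} (ε : ℝ) {q : M}
    (hq : q ∉ (e c).symm '' {z | nsq (z - e c p) ≤ b}) : poleM e b c p ε q = 0 := by
  by_cases hs : q ∈ (e c).source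
  · rw [poleM_of_mem hs]
    refine cutlog_of_ge (by linarith) ?_
    by_contra hlt
    push Not at hlt
    refine hq ⟨e c q, ?_, (e c).left_inv hs⟩
    have := sq_nonneg ε
    change nsq (e c q - e c p) ≤ b
    linarith
  · exact poleM_of_notMem hs

theorem pb_poleM {b : ℝ} {c : κ} {p : M} {ε : ℝ} {z : Cn n} (hz : z ∈ (e c).target) :
    pb e c (poleM e b c p ε) z = poleL (b / 2) b (e c p) ε z := poleM_symm hz

theorem poleM_smooth [T2Space M] (h : L2D e V w g) {b C : ℝ} (hb : 0 < b) {p : M} {c : κ}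
    (hc : GoodChart e g b C p c) {ε : ℝ} (hε : 0 < ε) (c' : κ) :
    ContDiffOn ℝ ∞ (pb e c' (poleM e b c p ε)) (e c').target := by
  refine smooth_of_chart h.holo (isCompact_ballK hc) (ballK_sub hc) ?_
    (fun q hq => poleM_eq_zero hb ε hq) c'
  exact (contDiff_poleL (b / 2) b (e c p) hε).contDiffOn.congr fun z hz => pb_poleM hz

theorem levz_poleM [T2Space M] (h : L2D e V w g) {b C : ℝ} (hb : 0 < b) (hC : 0 ≤ C) {C₁ : ℝ}
    (hC₁ : 0 ≤ C₁)
    (hl : ∀ (z₀ : Cn n) (ε : ℝ), 0 < ε → ∀ u z, -(C₁ * nsq u) ≤ levz (poleL (b / 2) b z₀ ε) u z)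
    {p : M} {c : κ} (hc : GoodChart e g b C p c) {ε : ℝ} (hε : 0 < ε) (c' : κ) {z : Cn n}
    (hz : z ∈ (e c').target) (u : Cn n) :
    -(C₁ * C * levz (g c') u z) ≤ levz (pb e c' (poleM e b c p ε)) u z := by
  by_cases hq : (e c').symm z ∈ (e c).symm '' {z | nsq (z - e c p) ≤ b}
  · have hd : z ∈ dom e c' c := ⟨hz, ballK_sub hc hq⟩
    have hz' := tr_mem_target hd
    rw [levz_pb h.holo (fun c' => poleM_smooth h hb hc hε c') c' c hd u, h.g_compat c' c z hd u]
    have h1 : pb e c (poleM e b c p ε) =ᶠ[𝓝 (tr e c' c z)] poleL (b / 2) b (e c p) ε := by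
      filter_upwards [(e c).open_target.mem_nhds hz'] with x hx
      exact pb_poleM hx
    rw [Bd.levz_congr h1]
    refine le_trans ?_ (hl (e c p) ε hε _ _)
    have h2 : nsq (tr e c' c z - e c p) ≤ b := by
      obtain ⟨x, hx, hxz⟩ := hq
      have h3 : tr e c' c z = x := by
        change e c ((e c').symm z) = x
        rw [← hxz, (e c).right_inv (hc.2 x hx).1]
      rw [h3]
      exact hx
    have h4 := (hc.2 _ h2).2 (fderiv ℝ (tr e c' c) z u)
    have h5 := mul_le_mul_of_nonneg_left h4 hC₁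
    rw [← mul_assoc] at h5
    linarith
  · have h1 : ∀ᶠ x in 𝓝 z, (e c').symm x ∈ ((e c).symm '' {z | nsq (z - e c p) ≤ b})ᶜ :=
      ((e c').symm.continuousAt hz).eventually
        ((isCompact_ballK hc).isClosed.isOpen_compl.mem_nhds hq)
    have h2 : pb e c' (poleM e b c p ε) =ᶠ[𝓝 z] fun _ => 0 := by
      filter_upwards [h1] with x hx
      exact poleM_eq_zero hb ε hx
    rw [Bd.levz_congr h2, Bd.levz_const]
    have h3 : 0 ≤ levz (g c') u z := by
      by_cases hu : u = 0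
      · rw [hu, levz_zero_vec]
      · exact (h.g_pos c' z hz u hu).le
    have := mul_nonneg (mul_nonneg hC₁ hC) h3
    linarith

end

end Pool.Agent.KRFKo

end
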