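import Mathlib
import Pool.Agent.Work.MP_a2bf38_gt.Fu.K.Setup
import Pool.Agent.Work.MP_a2bf38_gt.Fu.I.Coord
import Pool.Agent.Work.MP_a2bf38_gt.Fu.H.BoundLin

section

/-!
# Levels propagate over a finite closed cover of a connected set
-/

open Set

namespace Pool.Agent.KRFF

theorem level_of_cover {M ι : Type} [TopologicalSpace M] [Finite ι] {S : Set M}
    (hS : IsPreconnected S) (U : ι → Set M) (hU : ∀ c, IsClosed (U c)) (hcov : S ⊆ ⋃ c, U c)
    (G : ℕ → ι → Prop) (c₀ : ι) (h0 : (S ∩ U c₀).Nonempty) (hG0 : G 0 c₀)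
    (hmono : ∀ i c, G i c → G (i + 1) c)
    (hstep : ∀ i c c', G i c → (S ∩ (U c ∩ U c')).Nonempty → G (i + 1) c') :
    ∀ c, (S ∩ U c).Nonempty → G (Nat.card ι) c := by
  have hc0 : ∀ i, G i c₀ := by
    intro i
    induction i with
    | zero => exact hG0
    | succ i ih => exact hmono i c₀ ih
  have key : ∀ i, (∀ c, (S ∩ U c).Nonempty → G i c) ∨ i + 1 ≤ {c | G i c}.ncard := by
    intro i
    induction i with
    | zero =>
      right
      have h1 : {c | G 0 c}.Nonempty := ⟨c₀, hG0⟩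
      have h2 := (ncard_pos (toFinite {c | G 0 c})).2 h1
      omega
    | succ i ih =>
      rcases ih with h | h
      · left
        intro c hc
        exact hmono i c (h c hc)
      · by_contra hcon
        rw [not_or] at hcon
        obtain ⟨hl, hr⟩ := hcon
        push Not at hl
        obtain ⟨c₁, hc₁, hc₁n⟩ := hl
        have hsub : {c | G i c} ⊆ {c | G (i + 1) c} := fun c hc => hmono i c hc
        have heq : {c | G i c} = {c | G (i + 1) c} := by
          refine eq_of_subset_of_ncard_le hsub ?_ (toFinite _)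
          omega
        have hZ1 : IsClosed (⋃ c ∈ {c | G i c}, U c) :=
          (toFinite {c | G i c}).isClosed_biUnion fun c _ => hU c
        have hZ2 : IsClosed (⋃ c ∈ {c | ¬ G i c}, U c) :=
          (toFinite {c | ¬ G i c}).isClosed_biUnion fun c _ => hU c
        have hcov2 : S ⊆ (⋃ c ∈ {c | G i c}, U c) ∪ ⋃ c ∈ {c | ¬ G i c}, U c := by
          intro x hx
          obtain ⟨c, hc⟩ := mem_iUnion.1 (hcov hx)
          by_cases hg : G i c
          · exact Or.inl (mem_biUnion (x := c) hg hc)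
          · exact Or.inr (mem_biUnion (x := c) hg hc)
        have hn1 : (S ∩ ⋃ c ∈ {c | G i c}, U c).Nonempty := by
          obtain ⟨x, hx, hxU⟩ := h0
          exact ⟨x, hx, mem_biUnion (x := c₀) (hc0 i) hxU⟩
        have hn2 : (S ∩ ⋃ c ∈ {c | ¬ G i c}, U c).Nonempty := by
          obtain ⟨x, hx, hxU⟩ := hc₁
          exact ⟨x, hx, mem_biUnion (x := c₁) (fun hg => hc₁n (hmono i c₁ hg)) hxU⟩
        obtain ⟨x, hx, hx1, hx2⟩ := (isPreconnected_closed_iff.1 hS) _ _ hZ1 hZ2 hcov2 hn1 hn2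
        rw [mem_iUnion₂] at hx1 hx2
        obtain ⟨c, hc, hxc⟩ := hx1
        obtain ⟨c', hc', hxc'⟩ := hx2
        have h3 : c' ∈ {c | G (i + 1) c} := hstep i c c' hc ⟨x, hx, hxc, hxc'⟩
        rw [← heq] at h3
        exact hc' h3
  rcases key (Nat.card ι) with h | h
  · exact h
  · have h1 : {c | G (Nat.card ι) c}.ncard ≤ Nat.card ι := by
      rw [← ncard_univ]
      exact ncard_le_ncard (subset_univ _) (toFinite _)
    omega

end Pool.Agent.KRFF

end

section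

/-!
# A chain of charts along a fibre (helper20)
-/

open scoped ContDiff ENNReal ComplexOrder Topology
open Set MeasureTheory Filter Pool.Agent.ToricKRF Pool.Agent.ToricKRF.G Pool.Agent.KRFS
  Pool.Agent.KRFF

namespace Pool.Agent.KRFG

namespace Chn

section Basic

variable {n m : ℕ}

theorem cpd_mono {a b : ℝ} (h0 : 0 ≤ a) (h : a ≤ b) : cpd (k := n) a ⊆ cpd b := fun x hx i =>
  (hx i).trans (by nlinarith)

theorem nsq_le {r : ℝ} {x : Cn n} (hx : x ∈ opd r) : nsq x ≤ r ^ 2 * n := by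
  unfold nsq dotProduct
  rw [← Finset.sum_add_distrib]
  calc ∑ i, (x.1 i * x.1 i + x.2 i * x.2 i) ≤ ∑ _i : Fin n, r ^ 2 :=
        Finset.sum_le_sum fun i _ => by nlinarith [hx i]
    _ = r ^ 2 * n := by simp [mul_comm]

theorem nsq_nonneg (x : Cn n) : 0 ≤ nsq x := by
  unfold nsq dotProduct
  exact add_nonneg (Finset.sum_nonneg fun i _ => mul_self_nonneg _)
    (Finset.sum_nonneg fun i _ => mul_self_nonneg _)

theorem contDiff_nsq : ContDiff ℝ ∞ (nsq (n := n)) := by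
  unfold nsq dotProduct
  fun_prop

theorem cc_ext {z z' : Cn n} (h : ∀ i, cc z i = cc z' i) : z = z' :=
  Prod.ext (funext fun i => congrArg Complex.re (h i)) (funext fun i => congrArg Complex.im (h i))

theorem exists_lb {α : Type*} [Finite α] (f : α → ℝ) (hf : ∀ a, 0 < f a) :
    ∃ r, 0 < r ∧ r ≤ 1 ∧ ∀ a, r ≤ f a := by
  cases isEmpty_or_nonempty α
  · exact ⟨1, one_pos, le_rfl, fun a => isEmptyElim a⟩
  · obtain ⟨a, ha⟩ := Finite.exists_min f
    exact ⟨min 1 (f a), lt_min one_pos (hf a), min_le_left _ _,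
      fun b => (min_le_right _ _).trans (ha b)⟩

theorem exists_ub {α : Type*} [Finite α] (f : α → ℝ) : ∃ C, 1 ≤ C ∧ ∀ a, f a ≤ C := by
  obtain ⟨C, hC⟩ := (Set.finite_range f).bddAbove
  exact ⟨max 1 C, le_max_left _ _, fun a => (hC (mem_range_self a)).trans (le_max_right _ _)⟩

/-- the conclusion of `propagate`, with the constants `C`, `r` -/
def PropOK (row : Fin n → Option (Fin m)) (piv : Fin m → Fin n) (C r : ℝ) : Prop :=
  (∀ q ∈ cpd (k := n) 2, ∀ w ∈ cpd (k := n) r, Em row piv q w ∈ opd 9) ∧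
  ∀ (g : Cn n → ℝ) (p q : Cn n) (L : ℝ), ContDiffOn ℝ ∞ g (opd 9) →
    p ∈ cpd 2 → q ∈ cpd 2 → (∀ i, prow row i q ≠ 0) → (∀ i, prow row i p = prow row i q) →
    (∀ x ∈ opd (k := n) 9, (∀ i, prow row i x = prow row i q) → g x ≤ 0) →
    (∀ w, Em row piv q w ∈ opd 9 → ∀ u, 0 ≤ levz (fun w => g (Em row piv q w)) u w) →
    -L ≤ g p →
    ∫ w in cpd (k := n) r, -g (Em row piv q w) ≤
      C * (1 + ∑ i, |Real.log ‖prow row i q‖|) * L

variable {row : Fin n → Option (Fin m)} {piv : Fin m → Fin n}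

theorem integrableOn_Em (hEc : Continuous fun p : Cn n × Cn n => Em row piv p.1 p.2)
    {g : Cn n → ℝ} (hg : ContinuousOn g (opd 9)) {q : Cn n} {r : ℝ}
    (h : ∀ w ∈ cpd (k := n) r, Em row piv q w ∈ opd 9) :
    IntegrableOn (fun w => -g (Em row piv q w)) (cpd r) volume := by
  have h1 : ContinuousOn (fun w => -g (Em row piv q w)) (cpd r) :=
    (hg.comp (hEc.comp (Continuous.prodMk_right q)).continuousOn h).neg
  exact h1.integrableOn_compact (isCompact_cpd r)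

theorem PropOK.mono (hprow : ∀ q w i, prow row i (Em row piv q w) = prow row i q)
    (hEc : Continuous fun p : Cn n × Cn n => Em row piv p.1 p.2) {C r C' r' : ℝ}
    (h : PropOK row piv C r) (hC : C ≤ C') (hr : 0 ≤ r') (hr' : r' ≤ r) :
    PropOK row piv C' r' := by
  refine ⟨fun q hq w hw => h.1 q hq w (cpd_mono hr hr' hw),
    fun g p q L hg hp hq h0 hpq hneg hpsh hL => ?_⟩
  have hL0 : 0 ≤ L := by
    have := hneg p (cpd_subset_opd (by norm_num) (by norm_num) hp) hpq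
    linarith
  have h1 := h.2 g p q L hg hp hq h0 hpq hneg hpsh hL
  have h2 : ∫ w in cpd (k := n) r', -g (Em row piv q w) ≤
      ∫ w in cpd (k := n) r, -g (Em row piv q w) := by
    refine setIntegral_mono_set (integrableOn_Em hEc hg.continuousOn (h.1 q hq)) ?_
      (cpd_mono hr hr').eventuallyLE
    refine (ae_restrict_iff' (isCompact_cpd r).measurableSet).2 (.of_forall fun w hw => ?_)
    have := hneg _ (h.1 q hq w hw) fun i => hprow q w i
    simpa using this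
  refine h2.trans (h1.trans ?_)
  have h3 : 0 ≤ ∑ i, |Real.log ‖prow row i q‖| := Finset.sum_nonneg fun _ _ => abs_nonneg _
  gcongr

end Basic

variable {n m : ℕ} {M Y W : Type} [TopologicalSpace M]
  [TopologicalSpace Y] [TopologicalSpace W] {κ P ι : Type} {T : ℝ} (F : Mod n m M Y W κ P ι T)

theorem fib_eq {w w' : W} (h1 : F.lab w = F.lab w') (h2 : F.τ w = F.τ w') :
    F.f (F.π w) = F.f (F.π w') := by
  have hb := F.model.base w
  have hb' := F.model.base w'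
  rw [h1, h2] at hb
  refine (F.b (F.lab w')).injOn hb.1 hb'.1 (cc_ext fun i => ?_)
  rw [hb.2 i, hb'.2 i]

theorem mem_target {c : ι} {x : Cn n} (hx : x ∈ opd (k := n) 10) : x ∈ (F.a c).target := by
  rw [F.model.target c]
  exact hx

theorem lab_symm {c : ι} {x : Cn n} (hx : x ∈ opd (k := n) 10) :
    F.lab ((F.a c).symm x) = F.pc c :=
  F.model.lab_eq c _ ((F.a c).map_target (mem_target F hx))

theorem tau_symm {c : ι} {x : Cn n} (hx : x ∈ opd (k := n) 10) (i : Fin m) :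
    cc (F.τ ((F.a c).symm x)) i = F.s c i * prow (F.row c) i x := by
  have := F.model.mono c _ ((F.a c).map_target (mem_target F hx)) i
  rwa [(F.a c).right_inv (mem_target F hx)] at this

theorem tau_eq_iff {c : ι} {x x' : Cn n} (hx : x ∈ opd (k := n) 10) (hx' : x' ∈ opd (k := n) 10) :
    F.τ ((F.a c).symm x) = F.τ ((F.a c).symm x') ↔
      ∀ i, prow (F.row c) i x = prow (F.row c) i x' := by
  constructor
  · intro h i
    have h1 := tau_symm F (c := c) hx i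
    rw [h, tau_symm F hx' i] at h1
    exact (mul_left_cancel₀ (Complex.ofReal_ne_zero.2 (F.model.s_pos c i).ne') h1).symm
  · intro h
    exact cc_ext fun i => by rw [tau_symm F hx i, tau_symm F hx' i, h i]

/-- `φ - M₀ + C (1 - t/T) (|x|² - 81 n)` in the chart `c` of `W` -/
noncomputable def gtl (C t M₀ : ℝ) (c : ι) (x : Cn n) : ℝ :=
  F.Phi t (F.π ((F.a c).symm x)) - M₀ + C * (1 - t / T) * (nsq x - 81 * n)

/-- the inputs, with their constants -/
structure Inp (piv : ι → Fin m → Fin n) (C₄ C r r₁ ρ : ℝ) : Prop where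
  C₄0 : 0 ≤ C₄
  C1 : 1 ≤ C
  r₁0 : 0 < r₁
  r₁r : r₁ ≤ r
  spec : ∀ t ∈ Ico 0 T, ∀ y, (∃ p, F.f p = y ∧ F.Phi t p = F.Mx t y) ∧
    ∀ p, F.f p = y → F.Phi t p ≤ F.Mx t y
  hpiv : ∀ c i, F.row c (piv c i) = some i
  prow_Em : ∀ (c : ι) (piv' : Fin m → Fin n), (∀ i, F.row c (piv' i) = some i) → ∀ q w i,
    prow (F.row c) i (Em (F.row c) piv' q w) = prow (F.row c) i q
  cont : ∀ (c : ι) (piv' : Fin m → Fin n),
    Continuous fun p : Cn n × Cn n => Em (F.row c) piv' p.1 p.2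
  prop : ∀ (c : ι) (piv' : Fin m → Fin n), (∀ i, F.row c (piv' i) = some i) →
    PropOK (F.row c) piv' C r
  close : ∀ c, ∀ q ∈ cpd (k := n) 9, ∀ w ∈ cpd (k := n) r₁,
    Em (F.row c) (piv c) q w - q ∈ cpd (k := n) ρ
  overlap : ∀ c c' : ι, ∀ w, w ∈ (F.a c).source → w ∈ (F.a c').source →
    F.a c w ∈ cpd (3 / 2) → F.a c' w ∈ cpd (3 / 2) → ∀ x, x - F.a c w ∈ cpd (k := n) ρ →
    (F.a c).symm x ∈ (F.a c').source ∧ F.a c' ((F.a c).symm x) ∈ cpd 2
  fib : ∀ t ∈ Ico 0 T, ∀ c, ∀ q ∈ opd (k := n) 9, ∀ M₀ : ℝ,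
    ∀ piv' : Fin m → Fin n, (∀ i, F.row c (piv' i) = some i) → ∀ w,
    Em (F.row c) piv' q w ∈ opd 9 → ∀ u,
    0 ≤ levz (fun w => F.Phi t (F.π ((F.a c).symm (Em (F.row c) piv' q w))) - M₀ +
      C₄ * (1 - t / T) * (nsq (Em (F.row c) piv' q w) - 81 * n)) u w
  smooth : ∀ t ∈ Ico 0 T, ∀ c,
    ContDiffOn ℝ ∞ (fun x => F.Phi t (F.π ((F.a c).symm x))) (opd 10)

variable {F} {piv : ι → Fin m → Fin n} {C₄ C r r₁ ρ : ℝ}

theorem opd_mono {a b : ℝ} (h0 : 0 ≤ a) (h : a ≤ b) : opd (k := n) a ⊆ opd b := fun x hx i =>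
  (hx i).trans_le (by nlinarith)

theorem opd9 {x : Cn n} (hx : x ∈ opd (k := n) 9) : x ∈ opd (k := n) 10 :=
  opd_mono (by norm_num) (by norm_num) hx

theorem cpd2_9 {x : Cn n} (hx : x ∈ cpd (k := n) 2) : x ∈ opd (k := n) 9 :=
  cpd_subset_opd (by norm_num) (by norm_num) hx

theorem one_sub_nonneg {t : ℝ} (ht : t ∈ Ico 0 T) : 0 ≤ 1 - t / T := by
  have hT : 0 < T := ht.1.trans_lt ht.2
  have : t / T ≤ 1 := (div_le_one hT).2 ht.2.le
  linarith

theorem Inp.contDiffOn_gtl (H : Inp F piv C₄ C r r₁ ρ) {t : ℝ} (ht : t ∈ Ico 0 T) (M₀ : ℝ)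
    (c : ι) : ContDiffOn ℝ ∞ (gtl F C₄ t M₀ c) (opd 9) := by
  unfold gtl
  have h1 := (H.smooth t ht c).mono fun x hx => opd9 hx
  exact (h1.sub contDiffOn_const).add
    (contDiffOn_const.mul (contDiff_nsq.contDiffOn.sub contDiffOn_const))

theorem Inp.gtl_le (H : Inp F piv C₄ C r r₁ ρ) {t : ℝ} (ht : t ∈ Ico 0 T) {M₀ : ℝ}
    {c : ι} {x : Cn n} (hx : x ∈ opd (k := n) 9) :
    gtl F C₄ t M₀ c x ≤ F.Phi t (F.π ((F.a c).symm x)) - M₀ := by
  unfold gtl
  have h1 := nsq_le hx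
  have h2 := mul_nonneg H.C₄0 (one_sub_nonneg ht)
  have h3 : C₄ * (1 - t / T) * (nsq x - 81 * n) ≤ 0 :=
    mul_nonpos_of_nonneg_of_nonpos h2 (by linarith)
  linarith

theorem Inp.gtl_nonpos (H : Inp F piv C₄ C r r₁ ρ) {t : ℝ} (ht : t ∈ Ico 0 T) {y : Y}
    {c : ι} {x : Cn n} (hx : x ∈ opd (k := n) 9) (hy : F.f (F.π ((F.a c).symm x)) = y) :
    gtl F C₄ t (F.Mx t y) c x ≤ 0 := by
  have h1 := H.gtl_le ht (M₀ := F.Mx t y) (c := c) hx
  have h2 := (H.spec t ht y).2 _ hy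
  linarith

/-- propagation in a chart -/
theorem Inp.reach (H : Inp F piv C₄ C r r₁ ρ) {t : ℝ} (ht : t ∈ Ico 0 T) {y : Y} {c : ι}
    {piv' : Fin m → Fin n} (hpiv' : ∀ i, F.row c (piv' i) = some i) {p q : Cn n}
    (hp : p ∈ cpd (k := n) 2) (hq : q ∈ cpd (k := n) 2) (hy : F.f (F.π ((F.a c).symm q)) = y)
    (h0 : ∀ i, prow (F.row c) i q ≠ 0) (hpq : ∀ i, prow (F.row c) i p = prow (F.row c) i q)
    {L : ℝ} (hL : -L ≤ gtl F C₄ t (F.Mx t y) c p) :
    ∫ w in cpd (k := n) r, -gtl F C₄ t (F.Mx t y) c (Em (F.row c) piv' q w) ≤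
      C * (1 + ∑ i, |Real.log ‖prow (F.row c) i q‖|) * L := by
  refine (H.prop c piv' hpiv').2 (gtl F C₄ t (F.Mx t y) c) p q L (H.contDiffOn_gtl ht _ c) hp hq h0
    hpq (fun x hx hxq => H.gtl_nonpos ht hx ?_)
    (fun w hw u => H.fib t ht c q (cpd2_9 hq) (F.Mx t y) piv' hpiv' w hw u) hL
  rw [← hy]
  exact fib_eq F ((lab_symm F (opd9 hx)).trans (lab_symm F (opd9 (cpd2_9 hq))).symm)
    ((tau_eq_iff F (opd9 hx) (opd9 (cpd2_9 hq))).2 hxq)

/-- the chart `c` contains a point of the fibre `τ = τ₀` with `g ≥ -L` -/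
def Lev (F : Mod n m M Y W κ P ι T) (C₄ t M₀ : ℝ) (j : P) (τ₀ : Cn m) (L : ℝ) (c : ι) : Prop :=
  F.pc c = j ∧ ∃ x ∈ cpd (k := n) 2, F.τ ((F.a c).symm x) = τ₀ ∧ -L ≤ gtl F C₄ t M₀ c x

theorem Lev.mono {t M₀ : ℝ} {j : P} {τ₀ : Cn m} {L L' : ℝ} {c : ι}
    (h : Lev F C₄ t M₀ j τ₀ L c) (hL : L ≤ L') : Lev F C₄ t M₀ j τ₀ L' c := by
  obtain ⟨h1, x, hx, h2, h3⟩ := h
  exact ⟨h1, x, hx, h2, by linarith⟩

/-- from one chart to another -/
theorem Inp.step (H : Inp F piv C₄ C r r₁ ρ) {t : ℝ} (ht : t ∈ Ico 0 T) {w₀ : W} {c c' : ι}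
    (hw : w₀ ∈ (F.a c).source) (hw' : w₀ ∈ (F.a c').source) (ha : F.a c w₀ ∈ cpd (3 / 2))
    (ha' : F.a c' w₀ ∈ cpd (3 / 2)) (hτ : ∀ i, cc (F.τ w₀) i ≠ 0) {L : ℝ}
    (hL : Lev F C₄ t (F.Mx t (F.f (F.π w₀))) (F.lab w₀) (F.τ w₀) L c) :
    Lev F C₄ t (F.Mx t (F.f (F.π w₀))) (F.lab w₀) (F.τ w₀)
      (C * (1 + ∑ i, |Real.log ‖prow (F.row c) i (F.a c w₀)‖|) * L /
        (volume (cpd (k := n) r₁)).toReal + C₄ * (1 - t / T) * (81 * n)) c' := by
  obtain ⟨-, p, hp, hpτ, hpL⟩ := hL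
  set q : Cn n := F.a c w₀ with hq
  have hq2 : q ∈ cpd (k := n) 2 := cpd_mono (by norm_num) (by norm_num) ha
  have hqs : (F.a c).symm q = w₀ := (F.a c).left_inv hw
  have hq0 : ∀ i, prow (F.row c) i q ≠ 0 := fun i h => by
    have h1 := F.model.mono c w₀ hw i
    rw [← hq, h, mul_zero] at h1
    exact hτ i h1
  have hpq : ∀ i, prow (F.row c) i p = prow (F.row c) i q :=
    (tau_eq_iff F (opd9 (cpd2_9 hp)) (opd9 (cpd2_9 hq2))).1 (by rw [hpτ, hqs])
  set M₀ : ℝ := F.Mx t (F.f (F.π w₀)) with hM₀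
  have h1 := H.reach ht (H.hpiv c) hp hq2 (y := F.f (F.π w₀)) (by rw [hqs]) hq0 hpq hpL
  rw [← hM₀] at h1
  have hr₁ := H.r₁0.le
  have hE9 : ∀ w ∈ cpd (k := n) r, Em (F.row c) (piv c) q w ∈ opd 9 :=
    (H.prop c (piv c) (H.hpiv c)).1 q hq2
  have hfib : ∀ w ∈ cpd (k := n) r, F.f (F.π ((F.a c).symm (Em (F.row c) (piv c) q w))) =
      F.f (F.π w₀) := fun w hw => by
    rw [← hqs]
    refine fib_eq F ((lab_symm F (opd9 (hE9 w hw))).trans (lab_symm F (opd9 (cpd2_9 hq2))).symm)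
      ((tau_eq_iff F (opd9 (hE9 w hw)) (opd9 (cpd2_9 hq2))).2
        fun i => H.prow_Em c (piv c) (H.hpiv c) q w i)
  have hneg : ∀ w ∈ cpd (k := n) r, gtl F C₄ t M₀ c (Em (F.row c) (piv c) q w) ≤ 0 :=
    fun w hw => H.gtl_nonpos ht (hE9 w hw) (hfib w hw)
  have hint : IntegrableOn (fun w => -gtl F C₄ t M₀ c (Em (F.row c) (piv c) q w))
      (cpd (k := n) r) volume :=
    integrableOn_Em (H.cont c (piv c)) (H.contDiffOn_gtl ht M₀ c).continuousOn hE9
  have hsub : cpd (k := n) r₁ ⊆ cpd r := cpd_mono hr₁ H.r₁r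
  have h2 : ∫ w in cpd (k := n) r₁, -gtl F C₄ t M₀ c (Em (F.row c) (piv c) q w) ≤
      ∫ w in cpd (k := n) r, -gtl F C₄ t M₀ c (Em (F.row c) (piv c) q w) := by
    refine setIntegral_mono_set hint ?_ hsub.eventuallyLE
    refine (ae_restrict_iff' (isCompact_cpd r).measurableSet).2 (.of_forall fun w hw => ?_)
    simpa using hneg w hw
  have hV0 : volume (cpd (k := n) r₁) ≠ 0 := (volume_cpd_pos H.r₁0).ne'
  have hV : 0 < (volume (cpd (k := n) r₁)).toReal :=
    ENNReal.toReal_pos hV0 (volume_cpd_ne_top r₁)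
  obtain ⟨w, hwr, hw1⟩ := exists_le_setAverage hV0 (volume_cpd_ne_top r₁) (hint.mono_set hsub)
  rw [setAverage_eq, measureReal_def, smul_eq_mul] at hw1
  have h3 : -gtl F C₄ t M₀ c (Em (F.row c) (piv c) q w) ≤
      C * (1 + ∑ i, |Real.log ‖prow (F.row c) i q‖|) * L /
        (volume (cpd (k := n) r₁)).toReal := by
    refine hw1.trans ?_
    rw [div_eq_inv_mul]
    exact mul_le_mul_of_nonneg_left (h2.trans h1) (inv_nonneg.2 hV.le)
  set x₁ : Cn n := Em (F.row c) (piv c) q w with hx₁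
  have hx₁9 : x₁ ∈ opd (k := n) 9 := hE9 w (hsub hwr)
  have hclose : x₁ - q ∈ cpd (k := n) ρ :=
    H.close c q (cpd_mono (by norm_num) (by norm_num) hq2) w hwr
  obtain ⟨h4, h5⟩ := H.overlap c c' w₀ hw hw' ha ha' x₁ hclose
  have h6 : (F.a c').symm (F.a c' ((F.a c).symm x₁)) = (F.a c).symm x₁ := (F.a c').left_inv h4
  refine ⟨(F.model.lab_eq c' w₀ hw').symm, F.a c' ((F.a c).symm x₁), h5, ?_, ?_⟩
  · rw [h6, ← hqs]
    exact (tau_eq_iff F (opd9 hx₁9) (opd9 (cpd2_9 hq2))).2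
      fun i => H.prow_Em c (piv c) (H.hpiv c) q w i
  · have h7 := H.gtl_le ht (M₀ := M₀) (c := c) hx₁9
    have h8 : gtl F C₄ t M₀ c' (F.a c' ((F.a c).symm x₁)) =
        F.Phi t (F.π ((F.a c).symm x₁)) - M₀ +
          C₄ * (1 - t / T) * (nsq (F.a c' ((F.a c).symm x₁)) - 81 * n) := by
      unfold gtl
      rw [h6]
    have h9 := nsq_nonneg (F.a c' ((F.a c).symm x₁))
    have h10 := mul_nonneg H.C₄0 (one_sub_nonneg ht)
    have h11 : 0 ≤ C₄ * (1 - t / T) * nsq (F.a c' ((F.a c).symm x₁)) := mul_nonneg h10 h9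
    rw [h8]
    nlinarith

/-- logarithms of the coordinates of `τ` in different charts -/
theorem log_prow {c : ι} {x : Cn n} (hx : x ∈ opd (k := n) 10)
    (h0 : ∀ i, prow (F.row c) i x ≠ 0) (i : Fin m) :
    Real.log ‖cc (F.τ ((F.a c).symm x)) i‖ =
      Real.log (F.s c i) + Real.log ‖prow (F.row c) i x‖ := by
  rw [tau_symm F hx i, norm_mul, Complex.norm_real, Real.norm_eq_abs,
    abs_of_pos (F.model.s_pos c i),
    Real.log_mul (F.model.s_pos c i).ne' (norm_ne_zero_iff.2 (h0 i))]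

theorem log_le {D₁ : ℝ} (hD₁ : 1 ≤ D₁) {c : ι} (hs : ∑ i, |Real.log (F.s c i)| ≤ D₁ - 1)
    {x : Cn n} (hx : x ∈ opd (k := n) 10) (h0 : ∀ i, prow (F.row c) i x ≠ 0) :
    (1 + ∑ i, |Real.log ‖prow (F.row c) i x‖| ≤
      D₁ * (1 + ∑ i, |Real.log ‖cc (F.τ ((F.a c).symm x)) i‖|)) ∧
    (1 + ∑ i, |Real.log ‖cc (F.τ ((F.a c).symm x)) i‖| ≤
      D₁ * (1 + ∑ i, |Real.log ‖prow (F.row c) i x‖|)) := by
  have h1 : ∑ i, |Real.log ‖prow (F.row c) i x‖| ≤
      ∑ i, |Real.log ‖cc (F.τ ((F.a c).symm x)) i‖| + ∑ i, |Real.log (F.s c i)| := by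
    rw [← Finset.sum_add_distrib]
    refine Finset.sum_le_sum fun i _ => ?_
    rw [log_prow hx h0 i]
    calc |Real.log ‖prow (F.row c) i x‖| =
        |(Real.log (F.s c i) + Real.log ‖prow (F.row c) i x‖) - Real.log (F.s c i)| := by
          congr 1; ring
      _ ≤ _ := abs_sub _ _
  have h2 : ∑ i, |Real.log ‖cc (F.τ ((F.a c).symm x)) i‖| ≤
      ∑ i, |Real.log ‖prow (F.row c) i x‖| + ∑ i, |Real.log (F.s c i)| := by
    rw [← Finset.sum_add_distrib]
    refine Finset.sum_le_sum fun i _ => ?_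
    rw [log_prow hx h0 i, add_comm]
    exact abs_add_le _ _
  have h3 : 0 ≤ ∑ i, |Real.log ‖prow (F.row c) i x‖| := Finset.sum_nonneg fun _ _ => abs_nonneg _
  have h4 : 0 ≤ ∑ i, |Real.log ‖cc (F.τ ((F.a c).symm x)) i‖| :=
    Finset.sum_nonneg fun _ _ => abs_nonneg _
  constructor <;> nlinarith

theorem isClosed_core [T2Space W] (c : ι) {a : ℝ} (h0 : 0 ≤ a) (h : a < 10) :
    IsClosed {w | w ∈ (F.a c).source ∧ F.a c w ∈ cpd (k := n) a} := by
  have h1 : {w | w ∈ (F.a c).source ∧ F.a c w ∈ cpd (k := n) a} = (F.a c).symm '' cpd a := by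
    ext w
    constructor
    · rintro ⟨hw, hw1⟩
      exact ⟨_, hw1, (F.a c).left_inv hw⟩
    · rintro ⟨x, hx, rfl⟩
      have hx' := mem_target F (c := c) (cpd_subset_opd h0 h hx)
      exact ⟨(F.a c).map_target hx', by rw [(F.a c).right_inv hx']; exact hx⟩
  rw [h1]
  refine ((isCompact_cpd a).image_of_continuousOn ((F.a c).continuousOn_symm.mono ?_)).isClosed
  exact fun x hx => mem_target F (cpd_subset_opd h0 h hx)

/-- every chart which meets the fibre contains a point of the fibre with `g ≥ - L` -/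
theorem Inp.level [T2Space W] [Finite ι] (H : Inp F piv C₄ C r r₁ ρ) {D₁ : ℝ} (hD₁ : 1 ≤ D₁)
    (hs : ∀ c, ∑ i, |Real.log (F.s c i)| ≤ D₁ - 1) {t : ℝ} (ht : t ∈ Ico 0 T) {w₀ : W}
    (h25 : nsq (F.b (F.lab w₀) (F.f (F.π w₀))) ≤ 25) (hτ : ∀ i, cc (F.τ w₀) i ≠ 0) {A L₀ : ℝ}
    (hA : C * (D₁ * (1 + ∑ i, |Real.log ‖cc (F.τ w₀) i‖|)) /
      (volume (cpd (k := n) r₁)).toReal + 1 ≤ A)
    (hL₀ : C₄ * (1 - t / T) * (81 * n) ≤ L₀) {w : W} (hlab : F.lab w = F.lab w₀)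
    (hτw : F.τ w = F.τ w₀) {c : ι} (hwc : w ∈ (F.a c).source) (hwc1 : F.a c w ∈ cpd (3 / 2)) :
    Lev F C₄ t (F.Mx t (F.f (F.π w₀))) (F.lab w₀) (F.τ w₀) (A ^ (Nat.card ι + 1) * L₀) c := by
  have hV0 : volume (cpd (k := n) r₁) ≠ 0 := (volume_cpd_pos H.r₁0).ne'
  have hV : 0 < (volume (cpd (k := n) r₁)).toReal :=
    ENNReal.toReal_pos hV0 (volume_cpd_ne_top r₁)
  have hC0 : 0 ≤ C := zero_le_one.trans H.C1
  have hlog0 : 0 ≤ ∑ i, |Real.log ‖cc (F.τ w₀) i‖| := Finset.sum_nonneg fun _ _ => abs_nonneg _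
  have hA0 : 0 ≤ C * (D₁ * (1 + ∑ i, |Real.log ‖cc (F.τ w₀) i‖|)) /
      (volume (cpd (k := n) r₁)).toReal := by positivity
  have hA1 : 1 ≤ A := by linarith
  have hL₀0 : 0 ≤ L₀ := by
    refine le_trans ?_ hL₀
    have := mul_nonneg H.C₄0 (one_sub_nonneg ht)
    positivity
  -- one step
  have hstep : ∀ (k : ℕ) (c c' : ι) (w : W), F.lab w = F.lab w₀ → F.τ w = F.τ w₀ →
      w ∈ (F.a c).source → w ∈ (F.a c').source → F.a c w ∈ cpd (3 / 2) →
      F.a c' w ∈ cpd (3 / 2) →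
      Lev F C₄ t (F.Mx t (F.f (F.π w₀))) (F.lab w₀) (F.τ w₀) (A ^ k * L₀) c →
      Lev F C₄ t (F.Mx t (F.f (F.π w₀))) (F.lab w₀) (F.τ w₀) (A ^ (k + 1) * L₀) c' := by
    intro k c c' w hlab hτw hw hw' ha ha' hL
    have hfib : F.f (F.π w) = F.f (F.π w₀) := fib_eq F hlab hτw
    rw [← hfib, ← hlab, ← hτw] at hL ⊢
    have h1 := H.step ht hw hw' ha ha' (by rw [hτw]; exact hτ) hL
    refine h1.mono ?_
    have hq10 : F.a c w ∈ opd (k := n) 10 := cpd_subset_opd (by norm_num) (by norm_num) ha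
    have hq0 : ∀ i, prow (F.row c) i (F.a c w) ≠ 0 := fun i h => by
      have h1 := F.model.mono c w hw i
      rw [h, mul_zero, hτw] at h1
      exact hτ i h1
    have h2 := (log_le hD₁ (hs c) hq10 hq0).1
    rw [(F.a c).left_inv hw, hτw] at h2
    have hAk : 1 ≤ A ^ k := one_le_pow₀ hA1
    have hAL : 0 ≤ A ^ k * L₀ := by positivity
    calc C * (1 + ∑ i, |Real.log ‖prow (F.row c) i (F.a c w)‖|) * (A ^ k * L₀) /
          (volume (cpd (k := n) r₁)).toReal + C₄ * (1 - t / T) * (81 * n)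
        ≤ C * (D₁ * (1 + ∑ i, |Real.log ‖cc (F.τ w₀) i‖|)) * (A ^ k * L₀) /
          (volume (cpd (k := n) r₁)).toReal + A ^ k * L₀ := by
          refine add_le_add ?_ (hL₀.trans (le_mul_of_one_le_left hL₀0 hAk))
          gcongr
      _ = (C * (D₁ * (1 + ∑ i, |Real.log ‖cc (F.τ w₀) i‖|)) /
          (volume (cpd (k := n) r₁)).toReal + 1) * (A ^ k * L₀) := by ring
      _ ≤ A * (A ^ k * L₀) := mul_le_mul_of_nonneg_right hA hAL
      _ = A ^ (k + 1) * L₀ := by ring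
  -- the start
  obtain ⟨p, hp, hpM⟩ := (H.spec t ht (F.f (F.π w₀))).1
  obtain ⟨w₁, hw₁, hw₁τ, hw₁p⟩ := F.model.onto (F.lab w₀) p (by
      rw [hp]; exact (F.model.base w₀).1) (by rw [hp]; exact h25) (F.τ w₀) (fun i => by
      rw [hp]; exact ((F.model.base w₀).2 i).symm)
  have hcov : ∀ w, F.lab w = F.lab w₀ → F.τ w = F.τ w₀ →
      ∃ c, w ∈ (F.a c).source ∧ F.a c w ∈ cpd 1 := fun w h1 h2 =>
    F.model.cover w (by rw [fib_eq F h1 h2, h1]; exact h25)
  obtain ⟨c₀, hc₀, hc₀1⟩ := hcov w₁ hw₁ hw₁τ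
  have hG0 : Lev F C₄ t (F.Mx t (F.f (F.π w₀))) (F.lab w₀) (F.τ w₀) (A ^ 0 * L₀) c₀ := by
    refine ⟨(F.model.lab_eq c₀ w₁ hc₀).symm.trans hw₁, F.a c₀ w₁,
      cpd_mono (by norm_num) (by norm_num) hc₀1, by rw [(F.a c₀).left_inv hc₀, hw₁τ], ?_⟩
    unfold gtl
    rw [(F.a c₀).left_inv hc₀, hw₁p, hpM, pow_zero, one_mul]
    have h10 := mul_nonneg H.C₄0 (one_sub_nonneg ht)
    have h11 : 0 ≤ C₄ * (1 - t / T) * nsq (F.a c₀ w₁) := mul_nonneg h10 (nsq_nonneg _)
    nlinarith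
  -- the chain
  have hS := F.model.connected (F.lab w₀) (F.τ w₀) hτ
  have key := level_of_cover hS (fun c => {w | w ∈ (F.a c).source ∧ F.a c w ∈ cpd (k := n) 1})
    (fun c => isClosed_core c (by norm_num) (by norm_num))
    (fun w hw => by
      obtain ⟨c, hc⟩ := hcov w hw.1 hw.2
      exact mem_iUnion.2 ⟨c, hc⟩)
    (fun k c => Lev F C₄ t (F.Mx t (F.f (F.π w₀))) (F.lab w₀) (F.τ w₀) (A ^ k * L₀) c) c₀
    ⟨w₁, ⟨hw₁, hw₁τ⟩, hc₀, hc₀1⟩ hG0
    (fun k c h => h.mono (by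
      rw [pow_succ]
      have hAk : 0 ≤ A ^ k := by positivity
      nlinarith [mul_nonneg hAk hL₀0]))
    (fun k c c' h hne => by
      obtain ⟨w, ⟨hwl, hwτ⟩, ⟨hwc, hwc1⟩, hwc', hwc1'⟩ := hne
      exact hstep k c c' w hwl hwτ hwc hwc' (cpd_mono (by norm_num) (by norm_num) hwc1)
        (cpd_mono (by norm_num) (by norm_num) hwc1') h)
  obtain ⟨c₁, hc₁, hc₁1⟩ := hcov w hlab hτw
  have h1 := key c₁ ⟨w, ⟨hlab, hτw⟩, hc₁, hc₁1⟩
  exact hstep _ c₁ c w hlab hτw hc₁ hwc (cpd_mono (by norm_num) (by norm_num) hc₁1) hwc1 h1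

/-- the final estimate -/
theorem Inp.final [T2Space W] [Finite ι] (H : Inp F piv C₄ C r r₁ ρ) {D₁ : ℝ} (hD₁ : 1 ≤ D₁)
    (hs : ∀ c, ∑ i, |Real.log (F.s c i)| ≤ D₁ - 1) {t : ℝ} (ht : t ∈ Ico 0 T) (c : ι)
    {piv' : Fin m → Fin n} (hpiv' : ∀ i, F.row c (piv' i) = some i) {q : Cn n}
    (hq : q ∈ cpd (k := n) (3 / 2)) (hq0 : ∀ i, prow (F.row c) i q ≠ 0)
    (hy : nsq (F.yc c q) ≤ 25) :
    ∫ w in cpd (k := n) r, -F.gc t c (Em (F.row c) piv' q w) ≤
      C * (((C * D₁ / (volume (cpd (k := n) r₁)).toReal + 1) * D₁) ^ (Nat.card ι + 1)) *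
        (C₄ * 81 * n / T) * (T - t) *
        (1 + ∑ i, |Real.log ‖prow (F.row c) i q‖|) ^ (Nat.card ι + 2) := by
  have hT : 0 < T := ht.1.trans_lt ht.2
  have hV0 : volume (cpd (k := n) r₁) ≠ 0 := (volume_cpd_pos H.r₁0).ne'
  have hV : 0 < (volume (cpd (k := n) r₁)).toReal :=
    ENNReal.toReal_pos hV0 (volume_cpd_ne_top r₁)
  have hC0 : 0 ≤ C := zero_le_one.trans H.C1
  have hq2 : q ∈ cpd (k := n) 2 := cpd_mono (by norm_num) (by norm_num) hq
  have hq10 : q ∈ opd (k := n) 10 := opd9 (cpd2_9 hq2)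
  have hqt := mem_target F (c := c) hq10
  set w₀ : W := (F.a c).symm q with hw₀
  have hw₀s : w₀ ∈ (F.a c).source := (F.a c).map_target hqt
  have haw : F.a c w₀ = q := (F.a c).right_inv hqt
  have hlab : F.lab w₀ = F.pc c := lab_symm F hq10
  have hτ : ∀ i, cc (F.τ w₀) i ≠ 0 := fun i => by
    rw [hw₀, tau_symm F hq10 i]
    exact mul_ne_zero (Complex.ofReal_ne_zero.2 (F.model.s_pos c i).ne') (hq0 i)
  have h25 : nsq (F.b (F.lab w₀) (F.f (F.π w₀))) ≤ 25 := by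
    rw [hlab]
    exact hy
  set R₀ : ℝ := 1 + ∑ i, |Real.log ‖cc (F.τ w₀) i‖| with hR₀
  set R : ℝ := 1 + ∑ i, |Real.log ‖prow (F.row c) i q‖| with hR
  have hR₀1 : 1 ≤ R₀ := by
    have : 0 ≤ ∑ i, |Real.log ‖cc (F.τ w₀) i‖| := Finset.sum_nonneg fun _ _ => abs_nonneg _
    linarith
  have hR1 : 1 ≤ R := by
    have : 0 ≤ ∑ i, |Real.log ‖prow (F.row c) i q‖| := Finset.sum_nonneg fun _ _ => abs_nonneg _
    linarith
  have hR₀R : R₀ ≤ D₁ * R := (log_le hD₁ (hs c) hq10 hq0).2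
  set A : ℝ := (C * D₁ / (volume (cpd (k := n) r₁)).toReal + 1) * R₀ with hAdef
  have hCV : 0 ≤ C * D₁ / (volume (cpd (k := n) r₁)).toReal := by positivity
  have hA : C * (D₁ * R₀) / (volume (cpd (k := n) r₁)).toReal + 1 ≤ A := by
    rw [hAdef, add_mul, one_mul]
    refine add_le_add (le_of_eq (by ring)) hR₀1
  set L₀ : ℝ := C₄ * (1 - t / T) * (81 * n) with hL₀
  have hL₀0 : 0 ≤ L₀ := by
    have := mul_nonneg H.C₄0 (one_sub_nonneg ht)
    positivity
  obtain ⟨-, x, hx, hxτ, hxL⟩ := H.level hD₁ hs ht h25 hτ hA le_rfl rfl rfl hw₀s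
    (by rw [haw]; exact hq)
  have hpq : ∀ i, prow (F.row c) i x = prow (F.row c) i q :=
    (tau_eq_iff F (opd9 (cpd2_9 hx)) hq10).1 hxτ
  have h1 := H.reach ht hpiv' hx hq2 (y := F.f (F.π w₀)) rfl hq0 hpq hxL
  rw [← hR] at h1
  set M₀ : ℝ := F.Mx t (F.f (F.π w₀)) with hM₀
  have hE9 : ∀ w ∈ cpd (k := n) r, Em (F.row c) piv' q w ∈ opd 9 := (H.prop c piv' hpiv').1 q hq2
  have hfib : ∀ w ∈ cpd (k := n) r, F.f (F.π ((F.a c).symm (Em (F.row c) piv' q w))) =
      F.f (F.π w₀) := fun w hw =>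
    fib_eq F ((lab_symm F (opd9 (hE9 w hw))).trans (lab_symm F hq10).symm)
      ((tau_eq_iff F (opd9 (hE9 w hw)) hq10).2 fun i => H.prow_Em c piv' hpiv' q w i)
  have hle : ∀ w ∈ cpd (k := n) r, -F.gc t c (Em (F.row c) piv' q w) ≤
      -gtl F C₄ t M₀ c (Em (F.row c) piv' q w) := fun w hw => by
    have h2 := H.gtl_le ht (M₀ := M₀) (c := c) (hE9 w hw)
    unfold Mod.gc
    rw [hfib w hw]
    linarith
  have hint : IntegrableOn (fun w => -gtl F C₄ t M₀ c (Em (F.row c) piv' q w))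
      (cpd (k := n) r) volume :=
    integrableOn_Em (H.cont c piv') (H.contDiffOn_gtl ht M₀ c).continuousOn hE9
  have hint2 : IntegrableOn (fun w => -F.gc t c (Em (F.row c) piv' q w))
      (cpd (k := n) r) volume := by
    have h3 : IntegrableOn (fun w => -(fun x => F.Phi t (F.π ((F.a c).symm x)) - M₀)
        (Em (F.row c) piv' q w)) (cpd (k := n) r) volume :=
      integrableOn_Em (H.cont c piv') (((H.smooth t ht c).continuousOn.mono
        fun x hx => opd9 hx).sub continuousOn_const) hE9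
    refine h3.congr_fun (fun w hw => ?_) (isCompact_cpd r).measurableSet
    simp only [Mod.gc]
    rw [hfib w hw]
  have h4 : ∫ w in cpd (k := n) r, -F.gc t c (Em (F.row c) piv' q w) ≤
      ∫ w in cpd (k := n) r, -gtl F C₄ t M₀ c (Em (F.row c) piv' q w) :=
    setIntegral_mono_on hint2 hint (isCompact_cpd r).measurableSet hle
  refine h4.trans (h1.trans ?_)
  have hA0 : 0 ≤ A := by positivity
  have hAle : A ≤ (C * D₁ / (volume (cpd (k := n) r₁)).toReal + 1) * D₁ * R := by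
    rw [hAdef, mul_assoc _ D₁ R]
    exact mul_le_mul_of_nonneg_left hR₀R (by linarith)
  have hL₀eq : L₀ = C₄ * 81 * n / T * (T - t) := by
    rw [hL₀]
    field_simp
  calc C * R * (A ^ (Nat.card ι + 1) * L₀)
      ≤ C * R * (((C * D₁ / (volume (cpd (k := n) r₁)).toReal + 1) * D₁ * R) ^
        (Nat.card ι + 1) * L₀) := by gcongr
    _ = _ := by
      rw [hL₀eq, mul_pow _ R]
      ring

end Chn

/-- the chain of charts, from the other modules -/
theorem Mod.chain_of {n m : ℕ} {M Y W : Type} [TopologicalSpace M]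
    [TopologicalSpace Y] [TopologicalSpace W] [T2Space W] {κ P ι : Type}
    [Fintype ι] {T : ℝ} (F : Mod n m M Y W κ P ι T)
    (hprow : ∀ (row : Fin n → Option (Fin m)) (piv : Fin m → Fin n),
      (∀ i, row (piv i) = some i) → ∀ (q w : Cn n) (i : Fin m),
      prow row i (Em row piv q w) = prow row i q)
    (hcont : ∀ (row : Fin n → Option (Fin m)) (piv : Fin m → Fin n),
      Continuous fun p : Cn n × Cn n => Em row piv p.1 p.2)
    (hclose : ∀ (row : Fin n → Option (Fin m)) (piv : Fin m → Fin n),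
      ∃ C : ℝ, 0 < C ∧ ∀ q ∈ cpd (k := n) 9, ∀ r ∈ Icc (0 : ℝ) 1, ∀ w ∈ cpd (k := n) r,
        Em row piv q w - q ∈ cpd (k := n) (C * r))
    (hprop : ∀ (row : Fin n → Option (Fin m)) (piv : Fin m → Fin n),
      (∀ i, row (piv i) = some i) →
      ∃ C r : ℝ, 0 < C ∧ 0 < r ∧ r ≤ 1 ∧
      (∀ q ∈ cpd (k := n) 2, ∀ w ∈ cpd (k := n) r, Em row piv q w ∈ opd 9) ∧
      ∀ (g : Cn n → ℝ) (p q : Cn n) (L : ℝ), ContDiffOn ℝ ∞ g (opd 9) →
      p ∈ cpd 2 → q ∈ cpd 2 → (∀ i, prow row i q ≠ 0) → (∀ i, prow row i p = prow row i q) →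
      (∀ x ∈ opd (k := n) 9, (∀ i, prow row i x = prow row i q) → g x ≤ 0) →
      (∀ w, Em row piv q w ∈ opd 9 → ∀ u, 0 ≤ levz (fun w => g (Em row piv q w)) u w) →
      -L ≤ g p →
      ∫ w in cpd (k := n) r, -g (Em row piv q w) ≤
        C * (1 + ∑ i, |Real.log ‖prow row i q‖|) * L)
    (hspec : ∀ t ∈ Ico 0 T, ∀ y : Y, (∃ p, F.f p = y ∧ F.Phi t p = F.Mx t y) ∧
      ∀ p, F.f p = y → F.Phi t p ≤ F.Mx t y)
    (hfib : ∃ C : ℝ, 0 ≤ C ∧ ∀ t ∈ Ico 0 T, ∀ c, ∀ q ∈ opd (k := n) 9, ∀ M₀ : ℝ,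
      ∀ piv : Fin m → Fin n, (∀ i, F.row c (piv i) = some i) → ∀ w,
      Em (F.row c) piv q w ∈ opd 9 → ∀ u,
      0 ≤ levz (fun w => F.Phi t (F.π ((F.a c).symm (Em (F.row c) piv q w))) - M₀ +
        C * (1 - t / T) * (nsq (Em (F.row c) piv q w) - 81 * n)) u w)
    (hsmooth : ∀ t ∈ Ico 0 T, ∀ c : ι,
      ContDiffOn ℝ ∞ (fun x => F.Phi t (F.π ((F.a c).symm x))) (opd 10))
    (hover : ∃ r : ℝ, 0 < r ∧ ∀ c c' : ι, ∀ w,
      w ∈ (F.a c).source → w ∈ (F.a c').source → F.a c w ∈ cpd (3 / 2) →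
      F.a c' w ∈ cpd (3 / 2) → ∀ x, x - F.a c w ∈ cpd (k := n) r →
      (F.a c).symm x ∈ (F.a c').source ∧ F.a c' ((F.a c).symm x) ∈ cpd 2) :
    ∃ (C r : ℝ) (B : ℕ), 1 ≤ C ∧ 0 < r ∧ r ≤ 1 ∧ ∀ t ∈ Ico 0 T, ∀ c,
    ∀ piv : Fin m → Fin n, (∀ i, F.row c (piv i) = some i) →
    ∀ q ∈ cpd (k := n) (3 / 2), (∀ i, prow (F.row c) i q ≠ 0) → nsq (F.yc c q) ≤ 20 →
    (∀ w ∈ cpd (k := n) r, Em (F.row c) piv q w ∈ opd 9) ∧
    ∫ w in cpd (k := n) r, -F.gc t c (Em (F.row c) piv q w) ≤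
      C * (T - t) * (1 + ∑ i, |Real.log ‖prow (F.row c) i q‖|) ^ B := by
  obtain ⟨C₄, hC₄, hfib⟩ := hfib
  obtain ⟨ρ, hρ, hover⟩ := hover
  -- pivots
  have hex : ∀ c : ι, ∃ piv : Fin m → Fin n, ∀ i, F.row c (piv i) = some i := fun c => by
    choose piv hpiv using F.model.row_ne c
    exact ⟨piv, hpiv⟩
  choose piv hpiv using hex
  -- uniform constants for `propagate`
  choose Cp rp hCp hrp hrp1 hPE hPI using
    fun a : {a : ι × (Fin m → Fin n) // ∀ i, F.row a.1 (a.2 i) = some i} =>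
      hprop (F.row a.1.1) a.1.2 a.2
  obtain ⟨C, hC1, hC⟩ := Chn.exists_ub Cp
  obtain ⟨r, hr0, hr1, hr⟩ := Chn.exists_lb rp hrp
  have hprop' : ∀ (c : ι) (piv' : Fin m → Fin n), (∀ i, F.row c (piv' i) = some i) →
      Chn.PropOK (F.row c) piv' C r := fun c piv' hpiv' => by
    have h : Chn.PropOK (F.row c) piv' (Cp ⟨(c, piv'), hpiv'⟩) (rp ⟨(c, piv'), hpiv'⟩) :=
      ⟨hPE ⟨(c, piv'), hpiv'⟩, hPI ⟨(c, piv'), hpiv'⟩⟩
    exact h.mono (hprow (F.row c) piv' hpiv') (hcont (F.row c) piv') (hC _) hr0.le (hr _)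
  -- the small radius
  choose Cc hCc hclo using fun c : ι => hclose (F.row c) (piv c)
  obtain ⟨Cm, hCm1, hCm⟩ := Chn.exists_ub Cc
  have hCm0 : 0 < Cm := zero_lt_one.trans_le hCm1
  set r₁ : ℝ := min r (ρ / Cm) with hr₁
  have hr₁0 : 0 < r₁ := lt_min hr0 (div_pos hρ hCm0)
  have hr₁r : r₁ ≤ r := min_le_left _ _
  have H : Chn.Inp F piv C₄ C r r₁ ρ :=
    { C₄0 := hC₄
      C1 := hC1
      r₁0 := hr₁0
      r₁r := hr₁r
      spec := hspec
      hpiv := hpiv
      prow_Em := fun c piv' hpiv' => hprow (F.row c) piv' hpiv'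
      cont := fun c piv' => hcont (F.row c) piv'
      prop := hprop'
      close := fun c q hq w hw => by
        refine Chn.cpd_mono (mul_nonneg (hCc c).le hr₁0.le) ?_
          (hclo c q hq r₁ ⟨hr₁0.le, hr₁r.trans hr1⟩ w hw)
        calc Cc c * r₁ ≤ Cm * (ρ / Cm) :=
              mul_le_mul (hCm c) (min_le_right _ _) hr₁0.le hCm0.le
          _ = ρ := by field_simp
      overlap := hover
      fib := hfib
      smooth := hsmooth }
  obtain ⟨D₁, hD₁1, hD₁⟩ := Chn.exists_ub fun c : ι => ∑ i, |Real.log (F.s c i)| + 1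
  refine ⟨max 1 (C * (((C * D₁ / (volume (cpd (k := n) r₁)).toReal + 1) * D₁) ^
    (Nat.card ι + 1)) * (C₄ * 81 * n / T)), r, Nat.card ι + 2, le_max_left _ _, hr0, hr1,
    fun t ht c piv' hpiv' q hq hq0 hy => ?_⟩
  refine ⟨(hprop' c piv' hpiv').1 q (Chn.cpd_mono (by norm_num) (by norm_num) hq), ?_⟩
  refine (H.final hD₁1 (fun c => by linarith [hD₁ c]) ht c hpiv' hq hq0
    (hy.trans (by norm_num))).trans ?_
  have h1 : 0 < T - t := by linarith [ht.2]
  have h2 : 0 ≤ ∑ i, |Real.log ‖prow (F.row c) i q‖| := Finset.sum_nonneg fun _ _ => abs_nonneg _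
  gcongr
  exact le_max_right _ _

end Pool.Agent.KRFG

end

section

/-!
# The convexity of torus averages

The average of a plurisubharmonic function over the tori `Re z = x`, `0 ≤ Im z_l ≤ 2π` is a convex
function of `x`.
-/

open scoped ContDiff ENNReal ComplexOrder Topology
open Set MeasureTheory Filter Pool.Agent.ToricKRF Pool.Agent.ToricKRF.G Pool.Agent.KRFS
  Pool.Agent.KRFF

namespace Pool.Agent.KRFG

namespace Torus

/-- Three points of a function of one variable: the Green function of the interval. -/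
theorem tent {f f' f'' : ℝ → ℝ} {s : ℝ} (hs : 0 < s)
    (h1 : ∀ r ∈ Icc 0 (1 + s), HasDerivAt f (f' r) r)
    (h2 : ∀ r ∈ Icc 0 (1 + s), HasDerivAt f' (f'' r) r)
    (h3 : ContinuousOn f'' (Icc 0 (1 + s))) :
    ∫ r in Icc 0 (1 + s), min (s * r) (1 + s - r) * f'' r =
      s * f 0 + f (1 + s) - (1 + s) * f 1 := by
  have hs1 : (0 : ℝ) ≤ 1 + s := by linarith
  have hw : ContinuousOn (fun r => min (s * r) (1 + s - r) * f'' r) (Icc 0 (1 + s)) :=
    (Continuous.continuousOn (by fun_prop)).mul h3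
  have i1 : IntervalIntegrable (fun r => min (s * r) (1 + s - r) * f'' r) volume 0 1 := by
    refine (hw.mono ?_).intervalIntegrable_of_Icc zero_le_one
    exact Icc_subset_Icc le_rfl (by linarith)
  have i2 : IntervalIntegrable (fun r => min (s * r) (1 + s - r) * f'' r) volume 1 (1 + s) := by
    refine (hw.mono ?_).intervalIntegrable_of_Icc (by linarith)
    exact Icc_subset_Icc zero_le_one le_rfl
  rw [integral_Icc_eq_integral_Ioc, ← intervalIntegral.integral_of_le hs1,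
    ← intervalIntegral.integral_add_adjacent_intervals i1 i2]
  have e1 : ∫ r in (0 : ℝ)..1, min (s * r) (1 + s - r) * f'' r =
      s * (1 * f' 1 - f 1) - s * (0 * f' 0 - f 0) := by
    have h : ∀ r ∈ uIcc (0 : ℝ) 1, HasDerivAt (fun r => s * (r * f' r - f r))
        (min (s * r) (1 + s - r) * f'' r) r := by
      intro r hr
      rw [uIcc_of_le zero_le_one] at hr
      have hr' : r ∈ Icc 0 (1 + s) := ⟨hr.1, by linarith [hr.2]⟩
      have e : min (s * r) (1 + s - r) = s * r := by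
        apply min_eq_left
        nlinarith [hr.1, hr.2]
      rw [e]
      have h5 := (((hasDerivAt_id r).mul (h2 r hr')).sub (h1 r hr')).const_mul s
      refine h5.congr_deriv ?_
      simp only [id]
      ring
    rw [intervalIntegral.integral_eq_sub_of_hasDerivAt h i1]
  have e2 : ∫ r in (1 : ℝ)..(1 + s), min (s * r) (1 + s - r) * f'' r =
      ((1 + s - (1 + s)) * f' (1 + s) + f (1 + s)) - ((1 + s - 1) * f' 1 + f 1) := by
    have h : ∀ r ∈ uIcc (1 : ℝ) (1 + s), HasDerivAt (fun r => (1 + s - r) * f' r + f r)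
        (min (s * r) (1 + s - r) * f'' r) r := by
      intro r hr
      rw [uIcc_of_le (by linarith)] at hr
      have hr' : r ∈ Icc 0 (1 + s) := ⟨by linarith [hr.1], hr.2⟩
      have e : min (s * r) (1 + s - r) = 1 + s - r := by
        apply min_eq_right
        nlinarith [hr.1, hr.2]
      rw [e]
      have h5 := ((((hasDerivAt_id r).const_sub (1 + s)).mul (h2 r hr'))).add (h1 r hr')
      refine h5.congr_deriv ?_
      simp only [id]
      ring
    rw [intervalIntegral.integral_eq_sub_of_hasDerivAt h i2]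
  rw [e1, e2]
  ring

/-- The integral of a derivative in the directions of the periods vanishes. -/
theorem div_zero {k : ℕ} {a b : Fin (k + 1) → ℝ} (hab : a ≤ b) (d : Fin (k + 1) → ℝ)
    {h : (Fin (k + 1) → ℝ) → ℝ} {U : Set (Fin (k + 1) → ℝ)} (hU : IsOpen U) (hsub : Icc a b ⊆ U)
    (hh : ContDiffOn ℝ 1 h U)
    (hper : ∀ l, d l ≠ 0 → ∀ y ∈ Icc a b, y l = a l →
      h (y + Pi.single l (b l - a l)) = h y) :
    ∫ y in Icc a b, fderiv ℝ h y d = 0 := by
  have hd : ∀ y ∈ U, HasFDerivAt h (fderiv ℝ h y) y := fun y hy =>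
    ((hh.differentiableOn (by norm_num)).differentiableAt (hU.mem_nhds hy)).hasFDerivAt
  have hc : ContinuousOn (fun y => fderiv ℝ h y) U := hh.continuousOn_fderiv_of_isOpen hU le_rfl
  have e0 : ∀ y, ∑ i, (d i • fderiv ℝ h y) (Pi.single i 1) = fderiv ℝ h y d := by
    intro y
    have h7 : d = ∑ i, d i • (Pi.single i (1 : ℝ) : Fin (k + 1) → ℝ) := by
      funext j
      simp [Finset.sum_apply, Pi.single_apply]
    conv_rhs => rw [h7]
    rw [map_sum]
    refine Finset.sum_congr rfl fun i _ => ?_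
    rw [map_smul]
    rfl
  have key := integral_divergence_of_hasFDerivAt_off_countable' a b hab
    (fun i y => d i * h y) (fun i y => d i • fderiv ℝ h y) ∅ countable_empty
    (fun i => (continuousOn_const.mul (hh.continuousOn.mono hsub)))
    (fun y hy i => by
      have hy' : y ∈ U := hsub ⟨fun j => (hy.1 j (mem_univ j)).1.le,
        fun j => (hy.1 j (mem_univ j)).2.le⟩
      exact (hd y hy').const_mul (d i))
    (by
      have : ContinuousOn (fun y => fderiv ℝ h y d) (Icc a b) :=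
        (hc.mono hsub).clm_apply continuousOn_const
      refine (this.integrableOn_compact isCompact_Icc).congr_fun (fun y _ => ?_)
        measurableSet_Icc
      exact (e0 y).symm)
  have e1 : ∫ y in Icc a b, fderiv ℝ h y d =
      ∫ y in Icc a b, ∑ i, (d i • fderiv ℝ h y) (Pi.single i 1) := by
    refine setIntegral_congr_fun measurableSet_Icc fun y _ => ?_
    exact (e0 y).symm
  rw [e1, key]
  refine Finset.sum_eq_zero fun i _ => ?_
  rw [sub_eq_zero]
  refine setIntegral_congr_fun measurableSet_Icc fun x hx => ?_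
  rcases eq_or_ne (d i) 0 with h0 | h0
  · simp [h0]
  · have hy : i.insertNth (a i) x ∈ Icc a b := by
      rw [Fin.insertNth_mem_Icc]
      exact ⟨⟨le_rfl, hab i⟩, hx⟩
    have h6 := hper i h0 _ hy (by simp)
    change d i * h (i.insertNth (b i) x) = d i * h (i.insertNth (a i) x)
    rw [← h6]
    congr 2
    funext j
    rcases eq_or_ne j i with rfl | hj
    · simp
    · obtain ⟨j', rfl⟩ := Fin.exists_succAbove_eq hj
      simp

theorem div_zero' {n : ℕ} {a b : Fin n → ℝ} (hab : a ≤ b) (d : Fin n → ℝ)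
    {h : (Fin n → ℝ) → ℝ} {U : Set (Fin n → ℝ)} (hU : IsOpen U) (hsub : Icc a b ⊆ U)
    (hh : ContDiffOn ℝ 1 h U)
    (hper : ∀ l, d l ≠ 0 → ∀ y ∈ Icc a b, y l = a l →
      h (y + Pi.single l (b l - a l)) = h y) :
    ∫ y in Icc a b, fderiv ℝ h y d = 0 := by
  cases n with
  | zero =>
    have : d = 0 := Subsingleton.elim _ _
    rw [this]
    simp only [map_zero, integral_zero]
  | succ k => exact div_zero hab d hU hsub hh hper

section

variable {n : ℕ} {G : Cn n → ℝ} {V : Set (Cn n)}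

theorem contDiffOn_fderiv (hV : IsOpen V) (hG : ContDiffOn ℝ ∞ G V) :
    ContDiffOn ℝ ∞ (fderiv ℝ G) V :=
  ((contDiffOn_infty_iff_fderiv_of_isOpen hV).1 hG).2

theorem hasFDerivAt_of (hV : IsOpen V) {E : Type*} [NormedAddCommGroup E] [NormedSpace ℝ E]
    {H : Cn n → E} (hH : ContDiffOn ℝ ∞ H V) {z : Cn n} (hz : z ∈ V) :
    HasFDerivAt H (fderiv ℝ H z) z :=
  ((hH.differentiableOn (by simp)).differentiableAt (hV.mem_nhds hz)).hasFDerivAt

/-- The derivative of a function with a period is periodic. -/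
theorem fderiv_period (hV : IsOpen V) {c z : Cn n} (hper : ∀ w ∈ V, w + c ∈ V → G (w + c) = G w)
    (hz : z ∈ V) (hzc : z + c ∈ V) : fderiv ℝ G (z + c) = fderiv ℝ G z := by
  rw [← fderiv_comp_add_right]
  refine Filter.EventuallyEq.fderiv_eq ?_
  have h1 : ∀ᶠ w in 𝓝 z, w ∈ V := hV.mem_nhds hz
  have h2 : ∀ᶠ w in 𝓝 z, w + c ∈ V := by
    have hc : ContinuousAt (fun w : Cn n => w + c) z := by fun_prop
    exact hc.eventually_mem (hV.mem_nhds hzc)
  filter_upwards [h1, h2] with w hw1 hw2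
  exact hper w hw1 hw2

/-- The imaginary part of the Laplacian has mean zero over the torus. -/
theorem mean_im (hV : IsOpen V) (hG : ContDiffOn ℝ ∞ G V) (I : Set (Fin n))
    (hper : ∀ z ∈ V, ∀ l ∈ I,
      (z.1, z.2 + Pi.single l (2 * Real.pi)) ∈ V → G (z.1, z.2 + Pi.single l (2 * Real.pi)) = G z)
    {α' β' : Fin n → ℝ} (hαβ' : α' ≤ β')
    (hI : ∀ l ∈ I, β' l = α' l + 2 * Real.pi) {d : Fin n → ℝ} (hd : ∀ l ∉ I, d l = 0)
    {x : Fin n → ℝ} (hx : ∀ y ∈ Icc α' β', (x, y) ∈ V) :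
    ∫ y in Icc α' β', fderiv ℝ (fderiv ℝ G) (x, y) (0, d) (0, d) = 0 := by
  have hU : IsOpen {y : Fin n → ℝ | (x, y) ∈ V} :=
    hV.preimage (continuous_const.prodMk continuous_id)
  have hG1 := contDiffOn_fderiv hV hG
  have hh : ContDiffOn ℝ ∞ (fun y : Fin n → ℝ => fderiv ℝ G (x, y) (0, d)) {y | (x, y) ∈ V} := by
    refine ContDiffOn.clm_apply ?_ contDiffOn_const
    exact hG1.comp (contDiff_const.prodMk contDiff_id).contDiffOn fun y hy => hy
  have key := div_zero' hαβ' d hU hx (hh.of_le (by simp)) (by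
    intro l hl y hy hyl
    have hlI : l ∈ I := by
      by_contra h
      exact hl (hd l h)
    have e1 : β' l - α' l = 2 * Real.pi := by
      rw [hI l hlI]
      ring
    rw [e1]
    have e2 : ((x, y + Pi.single l (2 * Real.pi)) : Cn n) =
        (x, y) + (0, Pi.single l (2 * Real.pi)) := by
      simp
    have hy2 : y + Pi.single l (2 * Real.pi) ∈ Icc α' β' := by
      constructor
      · intro j
        rcases eq_or_ne j l with rfl | hj
        · have := hy.1 j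
          have := Real.pi_pos
          simp only [Pi.add_apply, Pi.single_eq_same]
          linarith
        · simpa [hj] using hy.1 j
      · intro j
        rcases eq_or_ne j l with rfl | hj
        · simp only [Pi.add_apply, Pi.single_eq_same]
          rw [hyl, hI j hlI]
        · simpa [hj] using hy.2 j
    have h3 : fderiv ℝ G ((x, y) + (0, Pi.single l (2 * Real.pi))) = fderiv ℝ G (x, y) := by
      refine fderiv_period hV ?_ (hx y hy) ?_
      · intro w hw hwc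
        have e3 : w + ((0 : Fin n → ℝ), (Pi.single l (2 * Real.pi) : Fin n → ℝ)) =
            (w.1, w.2 + Pi.single l (2 * Real.pi)) := by
          ext <;> simp
        rw [e3] at hwc ⊢
        exact hper w hw l hlI hwc
      · rw [← e2]
        exact hx _ hy2
    rw [e2, h3])
  rw [← key]
  refine setIntegral_congr_fun measurableSet_Icc fun y hy => ?_
  have h4 : HasFDerivAt (fun y : Fin n → ℝ => ((x, y) : Cn n))
      (ContinuousLinearMap.inr ℝ (Fin n → ℝ) (Fin n → ℝ)) y := hasFDerivAt_prodMk_right x y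
  have h5 := (hasFDerivAt_of hV hG1 (hx y hy)).comp y h4
  have h6 := h5.clm_apply (hasFDerivAt_const ((0, d) : Cn n) y)
  have h7 : fderiv ℝ (fun y : Fin n → ℝ => fderiv ℝ G (x, y) (0, d)) y d =
      fderiv ℝ (fderiv ℝ G) (x, y) (0, d) (0, d) := by
    have h8 := h6.fderiv
    have h9 : (fun y : Fin n → ℝ => (fderiv ℝ G ∘ fun y => (x, y)) y ((0, d) : Cn n)) =
      fun y => fderiv ℝ G (x, y) (0, d) := rfl
    rw [h9] at h8
    rw [h8]
    simp
  exact h7.symm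

/-- The mean of the second derivative of a psh function in a real direction is nonnegative. -/
theorem mean_nonneg (hV : IsOpen V) (hG : ContDiffOn ℝ ∞ G V)
    (hpsh : ∀ z ∈ V, ∀ u, 0 ≤ levz G u z) (I : Set (Fin n))
    (hper : ∀ z ∈ V, ∀ l ∈ I,
      (z.1, z.2 + Pi.single l (2 * Real.pi)) ∈ V → G (z.1, z.2 + Pi.single l (2 * Real.pi)) = G z)
    {α β α' β' : Fin n → ℝ} (hαβ' : α' ≤ β')
    (hI : ∀ l ∈ I, β' l = α' l + 2 * Real.pi) {d : Fin n → ℝ} (hd : ∀ l ∉ I, d l = 0)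
    {r : ℝ} (hsub : ∀ z ∈ Icc α β ×ˢ Icc α' β', (z.1 + r • d, z.2) ∈ V) :
    0 ≤ ∫ z in Icc α β ×ˢ Icc α' β',
      fderiv ℝ (fderiv ℝ G) (z.1 + r • d, z.2) (d, 0) (d, 0) := by
  have hB : IsCompact (Icc α β ×ˢ Icc α' β') := isCompact_Icc.prod isCompact_Icc
  have hBm : MeasurableSet (Icc α β ×ˢ Icc α' β') := measurableSet_Icc.prod measurableSet_Icc
  have hG2 := contDiffOn_fderiv hV hG
  have hG3 : ContinuousOn (fderiv ℝ (fderiv ℝ G)) V :=
    (hG2.of_le (by simp)).continuousOn_fderiv_of_isOpen hV le_rfl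
  have hmap : ContinuousOn (fun z : Cn n => ((z.1 + r • d, z.2) : Cn n))
      (Icc α β ×ˢ Icc α' β') := Continuous.continuousOn (by fun_prop)
  have hc : ∀ u : Cn n, IntegrableOn (fun z : Cn n =>
      fderiv ℝ (fderiv ℝ G) (z.1 + r • d, z.2) u u) (Icc α β ×ˢ Icc α' β') := by
    intro u
    refine ContinuousOn.integrableOn_compact hB ?_
    exact ((hG3.comp hmap hsub).clm_apply continuousOn_const).clm_apply continuousOn_const
  have h0 : ∫ z in Icc α β ×ˢ Icc α' β',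
      fderiv ℝ (fderiv ℝ G) (z.1 + r • d, z.2) (0, d) (0, d) = 0 := by
    rw [Measure.volume_eq_prod, setIntegral_prod _ (by
      rw [← Measure.volume_eq_prod]
      exact hc (0, d))]
    rw [setIntegral_congr_fun measurableSet_Icc (g := fun _ => (0 : ℝ))]
    · simp
    · intro x hx
      exact mean_im hV hG I hper hαβ' hI hd (x := x + r • d) fun y hy => hsub (x, y) ⟨hx, hy⟩
  have h1 : ∫ z in Icc α β ×ˢ Icc α' β',
      -fderiv ℝ (fderiv ℝ G) (z.1 + r • d, z.2) (0, d) (0, d) ≤ ∫ z in Icc α β ×ˢ Icc α' β',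
      fderiv ℝ (fderiv ℝ G) (z.1 + r • d, z.2) (d, 0) (d, 0) := by
    refine setIntegral_mono_on (hc (0, d)).neg (hc (d, 0)) hBm fun z hz => ?_
    have h2 := hpsh _ (hsub z hz) (d, 0)
    rw [Bd.levz_eq_hess hV hG (hsub z hz)] at h2
    have h3 : J ((d, 0) : Cn n) = (0, d) := by
      simp [J]
    rw [h3] at h2
    linarith
  rw [integral_neg, h0, neg_zero] at h1
  exact h1

end

end Torus

set_option linter.unusedVariables false in
open Torus in
/-- **Convexity of torus averages.** -/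
theorem torus_convex {n : ℕ} {G : Cn n → ℝ} {V : Set (Cn n)} (hV : IsOpen V)
    (hG : ContDiffOn ℝ ∞ G V) (hneg : ∀ z ∈ V, G z ≤ 0) (hpsh : ∀ z ∈ V, ∀ u, 0 ≤ levz G u z)
    (I : Set (Fin n)) (hper : ∀ z ∈ V, ∀ l ∈ I,
      (z.1, z.2 + Pi.single l (2 * Real.pi)) ∈ V → G (z.1, z.2 + Pi.single l (2 * Real.pi)) = G z)
    {α β α' β' : Fin n → ℝ} (hαβ : α ≤ β) (hαβ' : α' ≤ β')
    (hI : ∀ l ∈ I, β' l = α' l + 2 * Real.pi) {d : Fin n → ℝ} (hd : ∀ l ∉ I, d l = 0)
    {s : ℝ} (hs : 0 < s)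
    (hsub : ∀ r ∈ Icc 0 (1 + s), ∀ z ∈ Icc α β ×ˢ Icc α' β', (z.1 + r • d, z.2) ∈ V) :
    ∫ z in Icc α β ×ˢ Icc α' β', -G z ≤
      (1 + s) / s * ∫ z in Icc α β ×ˢ Icc α' β', -G (z.1 + d, z.2) := by
  have hB : IsCompact (Icc α β ×ˢ Icc α' β') := isCompact_Icc.prod isCompact_Icc
  have hBm : MeasurableSet (Icc α β ×ˢ Icc α' β') := measurableSet_Icc.prod measurableSet_Icc
  have hG2 := contDiffOn_fderiv hV hG
  have hG3 : ContinuousOn (fderiv ℝ (fderiv ℝ G)) V :=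
    (hG2.of_le (by simp)).continuousOn_fderiv_of_isOpen hV le_rfl
  set K : Set ℝ := Icc 0 (1 + s) with hK
  set B : Set (Cn n) := Icc α β ×ˢ Icc α' β' with hBdef
  have hint : ∀ r ∈ K, IntegrableOn (fun z : Cn n => G (z.1 + r • d, z.2)) B := by
    intro r hr
    refine ContinuousOn.integrableOn_compact hB ?_
    exact hG.continuousOn.comp (Continuous.continuousOn (by fun_prop)) (hsub r hr)
  -- the pointwise formula
  have hpt : ∀ z ∈ B, ∫ r in K, min (s * r) (1 + s - r) *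
      fderiv ℝ (fderiv ℝ G) (z.1 + r • d, z.2) (d, 0) (d, 0) =
      s * G z + G (z.1 + (1 + s) • d, z.2) - (1 + s) * G (z.1 + d, z.2) := by
    intro z hz
    have hline : ∀ r : ℝ, HasDerivAt (fun r : ℝ => ((z.1 + r • d, z.2) : Cn n)) (d, 0) r := by
      intro r
      have h1 : HasDerivAt (fun r : ℝ => z.1 + r • d) d r := by
        have := ((hasDerivAt_id r).smul_const d).const_add z.1
        simpa using this
      exact h1.prodMk (hasDerivAt_const r z.2)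
    have h1 : ∀ r ∈ K, HasDerivAt (fun r : ℝ => G (z.1 + r • d, z.2))
        (fderiv ℝ G (z.1 + r • d, z.2) (d, 0)) r := fun r hr =>
      (hasFDerivAt_of hV hG (hsub r hr z hz)).comp_hasDerivAt r (hline r)
    have h2 : ∀ r ∈ K, HasDerivAt (fun r : ℝ => fderiv ℝ G (z.1 + r • d, z.2) (d, 0))
        (fderiv ℝ (fderiv ℝ G) (z.1 + r • d, z.2) (d, 0) (d, 0)) r := by
      intro r hr
      have h3 := (hasFDerivAt_of hV hG2 (hsub r hr z hz)).comp_hasDerivAt r (hline r)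
      have h4 := h3.clm_apply (hasDerivAt_const r ((d, 0) : Cn n))
      simpa using h4
    have h3 : ContinuousOn (fun r : ℝ =>
        fderiv ℝ (fderiv ℝ G) (z.1 + r • d, z.2) (d, 0) (d, 0)) K := by
      refine ((hG3.comp (Continuous.continuousOn (by fun_prop)) fun r hr =>
        hsub r hr z hz).clm_apply continuousOn_const).clm_apply continuousOn_const
    have h4 := tent hs h1 h2 h3
    rw [hK, h4]
    simp
  -- Fubini
  have hfub : IntegrableOn (Function.uncurry fun (z : Cn n) (r : ℝ) => min (s * r) (1 + s - r) *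
      fderiv ℝ (fderiv ℝ G) (z.1 + r • d, z.2) (d, 0) (d, 0)) (B ×ˢ K) := by
    refine ContinuousOn.integrableOn_compact (hB.prod isCompact_Icc) ?_
    refine ContinuousOn.mul (Continuous.continuousOn (by fun_prop)) ?_
    refine ((hG3.comp (f := fun p : Cn n × ℝ => ((p.1.1 + p.2 • d, p.1.2) : Cn n))
      (Continuous.continuousOn (by fun_prop)) fun p hp => hsub p.2 hp.2 p.1 hp.1).clm_apply
        continuousOn_const).clm_apply continuousOn_const
  have hswap : ∫ z in B, ∫ r in K, min (s * r) (1 + s - r) *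
      fderiv ℝ (fderiv ℝ G) (z.1 + r • d, z.2) (d, 0) (d, 0) =
      ∫ r in K, ∫ z in B, min (s * r) (1 + s - r) *
      fderiv ℝ (fderiv ℝ G) (z.1 + r • d, z.2) (d, 0) (d, 0) := by
    refine integral_integral_swap ?_
    rw [Measure.prod_restrict, ← Measure.volume_eq_prod]
    exact hfub
  have hpos : 0 ≤ ∫ z in B, ∫ r in K, min (s * r) (1 + s - r) *
      fderiv ℝ (fderiv ℝ G) (z.1 + r • d, z.2) (d, 0) (d, 0) := by
    rw [hswap]
    refine setIntegral_nonneg measurableSet_Icc fun r hr => ?_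
    rw [integral_const_mul]
    refine mul_nonneg (le_min (mul_nonneg hs.le hr.1) (by linarith [hr.2])) ?_
    exact mean_nonneg hV hG hpsh I hper hαβ' hI hd fun z hz => hsub r hr z hz
  have hz0 : (0 : ℝ) ∈ K := ⟨le_rfl, by linarith⟩
  have hz1 : (1 : ℝ) ∈ K := ⟨zero_le_one, by linarith⟩
  have hz2 : (1 + s : ℝ) ∈ K := ⟨by linarith, le_rfl⟩
  have i0 : IntegrableOn G B := by
    have := hint 0 hz0
    simpa using this
  have i1 : IntegrableOn (fun z : Cn n => G (z.1 + d, z.2)) B := by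
    have := hint 1 hz1
    simpa using this
  have i2 := hint (1 + s) hz2
  have hneg2 : ∫ z in B, G (z.1 + (1 + s) • d, z.2) ≤ 0 :=
    setIntegral_nonpos hBm fun z hz => hneg _ (hsub (1 + s) hz2 z hz)
  have hsum : ∫ z in B, ∫ r in K, min (s * r) (1 + s - r) *
      fderiv ℝ (fderiv ℝ G) (z.1 + r • d, z.2) (d, 0) (d, 0) =
      s * (∫ z in B, G z) + (∫ z in B, G (z.1 + (1 + s) • d, z.2)) -
        (1 + s) * ∫ z in B, G (z.1 + d, z.2) := by
    rw [setIntegral_congr_fun hBm hpt, integral_sub, integral_add, integral_const_mul,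
      integral_const_mul]
    · exact i0.const_mul s
    · exact i2
    · exact (i0.const_mul s).add i2
    · exact i1.const_mul (1 + s)
  rw [hsum] at hpos
  rw [integral_neg, integral_neg, div_mul_eq_mul_div, le_div_iff₀ hs]
  nlinarith

end Pool.Agent.KRFG

end
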