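import Pool.Agent.Work.MP_a2bf38_gt.Fu.K.Setup
import Pool.Agent.Work.MP_a2bf38_gt.Fu.K.EmReach
import Pool.Agent.Work.MP_a2bf38_gt.Fu.K.Torus
import Pool.Agent.Work.MP_a2bf38_gt.Fu.I.PshMean
import Pool.Agent.Work.MP_a2bf38_gt.Fu.I.Overlap
import Pool.Agent.Work.MP_a2bf38_gt.Fu.I.Split
import Pool.Agent.Work.MP_a2bf38_gt.Fu.I.PshCut

section

/-!
# Propagation of a lower bound along a fibre: the argument

`Prp.core` is `propagate` with the results of `K/EmReach.lean`, `K/Torus.lean` and `K/Harnack.lean`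
as hypotheses.
-/

open scoped ContDiff ENNReal ComplexOrder Topology
open Set MeasureTheory Filter Pool.Agent.ToricKRF Pool.Agent.ToricKRF.G Pool.Agent.KRFS
  Pool.Agent.KRFF

namespace Pool.Agent.KRFG.Prp

variable {n m : ℕ}

/-! ### norms of coordinates -/

theorem normsq_cc (x : Cn n) (l : Fin n) : ‖cc x l‖ ^ 2 = x.1 l ^ 2 + x.2 l ^ 2 := by
  rw [← Complex.normSq_eq_norm_sq]
  simp [cc, Complex.normSq_apply, sq]

theorem mem_opd_of {x : Cn n} {r : ℝ} (h : ∀ l, ‖cc x l‖ < r) : x ∈ opd r := by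
  intro l
  rw [← normsq_cc]
  exact pow_lt_pow_left₀ (h l) (norm_nonneg _) two_ne_zero

theorem norm_cc_le {x : Cn n} {r : ℝ} (hr : 0 ≤ r) (h : x ∈ cpd (k := n) r) (l : Fin n) :
    ‖cc x l‖ ≤ r := by
  have := h l
  rw [← normsq_cc] at this
  exact (sq_le_sq₀ (norm_nonneg _) hr).1 this

theorem mem_cpd_of {x : Cn n} {r : ℝ} (h : ∀ l, ‖cc x l‖ ≤ r) : x ∈ cpd (k := n) r := by
  intro l
  rw [← normsq_cc]
  exact pow_le_pow_left₀ (norm_nonneg _) (h l) 2

theorem abs_fst_le (x : Cn n) (l : Fin n) : |x.1 l| ≤ ‖cc x l‖ := Complex.abs_re_le_norm (cc x l)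

theorem abs_snd_le (x : Cn n) (l : Fin n) : |x.2 l| ≤ ‖cc x l‖ := Complex.abs_im_le_norm (cc x l)

theorem norm_cc_le_add (x : Cn n) (l : Fin n) : ‖cc x l‖ ≤ |x.1 l| + |x.2 l| :=
  Complex.norm_le_abs_re_add_abs_im (cc x l)

theorem cc_add (x y : Cn n) (l : Fin n) : cc (x + y) l = cc x l + cc y l := by
  apply Complex.ext <;> simp [cc]

theorem cc_sub (x y : Cn n) (l : Fin n) : cc (x - y) l = cc x l - cc y l := by
  apply Complex.ext <;> simp [cc]

theorem cc_smul (c : ℝ) (x : Cn n) (l : Fin n) : cc (c • x) l = c * cc x l := by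
  apply Complex.ext <;> simp [cc]

theorem continuous_cc (l : Fin n) : Continuous fun x : Cn n => cc x l := by
  have : (fun x : Cn n => cc x l) = fun x : Cn n => ((x.1 l : ℂ) + (x.2 l : ℂ) * Complex.I) := by
    funext x
    apply Complex.ext <;> simp [cc]
  rw [this]
  fun_prop

theorem isOpen_opd (r : ℝ) : IsOpen (opd (k := n) r) := by
  have : (opd (k := n) r) = ⋂ i, {u : Cn n | u.1 i ^ 2 + u.2 i ^ 2 < r ^ 2} := by
    ext u; simp [opd]
  rw [this]
  exact isOpen_iInter_of_finite fun i => isOpen_lt (by fun_prop) continuous_const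

theorem isClosed_cpd (r : ℝ) : IsClosed (cpd (k := n) r) := by
  have : (cpd (k := n) r) = ⋂ i, {u : Cn n | u.1 i ^ 2 + u.2 i ^ 2 ≤ r ^ 2} := by
    ext u; simp [cpd]
  rw [this]
  exact isClosed_iInter fun i => isClosed_le (by fun_prop) continuous_const

theorem isCompact_cpd (r : ℝ) (hr : 0 ≤ r) : IsCompact (cpd (k := n) r) := by
  have hK : IsCompact ((Icc (fun _ => -r) (fun _ => r) : Set (Fin n → ℝ)) ×ˢ
      (Icc (fun _ => -r) (fun _ => r) : Set (Fin n → ℝ))) := isCompact_Icc.prod isCompact_Icc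
  refine hK.of_isClosed_subset (isClosed_cpd r) fun u hu => ?_
  have h1 : ∀ l, |u.1 l| ≤ r := fun l => (abs_fst_le u l).trans (norm_cc_le hr hu l)
  have h2 : ∀ l, |u.2 l| ≤ r := fun l => (abs_snd_le u l).trans (norm_cc_le hr hu l)
  exact ⟨⟨fun l => (abs_le.1 (h1 l)).1, fun l => (abs_le.1 (h1 l)).2⟩,
    ⟨fun l => (abs_le.1 (h2 l)).1, fun l => (abs_le.1 (h2 l)).2⟩⟩

theorem isCompact_shift {r : ℝ} (hr : 0 ≤ r) (c : Cn n) :
    IsCompact {z : Cn n | z - c ∈ cpd (k := n) r} :=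
  (Homeomorph.subRight c).isCompact_preimage.2 (isCompact_cpd r hr)

/-! ### the coordinates of `Em` -/

variable {row : Fin n → Option (Fin m)} {piv : Fin m → Fin n}

theorem cc_ofC (z : Fin n → ℂ) (l : Fin n) : cc (ofC z) l = z l := by
  apply Complex.ext <;> simp [cc, ofC]

theorem cc_Em_none {q w : Cn n} {l : Fin n} (h : row l = none) :
    cc (Em row piv q w) l = cc q l + cc w l := by
  rw [Em, cc_ofC]
  simp only [h]

theorem cc_Em_np {q w : Cn n} {l : Fin n} {i : Fin m} (h : row l = some i) (hl : l ≠ piv i) :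
    cc (Em row piv q w) l = cc q l * Complex.exp (cc w l) := by
  rw [Em, cc_ofC]
  simp only [h, hl, if_false]

open Classical in
theorem cc_Em_piv {q w : Cn n} {i : Fin m} (h : row (piv i) = some i) :
    cc (Em row piv q w) (piv i) = cc q (piv i) *
      Complex.exp (-∑ l', if row l' = some i ∧ l' ≠ piv i then cc w l' else 0) := by
  rw [Em, cc_ofC]
  simp only [h, if_true]

open Classical in
/-- the real parts which belong to the pivot of the row `i` -/
noncomputable def ps (row : Fin n → Option (Fin m)) (piv : Fin m → Fin n) (i : Fin m)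
    (x : Fin n → ℝ) : ℝ := -∑ l', if row l' = some i ∧ l' ≠ piv i then x l' else 0

theorem norm_Em_np {q w : Cn n} {l : Fin n} {i : Fin m} (h : row l = some i) (hl : l ≠ piv i) :
    ‖cc (Em row piv q w) l‖ = ‖cc q l‖ * Real.exp (w.1 l) := by
  rw [cc_Em_np h hl, norm_mul, Complex.norm_exp]
  rfl

theorem norm_Em_piv {q w : Cn n} {i : Fin m} (h : row (piv i) = some i) :
    ‖cc (Em row piv q w) (piv i)‖ = ‖cc q (piv i)‖ * Real.exp (ps row piv i w.1) := by
  classical
  rw [cc_Em_piv h, norm_mul, Complex.norm_exp, ps, Complex.neg_re, Complex.re_sum]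
  congr 3
  refine Finset.sum_congr (by rfl) fun l _ => ?_
  by_cases h' : row l = some i ∧ l ≠ piv i
  · rw [if_pos h', if_pos h']
    rfl
  · rw [if_neg h', if_neg h', Complex.zero_re]

theorem ps_sub_mul (i : Fin m) (x y : Fin n → ℝ) (ρ δ : ℝ) (hδ : 0 ≤ δ)
    (h : ∀ l i, row l = some i → l ≠ piv i → |x l - ρ * y l| ≤ δ) :
    |ps row piv i x - ρ * ps row piv i y| ≤ n * δ := by
  classical
  have h1 : ps row piv i x - ρ * ps row piv i y =
      -∑ l', if row l' = some i ∧ l' ≠ piv i then x l' - ρ * y l' else 0 := by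
    rw [ps, ps, mul_neg, sub_neg_eq_add, neg_add_eq_sub, Finset.mul_sum, ← neg_sub,
      ← Finset.sum_sub_distrib]
    congr 1
    refine Finset.sum_congr rfl fun l _ => ?_
    split_ifs <;> ring
  rw [h1, abs_neg]
  refine (Finset.abs_sum_le_sum_abs _ _).trans ?_
  have h2 : ∀ l' ∈ (Finset.univ : Finset (Fin n)),
      |if row l' = some i ∧ l' ≠ piv i then x l' - ρ * y l' else 0| ≤ δ := by
    intro l' _
    split_ifs with hh
    · exact h l' i hh.1 hh.2
    · simpa using hδ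
  refine (Finset.sum_le_sum h2).trans ?_
  simp

theorem abs_ps_le (i : Fin m) (x : Fin n → ℝ) (R : ℝ) (hR : 0 ≤ R)
    (h : ∀ l i, row l = some i → l ≠ piv i → |x l| ≤ R) : |ps row piv i x| ≤ n * R := by
  have := ps_sub_mul (row := row) (piv := piv) i x 0 0 R hR (fun l j h1 h2 => by
    simpa using h l j h1 h2)
  simpa using this

theorem Em_mem_opd {q w : Cn n} (hpiv : ∀ i, row (piv i) = some i)
    (h1 : ∀ l i, row l = some i → l ≠ piv i → ‖cc q l‖ * Real.exp (w.1 l) < 9)
    (h2 : ∀ i, ‖cc q (piv i)‖ * Real.exp (ps row piv i w.1) < 9)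
    (h3 : ∀ l, row l = none → ‖cc q l + cc w l‖ < 9) : Em row piv q w ∈ opd 9 := by
  refine mem_opd_of fun l => ?_
  rcases hl : row l with _ | i
  · rw [cc_Em_none hl]
    exact h3 l hl
  · by_cases hp : l = piv i
    · subst hp
      rw [norm_Em_piv (hpiv i)]
      exact h2 i
    · rw [norm_Em_np hl hp]
      exact h1 l i hl hp

theorem exp_bound {x a b ρ s A : ℝ} (hx : 0 ≤ x) (hx2 : x ≤ 2) (hxa : x * Real.exp a ≤ 2)
    (ha : |a| ≤ A) (hs : 0 ≤ s) (hsA : s * A ≤ 1 / 2) (hρ : ρ ∈ Icc 0 (1 + s))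
    (hb : |b - ρ * a| ≤ 1 / 2) : x * Real.exp b < 9 := by
  have h1 : x * Real.exp (ρ * a) ≤ 2 * Real.exp (1 / 2) := by
    have he : 1 ≤ Real.exp (1 / 2 : ℝ) := Real.one_le_exp (by norm_num)
    rcases le_total a 0 with h | h
    · have : Real.exp (ρ * a) ≤ 1 := Real.exp_le_one_iff.2 (mul_nonpos_of_nonneg_of_nonpos hρ.1 h)
      nlinarith [Real.exp_pos (ρ * a)]
    · have h2 : ρ * a ≤ a + 1 / 2 := by
        have : ρ * a ≤ (1 + s) * a := mul_le_mul_of_nonneg_right hρ.2 h
        have h3 : s * a ≤ s * A := mul_le_mul_of_nonneg_left ((le_abs_self a).trans ha) hs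
        nlinarith
      calc x * Real.exp (ρ * a) ≤ x * Real.exp (a + 1 / 2) :=
            mul_le_mul_of_nonneg_left (Real.exp_le_exp.2 h2) hx
        _ = x * Real.exp a * Real.exp (1 / 2) := by rw [Real.exp_add]; ring
        _ ≤ 2 * Real.exp (1 / 2) := mul_le_mul_of_nonneg_right hxa (Real.exp_pos _).le
  have h2 : Real.exp b ≤ Real.exp (ρ * a) * Real.exp (1 / 2) := by
    rw [← Real.exp_add]
    exact Real.exp_le_exp.2 (by linarith [(abs_le.1 hb).2])
  have h3 : Real.exp (1 / 2 : ℝ) * Real.exp (1 / 2) = Real.exp 1 := by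
    rw [← Real.exp_add]; norm_num
  calc x * Real.exp b ≤ x * (Real.exp (ρ * a) * Real.exp (1 / 2)) :=
        mul_le_mul_of_nonneg_left h2 hx
    _ = x * Real.exp (ρ * a) * Real.exp (1 / 2) := by ring
    _ ≤ 2 * Real.exp (1 / 2) * Real.exp (1 / 2) :=
        mul_le_mul_of_nonneg_right h1 (Real.exp_pos _).le
    _ = 2 * Real.exp 1 := by rw [mul_assoc, h3]
    _ < 9 := by nlinarith [Real.exp_one_lt_d9]

/-- the path from `q` to `p` stays in the polydisc -/
theorem path_mem (hpiv : ∀ i, row (piv i) = some i) {p q w₁ : Cn n} {R r s : ℝ}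
    (hp : p ∈ cpd (k := n) 2) (hq : q ∈ cpd (k := n) 2) (hw : Em row piv q w₁ = p) (hR : 0 ≤ R)
    (hR1 : ∀ l i, row l = some i → l ≠ piv i → |w₁.1 l| ≤ R) (hs : 0 ≤ s)
    (hsR : s * ((n + 1) * R) ≤ 1 / 2) (hr : 0 ≤ r) (hr' : (n + 1) * (4 * r) ≤ 1 / 2)
    {w : Cn n} {ρ : ℝ} (hρ : ρ ∈ Icc 0 (1 + s))
    (h1 : ∀ l i, row l = some i → l ≠ piv i → |w.1 l - ρ * w₁.1 l| ≤ 4 * r)
    (h3 : ∀ l, row l = none → ‖cc q l + cc w l‖ < 9) : Em row piv q w ∈ opd 9 := by
  have hn : (0:ℝ) ≤ n := Nat.cast_nonneg n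
  have hq2 := norm_cc_le (by norm_num) hq
  have hp2 := norm_cc_le (by norm_num) hp
  refine Em_mem_opd hpiv (fun l i hl hlp => ?_) (fun i => ?_) h3
  · refine exp_bound (a := w₁.1 l) (ρ := ρ) (s := s) (A := R) (norm_nonneg _) (hq2 l) ?_
      (hR1 l i hl hlp) hs ?_ hρ ?_
    · rw [← norm_Em_np hl hlp, hw]
      exact hp2 l
    · refine le_trans (mul_le_mul_of_nonneg_left ?_ hs) hsR
      nlinarith
    · refine (h1 l i hl hlp).trans ?_
      nlinarith
  · refine exp_bound (a := ps row piv i w₁.1) (ρ := ρ) (s := s) (A := (n + 1) * R)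
      (norm_nonneg _) (hq2 _) ?_ ?_ hs hsR hρ ?_
    · rw [← norm_Em_piv (hpiv i), hw]
      exact hp2 _
    · refine (abs_ps_le i _ R hR hR1).trans ?_
      nlinarith
    · refine (ps_sub_mul i _ _ ρ (4 * r) (by positivity) h1).trans ?_
      nlinarith

/-- a small neighbourhood of `q` stays in the polydisc -/
theorem near_mem (hpiv : ∀ i, row (piv i) = some i) {q w : Cn n} {r : ℝ}
    (hq : q ∈ cpd (k := n) 2) (hr : 0 ≤ r) (hr' : (n + 1) * (4 * r) ≤ 1 / 2)
    (hw : w ∈ cpd (k := n) r) : Em row piv q w ∈ opd 9 := by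
  have hn : (0:ℝ) ≤ n := Nat.cast_nonneg n
  have hr1 : r ≤ 1 := by nlinarith
  have h0 : ∀ l', cc (0 : Cn n) l' = 0 := fun l' => by
    apply Complex.ext <;> simp [cc]
  have hz : Em row piv q 0 = q := by
    have : ∀ l, cc (Em row piv q 0) l = cc q l := by
      intro l
      rcases hl : row l with _ | i
      · rw [cc_Em_none hl, h0, add_zero]
      · by_cases hp : l = piv i
        · subst hp
          rw [cc_Em_piv (hpiv i)]
          simp [h0]
        · rw [cc_Em_np hl hp]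
          simp [h0]
    refine Prod.ext (funext fun l => ?_) (funext fun l => ?_)
    · exact congrArg Complex.re (this l)
    · exact congrArg Complex.im (this l)
  refine path_mem hpiv (p := q) (w₁ := 0) (R := 0) (r := r) (s := 0) hq hq hz le_rfl
    (fun l i _ _ => by simp) le_rfl (by norm_num) hr hr' (ρ := 0) ⟨le_rfl, by norm_num⟩
    (fun l i _ _ => ?_) (fun l _ => ?_)
  · have := (abs_fst_le w l).trans (norm_cc_le hr hw l)
    simp only [Prod.fst_zero, Pi.zero_apply, mul_zero, sub_zero]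
    linarith
  · have h1 := norm_cc_le (by norm_num) hq l
    have h2 := norm_cc_le hr hw l
    linarith [norm_add_le (cc q l) (cc w l)]

/-! ### integrals over a covered set -/

theorem integral_cover {X : Type*} [MeasurableSpace X] {μ : Measure X} {ι : Type*} (t : Finset ι)
    (A : ι → Set X) (hA : ∀ c ∈ t, MeasurableSet (A c)) {B : Set X} (hB : B ⊆ ⋃ c ∈ t, A c)
    {F : X → ℝ} (hF : ∀ c ∈ t, ∀ x ∈ A c, 0 ≤ F x) (hi : ∀ c ∈ t, IntegrableOn F (A c) μ) :
    ∫ x in B, F x ∂μ ≤ ∑ c ∈ t, ∫ x in A c, F x ∂μ := by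
  have hle : μ.restrict B ≤ ∑ c ∈ t, μ.restrict (A c) := by
    refine Measure.le_iff.2 fun s hs => ?_
    rw [Measure.restrict_apply hs, Measure.finsetSum_apply]
    calc μ (s ∩ B) ≤ μ (⋃ c ∈ t, s ∩ A c) := by
          refine measure_mono fun x hx => ?_
          obtain ⟨c, hc, hxc⟩ := mem_iUnion₂.1 (hB hx.2)
          exact mem_iUnion₂.2 ⟨c, hc, hx.1, hxc⟩
      _ ≤ ∑ c ∈ t, μ (s ∩ A c) := measure_biUnion_finset_le _ _
      _ = ∑ c ∈ t, (μ.restrict (A c)) s := by
          refine Finset.sum_congr rfl fun c _ => ?_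
          rw [Measure.restrict_apply hs]
  have hint : Integrable F (∑ c ∈ t, μ.restrict (A c)) := by
    rw [integrable_finsetSum_measure]
    exact hi
  have hnn : 0 ≤ᵐ[∑ c ∈ t, μ.restrict (A c)] F := by
    rw [EventuallyLE, ae_iff, Measure.finsetSum_apply, Finset.sum_eq_zero]
    intro c hc
    have : ∀ᵐ x ∂(μ.restrict (A c)), (0 : X → ℝ) x ≤ F x :=
      (ae_restrict_iff' (hA c hc)).2 (Eventually.of_forall fun x hx => hF c hc x hx)
    exact ae_iff.1 this
  calc ∫ x in B, F x ∂μ ≤ ∫ x, F x ∂(∑ c ∈ t, μ.restrict (A c)) :=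
        integral_mono_measure hle hnn hint
    _ = ∑ c ∈ t, ∫ x in A c, F x ∂μ := integral_finsetSum_measure hi

/-! ### the argument -/

/-- the non-pivot coordinates of the rows -/
def Iset (row : Fin n → Option (Fin m)) (piv : Fin m → Fin n) : Set (Fin n) :=
  {l | ∃ i, row l = some i ∧ l ≠ piv i}

open Classical in
/-- the real translation from `0` to `w₁` -/
noncomputable def dd (row : Fin n → Option (Fin m)) (piv : Fin m → Fin n) (w₁ : Cn n) :
    Fin n → ℝ := fun l => if l ∈ Iset row piv then w₁.1 l else 0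

open Classical in
/-- the upper bound of the imaginary parts -/
noncomputable def bb (row : Fin n → Option (Fin m)) (piv : Fin m → Fin n) (r : ℝ) :
    Fin n → ℝ := fun l => if l ∈ Iset row piv then -r + 2 * Real.pi else r

/-- the box -/
noncomputable def box (row : Fin n → Option (Fin m)) (piv : Fin m → Fin n) (r : ℝ) :
    Set (Cn n) := Icc (fun _ => -r) (fun _ => r) ×ˢ Icc (fun _ => -r) (bb row piv r)

theorem isCompact_box (r : ℝ) : IsCompact (box row piv r) := isCompact_Icc.prod isCompact_Icc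

theorem bb_ge {r : ℝ} (hr : r ≤ 1) (l : Fin n) : r ≤ bb row piv r l := by
  unfold bb
  split_ifs
  · linarith [Real.pi_gt_three]
  · exact le_rfl

theorem bb_le {r : ℝ} (hr : 0 ≤ r) (l : Fin n) : bb row piv r l ≤ 2 * Real.pi + r := by
  unfold bb
  split_ifs
  · linarith
  · linarith [Real.pi_pos]

theorem cpd_subset_box {r : ℝ} (hr : 0 ≤ r) (hr1 : r ≤ 1) : cpd (k := n) r ⊆ box row piv r := by
  intro u hu
  have h1 : ∀ l, |u.1 l| ≤ r := fun l => (abs_fst_le u l).trans (norm_cc_le hr hu l)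
  have h2 : ∀ l, |u.2 l| ≤ r := fun l => (abs_snd_le u l).trans (norm_cc_le hr hu l)
  exact ⟨⟨fun l => (abs_le.1 (h1 l)).1, fun l => (abs_le.1 (h1 l)).2⟩,
    ⟨fun l => (abs_le.1 (h2 l)).1, fun l => (abs_le.1 (h2 l)).2.trans (bb_ge hr1 l)⟩⟩

/-- a finite cover of the box -/
theorem exists_cover {r : ℝ} (hr : 0 < r) {B : Set (Cn n)} (hB : IsCompact B) :
    ∃ t : Finset (Cn n), (∀ c ∈ t, c ∈ B) ∧ B ⊆ ⋃ c ∈ t, {z : Cn n | z - c ∈ cpd (k := n) r} := by
  have h : ∀ c ∈ B, {z : Cn n | z - c ∈ cpd (k := n) r} ∈ 𝓝 c := by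
    intro c _
    have h1 : IsOpen {z : Cn n | z - c ∈ opd (k := n) r} :=
      (isOpen_opd r).preimage (by fun_prop)
    refine mem_of_superset (h1.mem_nhds ?_) fun z hz i => (hz i).le
    intro i
    simp only [sub_self, Prod.fst_zero, Pi.zero_apply, Prod.snd_zero]
    have : 0 < r ^ 2 := by positivity
    simpa using this
  obtain ⟨t, ht1, ht2⟩ := hB.elim_nhds_subcover _ h
  exact ⟨t, ht1, ht2⟩

/-- the chain from `w₁` to the point `c + d` -/
noncomputable def chain (w₁ e : Cn n) (N : ℕ) (i : ℕ) : Cn n := w₁ + ((i : ℝ) / N) • (e - w₁)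

theorem chain_zero (w₁ e : Cn n) (N : ℕ) : chain w₁ e N 0 = w₁ := by simp [chain]

theorem chain_last (w₁ e : Cn n) {N : ℕ} (hN : 0 < N) : chain w₁ e N N = e := by
  have : (N : ℝ) ≠ 0 := by positivity
  rw [chain, div_self this, one_smul, add_sub_cancel]

theorem chain_step (w₁ e : Cn n) (N i : ℕ) :
    chain w₁ e N (i + 1) - chain w₁ e N i = (1 / (N : ℝ)) • (e - w₁) := by
  rw [chain, chain, add_sub_add_left_eq_sub, ← sub_smul]
  congr 1
  push_cast
  ring

/-- the data of the propagation -/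
structure Dat (row : Fin n → Option (Fin m)) (piv : Fin m → Fin n) (p q w₁ : Cn n) (R : ℝ) :
    Prop where
  hpiv : ∀ i, row (piv i) = some i
  hp : p ∈ cpd (k := n) 2
  hq : q ∈ cpd (k := n) 2
  hw : Em row piv q w₁ = p
  R1 : 1 ≤ R
  np : ∀ l i, row l = some i → l ≠ piv i → |w₁.2 l| ≤ Real.pi ∧ |w₁.1 l| ≤ R
  pv : ∀ i, w₁.1 (piv i) = 0 ∧ w₁.2 (piv i) = 0
  fr : ∀ l, row l = none → w₁.1 l = p.1 l - q.1 l ∧ w₁.2 l = p.2 l - q.2 l

theorem mem_I {l : Fin n} {i : Fin m} (h : row l = some i) (hl : l ≠ piv i) :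
    l ∈ Iset row piv := ⟨i, h, hl⟩

theorem notMem_I_none {l : Fin n} (h : row l = none) : l ∉ Iset row piv := by
  rintro ⟨i, hi, _⟩
  rw [h] at hi
  exact absurd hi (by simp)

theorem notMem_I_piv (hpiv : ∀ i, row (piv i) = some i) (i : Fin m) :
    piv i ∉ Iset row piv := by
  rintro ⟨j, hj, hj'⟩
  rw [hpiv i] at hj
  exact hj' (by rw [Option.some_injective _ hj])

section

variable {p q w₁ : Cn n} {R r s : ℝ} (D : Dat row piv p q w₁ R)
include D

theorem Dat.cc_free {l : Fin n} (hl : row l = none) : cc w₁ l = cc p l - cc q l := by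
  obtain ⟨h1, h2⟩ := D.fr l hl
  apply Complex.ext
  · simpa [cc] using h1
  · simpa [cc] using h2

/-- the path of `torus_convex` -/
theorem Dat.torus_mem (hs : 0 ≤ s) (hsR : s * ((n + 1) * R) ≤ 1 / 2) (hr : 0 ≤ r)
    (hr' : (n + 1) * (4 * r) ≤ 1 / 2) {ρ : ℝ} (hρ : ρ ∈ Icc 0 (1 + s)) {z : Cn n}
    (hz : z ∈ box row piv r) : Em row piv q (z.1 + ρ • dd row piv w₁, z.2) ∈ opd 9 := by
  have hn : (0:ℝ) ≤ n := Nat.cast_nonneg n
  have hr1 : r ≤ 1 / 8 := by nlinarith
  refine path_mem D.hpiv D.hp D.hq D.hw (by linarith [D.R1]) (fun l i h1 h2 => (D.np l i h1 h2).2)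
    hs hsR hr hr' hρ (fun l i h1 h2 => ?_) (fun l hl => ?_)
  · have e1 : (z.1 + ρ • dd row piv w₁) l = z.1 l + ρ * w₁.1 l := by
      simp [dd, mem_I h1 h2]
    have e2 : |z.1 l| ≤ r := abs_le.2 ⟨hz.1.1 l, hz.1.2 l⟩
    show |(z.1 + ρ • dd row piv w₁) l - ρ * w₁.1 l| ≤ 4 * r
    rw [e1, add_sub_cancel_right]
    linarith
  · have e1 : (z.1 + ρ • dd row piv w₁) l = z.1 l := by
      simp [dd, notMem_I_none hl]
    have e2 : |z.1 l| ≤ r := abs_le.2 ⟨hz.1.1 l, hz.1.2 l⟩
    have e3 : |z.2 l| ≤ r := by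
      have h5 := hz.2.2 l
      simp only [bb, notMem_I_none hl, if_false] at h5
      exact abs_le.2 ⟨hz.2.1 l, h5⟩
    have e4 := norm_cc_le_add ((z.1 + ρ • dd row piv w₁, z.2) : Cn n) l
    have e5 : ‖cc ((z.1 + ρ • dd row piv w₁, z.2) : Cn n) l‖ ≤ 2 * r := by
      refine e4.trans ?_
      show |(z.1 + ρ • dd row piv w₁) l| + |z.2 l| ≤ 2 * r
      rw [e1]
      linarith
    have e6 := norm_cc_le (by norm_num) D.hq l
    linarith [norm_add_le (cc q l) (cc ((z.1 + ρ • dd row piv w₁, z.2) : Cn n) l)]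

/-- the points of the chain, with their neighbourhoods -/
theorem Dat.chain_mem (hr : 0 ≤ r) (hr' : (n + 1) * (4 * r) ≤ 1 / 2) {N i : ℕ} (hN : 0 < N)
    (hi : i ≤ N) {c z : Cn n} (hc : c ∈ box row piv r)
    (hz : z - chain w₁ (c.1 + dd row piv w₁, c.2) N i ∈ cpd (k := n) (3 * r)) :
    Em row piv q z ∈ opd 9 := by
  have hn : (0:ℝ) ≤ n := Nat.cast_nonneg n
  have hr1 : r ≤ 1 / 8 := by nlinarith
  obtain ⟨x, hx⟩ : ∃ x : ℝ, x = (i : ℝ) / N := ⟨_, rfl⟩
  have hN' : (0:ℝ) < N := by positivity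
  have hx0 : 0 ≤ x := by rw [hx]; positivity
  have hx1 : x ≤ 1 := by rw [hx, div_le_one hN']; exact_mod_cast hi
  obtain ⟨y, hy⟩ : ∃ y : Cn n, y = z - chain w₁ (c.1 + dd row piv w₁, c.2) N i := ⟨_, rfl⟩
  rw [← hy] at hz
  have hzy : z = y + (w₁ + x • ((c.1 + dd row piv w₁, c.2) - w₁)) := by
    rw [hy, hx, chain, sub_add_cancel]
  have hR0 : 0 ≤ R := by linarith [D.R1]
  refine path_mem D.hpiv D.hp D.hq D.hw hR0 (fun l i h1 h2 => (D.np l i h1 h2).2)
    (s := 0) le_rfl (by norm_num) hr hr' (ρ := 1) ⟨zero_le_one, by norm_num⟩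
    (fun l i h1 h2 => ?_) (fun l hl => ?_)
  · have e1 : z.1 l - 1 * w₁.1 l = y.1 l + x * c.1 l := by
      rw [hzy]
      simp [dd, mem_I h1 h2]
      ring
    have e2 : |c.1 l| ≤ r := abs_le.2 ⟨hc.1.1 l, hc.1.2 l⟩
    have e3 : |y.1 l| ≤ 3 * r := (abs_fst_le y l).trans (norm_cc_le (by positivity) hz l)
    rw [e1]
    refine (abs_add_le _ _).trans ?_
    rw [abs_mul, abs_of_nonneg hx0]
    have : x * |c.1 l| ≤ 1 * r := mul_le_mul hx1 e2 (abs_nonneg _) zero_le_one
    linarith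
  · have e1 : cc q l + cc z l = ((1 - x : ℝ) * cc p l + (x : ℝ) * cc q l) + (x : ℝ) * cc c l +
        cc y l := by
      have h5 : cc ((c.1 + dd row piv w₁, c.2) : Cn n) l = cc c l := by
        apply Complex.ext <;> simp [cc, dd, notMem_I_none hl]
      rw [hzy, cc_add, cc_add, cc_smul, cc_sub, h5, D.cc_free hl]
      push_cast
      ring
    have e2 : |c.1 l| ≤ r := abs_le.2 ⟨hc.1.1 l, hc.1.2 l⟩
    have e3 : |c.2 l| ≤ r := by
      have h5 := hc.2.2 l
      simp only [bb, notMem_I_none hl, if_false] at h5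
      exact abs_le.2 ⟨hc.2.1 l, h5⟩
    have e4 : ‖cc c l‖ ≤ 2 * r := (norm_cc_le_add c l).trans (by linarith)
    have e5 : ‖cc y l‖ ≤ 3 * r := norm_cc_le (by positivity) hz l
    have e6 := norm_cc_le (by norm_num) D.hq l
    have e7 := norm_cc_le (by norm_num) D.hp l
    have e8 : ‖((1 - x : ℝ) : ℂ) * cc p l‖ ≤ (1 - x) * 2 := by
      rw [norm_mul, Complex.norm_real, Real.norm_of_nonneg (by linarith)]
      exact mul_le_mul_of_nonneg_left e7 (by linarith)
    have e9 : ‖(x : ℂ) * cc q l‖ ≤ x * 2 := by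
      rw [norm_mul, Complex.norm_real, Real.norm_of_nonneg hx0]
      exact mul_le_mul_of_nonneg_left e6 hx0
    have e10 : ‖(x : ℂ) * cc c l‖ ≤ 2 * r := by
      rw [norm_mul, Complex.norm_real, Real.norm_of_nonneg hx0]
      calc x * ‖cc c l‖ ≤ 1 * (2 * r) := mul_le_mul hx1 e4 (norm_nonneg _) zero_le_one
        _ = 2 * r := one_mul _
    rw [e1]
    have t1 := norm_add_le (((1 - x : ℝ) * cc p l + (x : ℝ) * cc q l) + (x : ℝ) * cc c l) (cc y l)
    have t2 := norm_add_le (((1 - x : ℝ) * cc p l + (x : ℝ) * cc q l)) ((x : ℝ) * cc c l)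
    have t3 := norm_add_le ((1 - x : ℝ) * cc p l) ((x : ℝ) * cc q l)
    linarith

/-- the steps of the chain are short -/
theorem Dat.chain_short (hr : 0 < r) (hr1 : r ≤ 1 / 8) {N : ℕ} (hN : 11 ≤ N * (r / 2)) {i : ℕ}
    {c : Cn n} (hc : c ∈ box row piv r) :
    chain w₁ (c.1 + dd row piv w₁, c.2) N (i + 1) - chain w₁ (c.1 + dd row piv w₁, c.2) N i ∈
      cpd (k := n) (r / 2) := by
  rw [chain_step]
  have hN0 : (0:ℝ) < N := by
    rcases Nat.eq_zero_or_pos N with h | h
    · subst h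
      norm_num at hN
    · exact_mod_cast h
  have key : ∀ l, ‖cc ((c.1 + dd row piv w₁, c.2) - w₁) l‖ ≤ 11 := by
    intro l
    have e2 : |c.1 l| ≤ r := abs_le.2 ⟨hc.1.1 l, hc.1.2 l⟩
    rcases hl : row l with _ | j
    · have h5 : cc ((c.1 + dd row piv w₁, c.2) : Cn n) l = cc c l := by
        apply Complex.ext <;> simp [cc, dd, notMem_I_none hl]
      have e3 : |c.2 l| ≤ r := by
        have h5 := hc.2.2 l
        simp only [bb, notMem_I_none hl, if_false] at h5
        exact abs_le.2 ⟨hc.2.1 l, h5⟩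
      have e4 : ‖cc c l‖ ≤ 2 * r := (norm_cc_le_add c l).trans (by linarith)
      rw [cc_sub, h5, D.cc_free hl]
      have e6 := norm_cc_le (by norm_num) D.hq l
      have e7 := norm_cc_le (by norm_num) D.hp l
      have t1 := norm_sub_le (cc c l) (cc p l - cc q l)
      have t2 := norm_sub_le (cc p l) (cc q l)
      linarith
    · by_cases hp : l = piv j
      · subst hp
        have hI := notMem_I_piv (row := row) D.hpiv j
        have e3 : |c.2 (piv j)| ≤ r := by
          have h5 := hc.2.2 (piv j)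
          simp only [bb, hI, if_false] at h5
          exact abs_le.2 ⟨hc.2.1 _, h5⟩
        have h6 : cc ((c.1 + dd row piv w₁, c.2) - w₁) (piv j) = cc c (piv j) := by
          obtain ⟨h7, h8⟩ := D.pv j
          apply Complex.ext <;> simp [cc, dd, hI, h7, h8]
        rw [h6]
        exact (norm_cc_le_add c _).trans (by linarith)
      · have hI := mem_I (piv := piv) hl hp
        have h3 := (D.np l j hl hp).1
        refine (norm_cc_le_add _ _).trans ?_
        have h6 : ((c.1 + dd row piv w₁, c.2) - w₁ : Cn n).1 l = c.1 l := by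
          simp [dd, hI]
        have h7 : ((c.1 + dd row piv w₁, c.2) - w₁ : Cn n).2 l = c.2 l - w₁.2 l := by
          simp
        rw [h6, h7]
        have h8 : |c.2 l - w₁.2 l| ≤ 3 * Real.pi := by
          have h9 := hc.2.1 l
          have h10 := hc.2.2 l
          simp only [bb, hI, if_true] at h10
          have h11 := abs_le.1 h3
          simp only at h9
          refine abs_le.2 ⟨?_, ?_⟩ <;> linarith [Real.pi_gt_three]
        linarith [Real.pi_lt_d2]
  refine mem_cpd_of fun l => ?_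
  rw [cc_smul, norm_mul, Complex.norm_real, Real.norm_of_nonneg (by positivity)]
  have := key l
  rw [div_mul_eq_mul_div, one_mul, div_le_iff₀ hN0]
  linarith

end

/-- `propagate`, with its inputs as hypotheses -/
theorem core (row : Fin n → Option (Fin m)) {piv : Fin m → Fin n}
    (hpiv : ∀ i, row (piv i) = some i)
    (hEm : ∀ q, ContDiff ℝ ∞ (Em row piv q))
    (hprow : ∀ q w i, prow row i (Em row piv q w) = prow row i q)
    (hper : ∀ {l : Fin n} {i : Fin m}, row l = some i → l ≠ piv i → ∀ q w : Cn n,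
      Em row piv q (w.1, w.2 + Pi.single l (2 * Real.pi)) = Em row piv q w)
    (hreach : ∃ C : ℝ, 1 ≤ C ∧ ∀ p ∈ cpd (k := n) 2, ∀ q ∈ cpd (k := n) 2,
      (∀ i, prow row i q ≠ 0) → (∀ i, prow row i p = prow row i q) → ∃ w₁ : Cn n,
        Em row piv q w₁ = p ∧
        (∀ l i, row l = some i → l ≠ piv i → |w₁.2 l| ≤ Real.pi ∧
          |w₁.1 l| ≤ C * (1 + ∑ i, |Real.log ‖prow row i q‖|)) ∧
        (∀ i, w₁.1 (piv i) = 0 ∧ w₁.2 (piv i) = 0) ∧
        (∀ l, row l = none → w₁.1 l = p.1 l - q.1 l ∧ w₁.2 l = p.2 l - q.2 l))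
    (htorus : ∀ {G : Cn n → ℝ} {V : Set (Cn n)}, IsOpen V →
      ContDiffOn ℝ ∞ G V → (∀ z ∈ V, G z ≤ 0) → (∀ z ∈ V, ∀ u, 0 ≤ levz G u z) →
      ∀ I : Set (Fin n), (∀ z ∈ V, ∀ l ∈ I,
        (z.1, z.2 + Pi.single l (2 * Real.pi)) ∈ V →
          G (z.1, z.2 + Pi.single l (2 * Real.pi)) = G z) →
      ∀ {α β α' β' : Fin n → ℝ}, α ≤ β → α' ≤ β' → (∀ l ∈ I, β' l = α' l + 2 * Real.pi) →
      ∀ {d : Fin n → ℝ}, (∀ l ∉ I, d l = 0) → ∀ {s : ℝ}, 0 < s →
      (∀ r ∈ Icc 0 (1 + s), ∀ z ∈ Icc α β ×ˢ Icc α' β', (z.1 + r • d, z.2) ∈ V) →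
      ∫ z in Icc α β ×ˢ Icc α' β', -G z ≤
        (1 + s) / s * ∫ z in Icc α β ×ˢ Icc α' β', -G (z.1 + d, z.2))
    (hharnack : ∃ C : ℝ, 1 ≤ C ∧ ∀ (G : Cn n → ℝ) (V : Set (Cn n)) (r L : ℝ) (N : ℕ)
      (u : ℕ → Cn n), IsOpen V → ContDiffOn ℝ ∞ G V → (∀ z ∈ V, G z ≤ 0) →
      (∀ z ∈ V, ∀ v, 0 ≤ levz G v z) → 0 < r →
      (∀ i ≤ N, ∀ z, z - u i ∈ cpd (k := n) (3 * r) → z ∈ V) →
      (∀ i < N, u (i + 1) - u i ∈ cpd (k := n) (r / 2)) → -L ≤ G (u 0) →
      ∫ z in {z | z - u N ∈ cpd (k := n) r}, -G z ≤ C ^ (N + 1) * L * r ^ (2 * n)) :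
    ∃ C r : ℝ, 0 < C ∧ 0 < r ∧ r ≤ 1 ∧
      (∀ q ∈ cpd (k := n) 2, ∀ w ∈ cpd (k := n) r, Em row piv q w ∈ opd 9) ∧
      ∀ (g : Cn n → ℝ) (p q : Cn n) (L : ℝ), ContDiffOn ℝ ∞ g (opd 9) →
      p ∈ cpd 2 → q ∈ cpd 2 → (∀ i, prow row i q ≠ 0) → (∀ i, prow row i p = prow row i q) →
      (∀ x ∈ opd (k := n) 9, (∀ i, prow row i x = prow row i q) → g x ≤ 0) →
      (∀ w, Em row piv q w ∈ opd 9 → ∀ u, 0 ≤ levz (fun w => g (Em row piv q w)) u w) →
      -L ≤ g p →
      ∫ w in cpd (k := n) r, -g (Em row piv q w) ≤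
        C * (1 + ∑ i, |Real.log ‖prow row i q‖|) * L := by
  obtain ⟨CR, hCR, hreach⟩ := hreach
  obtain ⟨CH, hCH, hH⟩ := hharnack
  have hn : (0:ℝ) ≤ n := Nat.cast_nonneg n
  obtain ⟨r, hrdef⟩ : ∃ r : ℝ, r = 1 / (8 * (n + 1)) := ⟨_, rfl⟩
  have hr0 : 0 < r := by rw [hrdef]; positivity
  have hr' : (n + 1) * (4 * r) ≤ 1 / 2 := by
    rw [hrdef]
    apply le_of_eq
    field_simp
    norm_num
  have hr8 : r ≤ 1 / 8 := by
    rw [hrdef]
    apply div_le_div_of_nonneg_left <;> linarith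
  obtain ⟨t, ht1, ht2⟩ := exists_cover hr0 (isCompact_box (row := row) (piv := piv) r)
  obtain ⟨N, hNdef⟩ : ∃ N : ℕ, N = 176 * (n + 1) := ⟨_, rfl⟩
  have hN0 : 0 < N := by rw [hNdef]; positivity
  have hN : 11 ≤ N * (r / 2) := by
    rw [hNdef, hrdef]
    push_cast
    apply le_of_eq
    field_simp
    norm_num
  obtain ⟨K, hK⟩ : ∃ K : ℝ, K = t.card * (CH ^ (N + 1) * r ^ (2 * n)) := ⟨_, rfl⟩
  have hK0 : 0 ≤ K := by
    rw [hK]
    have : 0 ≤ CH := by linarith
    positivity
  refine ⟨(1 + 2 * (n + 1) * CR) * (K + 1), r, by positivity, hr0, by linarith,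
    fun q hq w hw => near_mem hpiv hq hr0.le hr' hw, ?_⟩
  intro g p q L hg hp hq hq0 hpq hneg hpsh hgp
  obtain ⟨w₁, hw₁, hnp, hpv, hfr⟩ := hreach p hp q hq hq0 hpq
  obtain ⟨Λ, hΛ⟩ : ∃ Λ : ℝ, Λ = 1 + ∑ i, |Real.log ‖prow row i q‖| := ⟨_, rfl⟩
  rw [← hΛ] at hnp ⊢
  have hΛ1 : 1 ≤ Λ := by
    rw [hΛ]
    have : 0 ≤ ∑ i, |Real.log ‖prow row i q‖| := Finset.sum_nonneg fun i _ => abs_nonneg _
    linarith
  have hR1 : 1 ≤ CR * Λ := by nlinarith
  have D : Dat row piv p q w₁ (CR * Λ) := ⟨hpiv, hp, hq, hw₁, hR1, hnp, hpv, hfr⟩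
  -- the function and its domain
  obtain ⟨V, hVdef⟩ : ∃ V : Set (Cn n), V = {w | Em row piv q w ∈ opd (k := n) 9} := ⟨_, rfl⟩
  obtain ⟨G, hGdef⟩ : ∃ G : Cn n → ℝ, G = fun w => g (Em row piv q w) := ⟨_, rfl⟩
  have hV : IsOpen V := by
    rw [hVdef]
    exact (isOpen_opd 9).preimage (hEm q).continuous
  have hG : ContDiffOn ℝ ∞ G V := by
    rw [hGdef]
    exact hg.comp (hEm q).contDiffOn fun w hw => by rw [hVdef] at hw; exact hw
  have hGn : ∀ z ∈ V, G z ≤ 0 := by
    intro z hz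
    rw [hVdef] at hz
    rw [hGdef]
    exact hneg _ hz fun i => hprow q z i
  have hGp : ∀ z ∈ V, ∀ u, 0 ≤ levz G u z := by
    intro z hz u
    rw [hVdef] at hz
    rw [hGdef]
    exact hpsh z hz u
  have hGc : ContinuousOn G V := hG.continuousOn
  have hL : 0 ≤ L := by
    have h1 : g p ≤ 0 := by
      refine hneg p (mem_opd_of fun l => ?_) hpq
      exact lt_of_le_of_lt (norm_cc_le (by norm_num) hp l) (by norm_num)
    linarith
  -- the first step
  obtain ⟨s, hsdef⟩ : ∃ s : ℝ, s = 1 / (2 * ((n + 1) * (CR * Λ))) := ⟨_, rfl⟩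
  have hRpos : 0 < CR * Λ := by linarith
  have hs0 : 0 < s := by rw [hsdef]; positivity
  have hsR : s * ((n + 1) * (CR * Λ)) ≤ 1 / 2 := by
    rw [hsdef]
    apply le_of_eq
    field_simp
  have hboxV : ∀ ρ ∈ Icc (0:ℝ) (1 + s), ∀ z ∈ box row piv r,
      (z.1 + ρ • dd row piv w₁, z.2) ∈ V := by
    intro ρ hρ z hz
    rw [hVdef]
    exact D.torus_mem hs0.le hsR hr0.le hr' hρ hz
  have hbox0 : box row piv r ⊆ V := by
    intro z hz
    have := hboxV 0 ⟨le_rfl, by linarith⟩ z hz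
    simpa using this
  have step1 : ∫ z in cpd (k := n) r, -G z ≤ ∫ z in box row piv r, -G z := by
    refine setIntegral_mono_set ?_ ?_ (LE.le.eventuallyLE
      (cpd_subset_box hr0.le (by linarith)))
    · exact (hGc.mono hbox0).neg.integrableOn_compact (isCompact_box r)
    · refine (ae_restrict_iff' (isCompact_box r).measurableSet).2 (Eventually.of_forall fun z hz => ?_)
      simpa using hGn z (hbox0 hz)
  have step2 : ∫ z in box row piv r, -G z ≤
      (1 + s) / s * ∫ z in box row piv r, -G (z.1 + dd row piv w₁, z.2) := by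
    refine htorus hV hG hGn hGp (Iset row piv) ?_ ?_ ?_ ?_ ?_ hs0 hboxV
    · rintro z _ l ⟨i, h1, h2⟩ _
      rw [hGdef]
      simp only [hper h1 h2 q z]
    · intro l
      simp only
      linarith
    · intro l
      have := bb_ge (row := row) (piv := piv) (r := r) (by linarith) l
      simp only
      linarith
    · intro l hl
      simp only [bb, hl, if_true]
    · intro l hl
      simp only [dd, hl, if_false]
  -- the chains
  have step3 : ∀ c ∈ t, (∫ z in {z | z - c ∈ cpd (k := n) r},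
      -G (z.1 + dd row piv w₁, z.2)) ≤ CH ^ (N + 1) * L * r ^ (2 * n) := by
    intro c hc
    have hcB := ht1 c hc
    have h1 := hH G V r L N (chain w₁ (c.1 + dd row piv w₁, c.2) N) hV hG hGn hGp hr0
      (fun i hi z hz => by
        rw [hVdef]
        exact D.chain_mem hr0.le hr' hN0 hi hcB hz)
      (fun i _ => D.chain_short hr0 hr8 hN hcB)
      (by
        rw [chain_zero, hGdef]
        simp only [hw₁]
        exact hgp)
    rw [chain_last _ _ hN0] at h1
    refine le_trans (le_of_eq ?_) h1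
    have : (volume : Measure (Cn n)).IsAddHaarMeasure :=
      Measure.prod.instIsAddHaarMeasure (G := Fin n → ℝ) (H := Fin n → ℝ) volume volume
    have h2 := (measurePreserving_add_right (volume : Measure (Cn n))
      ((dd row piv w₁, 0) : Cn n)).setIntegral_preimage_emb
      (MeasurableEquiv.addRight ((dd row piv w₁, 0) : Cn n)).measurableEmbedding (fun z => -G z)
      {z | z - (c.1 + dd row piv w₁, c.2) ∈ cpd (k := n) r}
    have h3 : ((fun x : Cn n => x + (dd row piv w₁, 0)) ⁻¹'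
        {z | z - (c.1 + dd row piv w₁, c.2) ∈ cpd (k := n) r}) =
        {z | z - c ∈ cpd (k := n) r} := by
      ext z
      simp only [mem_preimage, mem_ofPred_eq]
      have : z + (dd row piv w₁, 0) - (c.1 + dd row piv w₁, c.2) = z - c := by
        refine Prod.ext ?_ ?_
        · simp
        · simp
      rw [this]
    rw [h3] at h2
    rw [← h2]
    refine setIntegral_congr_fun (isCompact_shift hr0.le c).measurableSet fun z _ => ?_
    have : (z.1 + dd row piv w₁, z.2) = z + (dd row piv w₁, 0) := by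
      refine Prod.ext ?_ ?_
      · simp
      · simp
    simp only [this]
  have hmem : ∀ c ∈ t, ∀ z ∈ {z | z - c ∈ cpd (k := n) r}, (z.1 + dd row piv w₁, z.2) ∈ V := by
    intro c hc z hz
    have hcB := ht1 c hc
    rw [hVdef]
    refine D.chain_mem (i := N) hr0.le hr' hN0 le_rfl hcB ?_
    rw [chain_last _ _ hN0]
    have : (z.1 + dd row piv w₁, z.2) - (c.1 + dd row piv w₁, c.2) = z - c := by
      refine Prod.ext ?_ ?_
      · simp
      · simp
    rw [this]
    refine mem_cpd_of fun l => (norm_cc_le hr0.le hz l).trans (by linarith)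
  have step4 : (∫ z in box row piv r, -G (z.1 + dd row piv w₁, z.2)) ≤ K * L := by
    refine (integral_cover t (fun c => {z | z - c ∈ cpd (k := n) r})
      (fun c _ => (isCompact_shift hr0.le c).measurableSet) ht2 ?_ ?_).trans ?_
    · intro c hc z hz
      have := hGn _ (hmem c hc z hz)
      simpa using this
    · intro c hc
      refine ContinuousOn.integrableOn_compact (isCompact_shift hr0.le c) ?_
      refine ContinuousOn.neg (hGc.comp ?_ fun z hz => hmem c hc z hz)
      fun_prop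
    · refine (Finset.sum_le_sum step3).trans ?_
      rw [Finset.sum_const, nsmul_eq_mul, hK]
      apply le_of_eq
      ring
  -- the end
  have hss : (1 + s) / s = 1 + 2 * ((n + 1) * (CR * Λ)) := by
    rw [add_div, div_self hs0.ne', hsdef, one_div_one_div]
    ring
  have hKL : 0 ≤ K * L := mul_nonneg hK0 hL
  have h9 : (1 + s) / s ≤ (1 + 2 * (n + 1) * CR) * Λ := by
    rw [hss]
    nlinarith
  calc ∫ w in cpd (k := n) r, -g (Em row piv q w) = ∫ z in cpd (k := n) r, -G z := by rw [hGdef]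
    _ ≤ (1 + s) / s * ∫ z in box row piv r, -G (z.1 + dd row piv w₁, z.2) := step1.trans step2
    _ ≤ (1 + s) / s * (K * L) := mul_le_mul_of_nonneg_left step4 (by positivity)
    _ ≤ (1 + 2 * (n + 1) * CR) * Λ * (K * L) := mul_le_mul_of_nonneg_right h9 hKL
    _ ≤ (1 + 2 * (n + 1) * CR) * Λ * ((K + 1) * L) := by
        refine mul_le_mul_of_nonneg_left ?_ (by positivity)
        nlinarith
    _ = (1 + 2 * (n + 1) * CR) * (K + 1) * Λ * L := by ring

end Pool.Agent.KRFG.Prp

end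

section

/-!
# Propagation of a lower bound along a fibre
-/

open scoped ContDiff ENNReal ComplexOrder Topology
open Set MeasureTheory Filter Pool.Agent.ToricKRF Pool.Agent.ToricKRF.G Pool.Agent.KRFS
  Pool.Agent.KRFF

namespace Pool.Agent.KRFG

variable {n m : ℕ}

/-- **propagation of a lower bound along a fibre** -/
theorem propagate (row : Fin n → Option (Fin m)) {piv : Fin m → Fin n}
    (hpiv : ∀ i, row (piv i) = some i) :
    ∃ C r : ℝ, 0 < C ∧ 0 < r ∧ r ≤ 1 ∧
      (∀ q ∈ cpd (k := n) 2, ∀ w ∈ cpd (k := n) r, Em row piv q w ∈ opd 9) ∧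
      ∀ (g : Cn n → ℝ) (p q : Cn n) (L : ℝ), ContDiffOn ℝ ∞ g (opd 9) →
      p ∈ cpd 2 → q ∈ cpd 2 → (∀ i, prow row i q ≠ 0) → (∀ i, prow row i p = prow row i q) →
      (∀ x ∈ opd (k := n) 9, (∀ i, prow row i x = prow row i q) → g x ≤ 0) →
      (∀ w, Em row piv q w ∈ opd 9 → ∀ u, 0 ≤ levz (fun w => g (Em row piv q w)) u w) →
      -L ≤ g p →
      ∫ w in cpd (k := n) r, -g (Em row piv q w) ≤
        C * (1 + ∑ i, |Real.log ‖prow row i q‖|) * L := by
  obtain ⟨C, hC, hreach⟩ := reach n m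
  refine Prp.core row hpiv (fun q => contDiffOn_univ.1 (Fb.Em_holOn' q).1)
    (fun q w i => Fb.prow_Em' hpiv q w i)
    (fun hl hnp q w => Em_period hl hnp q w)
    ⟨C, hC, fun p hp q hq h0 h1 => hreach row piv hpiv p hp q hq h0 h1⟩
    (fun hV hG hneg hpsh I hper => ?_) (harnack n)
  intro α β α' β' h1 h2 h3 d h4 s h5 h6
  exact torus_convex hV hG hneg hpsh I hper h1 h2 h3 h4 h5 h6

end Pool.Agent.KRFG

end

section

/-!
# The integral of the gap along the fibres (helper20)
-/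

open scoped ContDiff ENNReal ComplexOrder Topology
open Set MeasureTheory Filter Pool.Agent.ToricKRF Pool.Agent.ToricKRF.G Pool.Agent.KRFS
  Pool.Agent.KRFF

namespace Pool.Agent.KRFG

namespace Chn

variable {n m : ℕ} {row : Fin n → Option (Fin m)} {piv : Fin m → Fin n}

theorem Em_continuous' : Continuous fun p : Cn n × Cn n => Em row piv p.1 p.2 := by
  have hcc : ∀ l, Continuous fun p : Cn n × Cn n => cc (Em row piv p.1 p.2) l := fun l => by
    cases h : row l with
    | none =>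
      simp only [Prp.cc_Em_none h]
      exact ((Prp.continuous_cc l).comp continuous_fst).add
        ((Prp.continuous_cc l).comp continuous_snd)
    | some i =>
      by_cases hl : l = piv i
      · subst hl
        simp only [Prp.cc_Em_piv h]
        refine ((Prp.continuous_cc _).comp continuous_fst).mul
          (Complex.continuous_exp.comp (Continuous.neg (continuous_finsetSum _ fun l' _ => ?_)))
        split_ifs
        · exact (Prp.continuous_cc l').comp continuous_snd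
        · exact continuous_const
      · simp only [Prp.cc_Em_np h hl]
        exact ((Prp.continuous_cc l).comp continuous_fst).mul
          (Complex.continuous_exp.comp ((Prp.continuous_cc l).comp continuous_snd))
  exact (continuous_pi fun l => Complex.continuous_re.comp (hcc l)).prodMk
    (continuous_pi fun l => Complex.continuous_im.comp (hcc l))

theorem Em_close' (row : Fin n → Option (Fin m)) (piv : Fin m → Fin n) :
    ∃ C : ℝ, 0 < C ∧ ∀ q ∈ cpd (k := n) 9, ∀ r ∈ Icc (0 : ℝ) 1, ∀ w ∈ cpd (k := n) r,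
      Em row piv q w - q ∈ cpd (k := n) (C * r) := by
  refine ⟨9 * n * Real.exp n + 1, by positivity, fun q hq r hr w hw =>
    Prp.mem_cpd_of fun l => ?_⟩
  rw [Prp.cc_sub]
  have hq' := Prp.norm_cc_le (by norm_num) hq l
  have hw' := Prp.norm_cc_le hr.1 hw
  have hn : (1 : ℝ) ≤ n := by
    have : 1 ≤ n := l.pos
    exact_mod_cast this
  have hr0 := hr.1
  have key : ∀ z : ℂ, ‖z‖ ≤ n * r →
      ‖cc q l * Complex.exp z - cc q l‖ ≤ (9 * n * Real.exp n + 1) * r := by
    intro z hz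
    have h1 : ‖Complex.exp z - 1‖ ≤ ‖z‖ * Real.exp ‖z‖ := by
      have := Complex.norm_exp_sub_sum_le_norm_mul_exp z 1
      simpa using this
    have h2 : ‖z‖ ≤ n := hz.trans (by nlinarith [hr.2])
    have h3 : cc q l * Complex.exp z - cc q l = cc q l * (Complex.exp z - 1) := by ring
    rw [h3, norm_mul]
    calc ‖cc q l‖ * ‖Complex.exp z - 1‖ ≤ 9 * ((n * r) * Real.exp n) := by
          refine mul_le_mul hq' (h1.trans ?_) (norm_nonneg _) (by norm_num)
          exact mul_le_mul hz (Real.exp_le_exp.2 h2) (Real.exp_pos _).le (by positivity)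
      _ ≤ (9 * n * Real.exp n + 1) * r := by nlinarith
  cases h : row l with
  | none =>
    rw [Prp.cc_Em_none h, add_sub_cancel_left]
    refine (hw' l).trans (le_mul_of_one_le_left hr0 ?_)
    have : 0 ≤ 9 * (n : ℝ) * Real.exp n := by positivity
    linarith
  | some i =>
    by_cases hl : l = piv i
    · subst hl
      rw [Prp.cc_Em_piv h]
      refine key _ ?_
      rw [norm_neg]
      refine (norm_sum_le _ _).trans ?_
      calc ∑ l' : Fin n, ‖(if row l' = some i ∧ l' ≠ piv i then cc w l' else 0 : ℂ)‖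
          ≤ ∑ _l' : Fin n, r := by
            refine Finset.sum_le_sum fun l' _ => ?_
            split_ifs
            · exact hw' l'
            · simpa using hr0
        _ = n * r := by simp
    · rw [Prp.cc_Em_np h hl]
      exact key _ ((hw' l).trans (by nlinarith))

end Chn

variable {n m : ℕ} {M Y W : Type} [TopologicalSpace M] [CompactSpace M]
  [TopologicalSpace Y] [T2Space Y] [TopologicalSpace W] [T2Space W] {κ P ι : Type}
  [Fintype ι] {T : ℝ} (F : Mod n m M Y W κ P ι T)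

/-- **the integral of the gap along the fibres** -/
theorem Mod.chain : ∃ (C r : ℝ) (B : ℕ), 1 ≤ C ∧ 0 < r ∧ r ≤ 1 ∧ ∀ t ∈ Ico 0 T, ∀ c,
    ∀ piv : Fin m → Fin n, (∀ i, F.row c (piv i) = some i) →
    ∀ q ∈ cpd (k := n) (3 / 2), (∀ i, prow (F.row c) i q ≠ 0) → nsq (F.yc c q) ≤ 20 →
    (∀ w ∈ cpd (k := n) r, Em (F.row c) piv q w ∈ opd 9) ∧
    ∫ w in cpd (k := n) r, -F.gc t c (Em (F.row c) piv q w) ≤
      C * (T - t) * (1 + ∑ i, |Real.log ‖prow (F.row c) i q‖|) ^ B :=
  F.chain_of (fun _ _ h q w i => Fb.prow_Em' h q w i) (fun _ _ => Chn.Em_continuous')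
    (fun row piv => Chn.Em_close' row piv) (fun row _ h => propagate row h)
    (fun _ ht y => F.Mx_spec ht y) F.fib_psh (fun _ ht c => F.smooth_W ht c) F.overlap

end Pool.Agent.KRFG

end

section

/-!
# The decay on the total space: measure theory (helper52)
-/

open scoped ContDiff ENNReal ComplexOrder Topology NNReal
open Set MeasureTheory Filter Pool.Agent.ToricKRF Pool.Agent.ToricKRF.G Pool.Agent.KRFS
  Pool.Agent.KRFF

namespace Pool.Agent.KRFG.Decay

variable {n m : ℕ}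

/-! ### The maps `x ↦ E(x, w)` -/

theorem cc_ofC (z : Fin n → ℂ) (l : Fin n) : cc (ofC z) l = z l := Complex.ext rfl rfl

theorem cc_ext {u v : Cn n} (h : ∀ l, cc u l = cc v l) : u = v := by
  refine Prod.ext ?_ ?_ <;> funext l
  · exact congrArg Complex.re (h l)
  · exact congrArg Complex.im (h l)

open Classical in
/-- the factors of the diagonal map -/
noncomputable def fac (row : Fin n → Option (Fin m)) (piv : Fin m → Fin n) (w : Cn n)
    (l : Fin n) : ℂ :=
  match row l with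
  | none => 1
  | some i => if l = piv i then Complex.exp (-∑ l', if row l' = some i ∧ l' ≠ l then cc w l' else 0)
      else Complex.exp (cc w l)

/-- the translation -/
noncomputable def tra (row : Fin n → Option (Fin m)) (w : Cn n) (l : Fin n) : ℂ :=
  match row l with
  | none => cc w l
  | some _ => 0

theorem cc_Em (row : Fin n → Option (Fin m)) (piv : Fin m → Fin n) (q w : Cn n) (l : Fin n) :
    cc (Em row piv q w) l = cc q l * fac row piv w l + tra row w l := by
  unfold Em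
  rw [cc_ofC]
  unfold fac tra
  cases h : row l with
  | none => simp
  | some i =>
    simp only [add_zero]
    split_ifs <;> rfl

theorem cc_neg (w : Cn n) (l : Fin n) : cc (-w) l = -cc w l := Complex.ext rfl rfl

theorem Em_inv (row : Fin n → Option (Fin m)) (piv : Fin m → Fin n) (q w : Cn n) :
    Em row piv (Em row piv q (-w)) w = q := by
  apply cc_ext
  intro l
  rw [cc_Em, cc_Em]
  unfold fac tra
  cases h : row l with
  | none =>
    simp only [cc_neg]
    ring
  | some i =>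
    simp only [add_zero]
    by_cases hl : l = piv i
    · rw [if_pos hl, if_pos hl, mul_assoc, ← Complex.exp_add]
      have : (-∑ l', if row l' = some i ∧ l' ≠ l then cc (-w) l' else 0) +
          (-∑ l', if row l' = some i ∧ l' ≠ l then cc w l' else 0) = 0 := by
        rw [← neg_add, ← Finset.sum_add_distrib]
        rw [Finset.sum_eq_zero, neg_zero]
        intro l' _
        split_ifs
        · rw [cc_neg]
          ring
        · simp
      rw [this, Complex.exp_zero, mul_one]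
    · rw [if_neg hl, if_neg hl, mul_assoc, ← Complex.exp_add, cc_neg, neg_add_cancel,
        Complex.exp_zero, mul_one]

theorem abs_fst_le {r : ℝ} (hr : 0 ≤ r) {w : Cn n} (hw : w ∈ cpd (k := n) r) (l : Fin n) :
    |w.1 l| ≤ r := by
  refine abs_le_of_sq_le_sq ?_ hr
  have := hw l
  nlinarith [sq_nonneg (w.2 l)]

theorem abs_snd_le {r : ℝ} (hr : 0 ≤ r) {w : Cn n} (hw : w ∈ cpd (k := n) r) (l : Fin n) :
    |w.2 l| ≤ r := by
  refine abs_le_of_sq_le_sq ?_ hr
  have := hw l
  nlinarith [sq_nonneg (w.1 l)]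

theorem fac_le (row : Fin n → Option (Fin m)) (piv : Fin m → Fin n) {r : ℝ} (hr : 0 ≤ r)
    (hnr : (n + 1) * r ≤ 1) {w : Cn n} (hw : w ∈ cpd (k := n) r) (l : Fin n) :
    ‖fac row piv w l‖ ≤ 3 := by
  have hexp : ∀ z : ℂ, |z.re| ≤ 1 → ‖Complex.exp z‖ ≤ 3 := by
    intro z hz
    rw [Complex.norm_exp]
    calc Real.exp z.re ≤ Real.exp 1 := Real.exp_le_exp.2 ((le_abs_self _).trans hz)
      _ ≤ 3 := by
        have := Real.exp_one_lt_d9
        linarith
  have hr1 : r ≤ 1 := by nlinarith [(Nat.cast_nonneg n : (0 : ℝ) ≤ n)]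
  have hn : (n : ℝ) * r ≤ 1 := by linarith
  unfold fac
  cases h : row l with
  | none => simp
  | some i =>
    simp only
    split_ifs with hl
    · apply hexp
      rw [Complex.neg_re, abs_neg, Complex.re_sum]
      calc |∑ l', (if row l' = some i ∧ l' ≠ l then cc w l' else 0).re|
          ≤ ∑ l' : Fin n, |(if row l' = some i ∧ l' ≠ l then cc w l' else 0).re| :=
            Finset.abs_sum_le_sum_abs _ _
        _ ≤ ∑ _l' : Fin n, r := by
            refine Finset.sum_le_sum fun l' _ => ?_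
            split_ifs
            · exact abs_fst_le hr hw l'
            · simpa using hr
        _ = n * r := by simp
        _ ≤ 1 := hn
    · apply hexp
      exact (abs_fst_le hr hw l).trans hr1

theorem lipschitz_Em (row : Fin n → Option (Fin m)) (piv : Fin m → Fin n) {r : ℝ} (hr : 0 ≤ r)
    (hnr : (n + 1) * r ≤ 1) {w : Cn n} (hw : w ∈ cpd (k := n) r) :
    LipschitzWith 6 (fun x : Cn n => Em row piv x w) := by
  apply LipschitzWith.of_dist_le_mul
  intro x y
  have hK : ((6 : ℝ≥0) : ℝ) = 6 := rfl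
  rw [hK]
  have hd : 0 ≤ dist x y := dist_nonneg
  have key : ∀ l, ‖cc (Em row piv x w) l - cc (Em row piv y w) l‖ ≤ 6 * dist x y := by
    intro l
    rw [cc_Em, cc_Em]
    have e : cc x l * fac row piv w l + tra row w l - (cc y l * fac row piv w l + tra row w l) =
        (cc x l - cc y l) * fac row piv w l := by ring
    rw [e, norm_mul]
    have h1 : ‖cc x l - cc y l‖ ≤ 2 * dist x y := by
      have h2 := Complex.norm_le_abs_re_add_abs_im (cc x l - cc y l)
      have h3 : |(cc x l - cc y l).re| ≤ dist x y := by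
        have : |(cc x l - cc y l).re| = dist (x.1 l) (y.1 l) := by
          rw [Real.dist_eq]
          rfl
        rw [this]
        exact (dist_le_pi_dist x.1 y.1 l).trans (le_max_left _ _)
      have h4 : |(cc x l - cc y l).im| ≤ dist x y := by
        have : |(cc x l - cc y l).im| = dist (x.2 l) (y.2 l) := by
          rw [Real.dist_eq]
          rfl
        rw [this]
        exact (dist_le_pi_dist x.2 y.2 l).trans (le_max_right _ _)
      linarith
    calc ‖cc x l - cc y l‖ * ‖fac row piv w l‖ ≤ (2 * dist x y) * 3 :=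
          mul_le_mul h1 (fac_le row piv hr hnr hw l) (norm_nonneg _) (by positivity)
      _ = 6 * dist x y := by ring
  rw [Prod.dist_eq]
  refine max_le ((dist_pi_le_iff (by positivity)).2 fun l => ?_)
    ((dist_pi_le_iff (by positivity)).2 fun l => ?_)
  · rw [Real.dist_eq]
    exact (Complex.abs_re_le_norm _).trans (key l)
  · rw [Real.dist_eq]
    exact (Complex.abs_im_le_norm _).trans (key l)

theorem haar (k : ℕ) : (volume : Measure (Cn k)).IsAddHaarMeasure :=
  Measure.prod.instIsAddHaarMeasure (G := Fin k → ℝ) (H := Fin k → ℝ) volume volume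

theorem volume_image_le {f : Cn n → Cn n} {K : ℝ≥0} (hf : LipschitzWith K f) (S : Set (Cn n)) :
    volume (f '' S) ≤ (K : ℝ≥0∞) ^ (2 * n) * volume S := by
  have hfr : Module.finrank ℝ (Cn n) = 2 * n := by
    rw [Module.finrank_prod, Module.finrank_fin_fun]
    ring
  have hinv := haar n
  have h1 := hf.hausdorffMeasure_image_le (d := (Module.finrank ℝ (Cn n) : ℝ)) (by positivity) S
  obtain ⟨c, h2⟩ : ∃ c : ℝ≥0, (volume : Measure (Cn n)) =
      c • (μH[(Module.finrank ℝ (Cn n) : ℝ)] : Measure (Cn n)) :=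
    ⟨_, Measure.isAddLeftInvariant_eq_smul _ _⟩
  rw [h2, Measure.smul_apply, Measure.smul_apply]
  have h3 : (K : ℝ≥0∞) ^ (Module.finrank ℝ (Cn n) : ℝ) = (K : ℝ≥0∞) ^ (2 * n) := by
    rw [hfr]
    exact ENNReal.rpow_natCast _ _
  rw [h3] at h1
  rw [ENNReal.smul_def, ENNReal.smul_def, smul_eq_mul, smul_eq_mul, mul_left_comm]
  gcongr

/-- averaging over the maps `x ↦ E(x, w)` -/
theorem volume_le_average (row : Fin n → Option (Fin m)) (piv : Fin m → Fin n)
    (hcont : Continuous fun p : Cn n × Cn n => Em row piv p.1 p.2) {r : ℝ} (hr : 0 < r)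
    (hnr : (n + 1) * r ≤ 1)
    (hE : ∀ q ∈ cpd (k := n) 1, ∀ w ∈ cpd (k := n) r, Em row piv q w ∈ cpd (3 / 2))
    {B : Set (Cn n)} (hB : MeasurableSet B) (hB1 : B ⊆ cpd 1) {α : ℝ≥0∞}
    (h : ∀ q ∈ cpd (k := n) (3 / 2), volume {w : Cn n | w ∈ cpd r ∧ Em row piv q w ∈ B} ≤ α) :
    volume (cpd (k := n) r) * volume B ≤
      6 ^ (2 * n) * (volume (cpd (k := n) (3 / 2)) * α) := by
  set S : Set (Cn n × Cn n) := {p | p.1 ∈ cpd (k := n) (3 / 2) ∧ p.2 ∈ cpd (k := n) r ∧
    Em row piv p.1 p.2 ∈ B} with hS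
  have hSm : MeasurableSet S := by
    refine MeasurableSet.inter ?_ (MeasurableSet.inter ?_ ?_)
    · exact measurable_fst (isCompact_cpd _).isClosed.measurableSet
    · exact measurable_snd (isCompact_cpd _).isClosed.measurableSet
    · exact hcont.measurable hB
  have h1 : (volume.prod volume) S ≤ volume (cpd (k := n) (3 / 2)) * α := by
    rw [Measure.prod_apply hSm]
    calc ∫⁻ x, volume (Prod.mk x ⁻¹' S) ≤ ∫⁻ x, (cpd (k := n) (3 / 2)).indicator (fun _ => α) x := by
          refine lintegral_mono fun x => ?_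
          by_cases hx : x ∈ cpd (k := n) (3 / 2)
          · rw [indicator_of_mem hx]
            refine (measure_mono ?_).trans (h x hx)
            intro w hw
            exact ⟨hw.2.1, hw.2.2⟩
          · rw [indicator_of_notMem hx]
            have : Prod.mk x ⁻¹' S = ∅ := by
              ext w
              simp only [mem_preimage, mem_empty_iff_false, iff_false]
              exact fun hw => hx hw.1
            rw [this, measure_empty]
      _ = volume (cpd (k := n) (3 / 2)) * α := by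
          rw [lintegral_indicator (isCompact_cpd _).isClosed.measurableSet, lintegral_const,
            Measure.restrict_apply_univ, mul_comm]
  have h2 : volume (cpd (k := n) r) * volume B ≤ 6 ^ (2 * n) * (volume.prod volume) S := by
    rw [Measure.prod_apply_symm hSm]
    calc volume (cpd (k := n) r) * volume B
        = ∫⁻ w, (cpd (k := n) r).indicator (fun _ => volume B) w := by
          rw [lintegral_indicator (isCompact_cpd _).isClosed.measurableSet, lintegral_const,
            Measure.restrict_apply_univ, mul_comm]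
      _ ≤ ∫⁻ w, 6 ^ (2 * n) * volume ((fun x => (x, w)) ⁻¹' S) := by
          refine lintegral_mono fun w => ?_
          by_cases hw : w ∈ cpd (k := n) r
          · rw [indicator_of_mem hw]
            have h3 := volume_image_le (lipschitz_Em row piv hr.le hnr hw)
              ((fun x => (x, w)) ⁻¹' S)
            refine (measure_mono ?_).trans h3
            intro x hx
            have hnw : -w ∈ cpd (k := n) r := by
              intro l
              have := hw l
              simpa using this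
            refine ⟨Em row piv x (-w), ⟨hE x (hB1 hx) _ hnw, hw, ?_⟩, Em_inv row piv x w⟩
            rw [Em_inv]
            exact hx
          · rw [indicator_of_notMem hw]
            exact zero_le
      _ = 6 ^ (2 * n) * ∫⁻ w, volume ((fun x => (x, w)) ⁻¹' S) := by
          rw [lintegral_const_mul' _ _ (by finiteness)]
  exact h2.trans (mul_le_mul_right h1 _)

/-- the points with a small coordinate -/
theorem volume_small_coord (n : ℕ) : ∃ C : ℝ, 0 ≤ C ∧ ∀ δ ∈ Ioc (0 : ℝ) 1,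
    volume {x : Cn n | x ∈ cpd 1 ∧ ∃ l, x.1 l ^ 2 + x.2 l ^ 2 < δ ^ 2} ≤
      ENNReal.ofReal (C * δ ^ 2) := by
  refine ⟨n * 4 ^ (n + 1), by positivity, fun δ hδ => ?_⟩
  classical
  have hsub : {x : Cn n | x ∈ cpd 1 ∧ ∃ l, x.1 l ^ 2 + x.2 l ^ 2 < δ ^ 2} ⊆
      ⋃ l : Fin n, (Icc (fun j => if j = l then -δ else -1 : Fin n → ℝ)
        (fun j => if j = l then δ else 1)) ×ˢ (Icc (fun j => if j = l then -δ else -1 : Fin n → ℝ)
        (fun j => if j = l then δ else 1)) := by
    rintro x ⟨hx, l, hl⟩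
    refine mem_iUnion.2 ⟨l, ?_⟩
    have h1 : |x.1 l| ≤ δ := abs_le_of_sq_le_sq (by nlinarith [sq_nonneg (x.2 l)]) hδ.1.le
    have h2 : |x.2 l| ≤ δ := abs_le_of_sq_le_sq (by nlinarith [sq_nonneg (x.1 l)]) hδ.1.le
    have h3 := abs_fst_le zero_le_one hx
    have h4 := abs_snd_le zero_le_one hx
    refine ⟨⟨fun j => ?_, fun j => ?_⟩, ⟨fun j => ?_, fun j => ?_⟩⟩ <;> simp only <;>
      split_ifs with hj
    · subst hj; exact (abs_le.1 h1).1
    · exact (abs_le.1 (h3 j)).1
    · subst hj; exact (abs_le.1 h1).2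
    · exact (abs_le.1 (h3 j)).2
    · subst hj; exact (abs_le.1 h2).1
    · exact (abs_le.1 (h4 j)).1
    · subst hj; exact (abs_le.1 h2).2
    · exact (abs_le.1 (h4 j)).2
  have hvol : ∀ l : Fin n, volume (Icc (fun j => if j = l then -δ else -1 : Fin n → ℝ)
        (fun j => if j = l then δ else 1)) ≤ ENNReal.ofReal (2 ^ (n + 1) * δ) := by
    intro l
    rw [Real.volume_Icc_pi]
    have hpr : ∏ i : Fin n, ENNReal.ofReal ((if i = l then δ else 1) - (if i = l then -δ else -1)) =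
        ENNReal.ofReal (∏ i : Fin n, ((if i = l then δ else 1) - (if i = l then -δ else -1))) := by
      rw [ENNReal.ofReal_prod_of_nonneg]
      intro i _
      split_ifs
      · linarith [hδ.1]
      · norm_num
    rw [hpr]
    apply ENNReal.ofReal_le_ofReal
    have h5 : ∀ i : Fin n, ((if i = l then δ else 1) - (if i = l then -δ else -1)) =
        2 * (if i = l then δ else 1) := by
      intro i
      split_ifs <;> ring
    simp only [h5]
    rw [Finset.prod_mul_distrib, Finset.prod_ite_eq' Finset.univ l (fun _ => δ)]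
    simp only [Finset.mem_univ, if_true, Finset.prod_const, Finset.card_univ, Fintype.card_fin]
    have h6 : (2 : ℝ) ^ n ≤ 2 ^ (n + 1) := pow_le_pow_right₀ (by norm_num) (by omega)
    exact mul_le_mul_of_nonneg_right h6 hδ.1.le
  calc volume {x : Cn n | x ∈ cpd 1 ∧ ∃ l, x.1 l ^ 2 + x.2 l ^ 2 < δ ^ 2}
      ≤ ∑ l : Fin n, volume ((Icc (fun j => if j = l then -δ else -1 : Fin n → ℝ)
        (fun j => if j = l then δ else 1)) ×ˢ (Icc (fun j => if j = l then -δ else -1 : Fin n → ℝ)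
        (fun j => if j = l then δ else 1))) :=
        (measure_mono hsub).trans (measure_iUnion_fintype_le _ _)
    _ ≤ ∑ _l : Fin n, ENNReal.ofReal (4 ^ (n + 1) * δ ^ 2) := by
        refine Finset.sum_le_sum fun l _ => ?_
        rw [Measure.volume_eq_prod, Measure.prod_prod]
        calc _ ≤ ENNReal.ofReal (2 ^ (n + 1) * δ) * ENNReal.ofReal (2 ^ (n + 1) * δ) :=
              mul_le_mul' (hvol l) (hvol l)
          _ = ENNReal.ofReal (4 ^ (n + 1) * δ ^ 2) := by
              have hd0 := hδ.1.le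
              rw [← ENNReal.ofReal_mul (by positivity)]
              congr 1
              have : (4 : ℝ) ^ (n + 1) = 2 ^ (n + 1) * 2 ^ (n + 1) := by
                rw [← mul_pow]
                norm_num
              rw [this]
              ring
    _ = ENNReal.ofReal (n * 4 ^ (n + 1) * δ ^ 2) := by
        rw [Finset.sum_const, Finset.card_univ, Fintype.card_fin, nsmul_eq_mul,
          ← ENNReal.ofReal_natCast, ← ENNReal.ofReal_mul (by positivity)]
        congr 1
        ring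

/-- the numbers -/
theorem numbers (K a b : ℝ) (hK : 0 ≤ K) (ha : 0 ≤ a) (hb : 0 ≤ b) (A B : ℕ) :
    ∃ d₀ ∈ Ioc (0 : ℝ) 1, ∀ d ∈ Ioo (0 : ℝ) d₀,
      K * (d * (1 + a * Real.log (1 / d)) ^ A) * (1 + b * Real.log (1 / d)) ^ B ≤ √d := by
  set c := max a b with hc
  have hc0 : 0 ≤ c := le_max_of_le_left ha
  set k := A + B with hk
  set ε : ℝ := 1 / (4 * (k + 1)) with hε
  have hε0 : 0 < ε := by positivity
  set C : ℝ := K * (1 + c / ε) ^ k with hC
  have hC0 : 0 ≤ C := by positivity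
  refine ⟨min 1 ((1 / (C + 1)) ^ 4), ⟨lt_min one_pos (by positivity), min_le_left _ _⟩, ?_⟩
  intro d hd
  have hd0 : 0 < d := hd.1
  have hd1 : d < 1 := lt_of_lt_of_le hd.2 (min_le_left _ _)
  have hdC : d < (1 / (C + 1)) ^ 4 := lt_of_lt_of_le hd.2 (min_le_right _ _)
  have hx1 : 1 ≤ 1 / d := by rw [le_div_iff₀ hd0]; linarith
  have hlog0 : 0 ≤ Real.log (1 / d) := Real.log_nonneg hx1
  have hlog := Real.log_le_rpow_div (x := 1 / d) (by positivity) hε0
  have hp1 : 1 ≤ (1 / d) ^ ε := Real.one_le_rpow hx1 hε0.le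
  have hfac : ∀ a' : ℝ, 0 ≤ a' → a' ≤ c → 1 + a' * Real.log (1 / d) ≤ (1 + c / ε) * (1 / d) ^ ε := by
    intro a' ha' hac
    calc 1 + a' * Real.log (1 / d) ≤ (1 / d) ^ ε + c * ((1 / d) ^ ε / ε) :=
          add_le_add hp1 (mul_le_mul hac hlog hlog0 hc0)
      _ = (1 + c / ε) * (1 / d) ^ ε := by ring
  have hA : (1 + a * Real.log (1 / d)) ^ A ≤ ((1 + c / ε) * (1 / d) ^ ε) ^ A :=
    pow_le_pow_left₀ (by positivity) (hfac a ha (le_max_left _ _)) _
  have hB : (1 + b * Real.log (1 / d)) ^ B ≤ ((1 + c / ε) * (1 / d) ^ ε) ^ B :=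
    pow_le_pow_left₀ (by positivity) (hfac b hb (le_max_right _ _)) _
  have hpk : ((1 / d) ^ ε) ^ k ≤ (1 / d) ^ (1 / 4 : ℝ) := by
    rw [← Real.rpow_natCast, ← Real.rpow_mul (by positivity)]
    apply Real.rpow_le_rpow_of_exponent_le hx1
    rw [hε]
    rw [div_mul_eq_mul_div, one_mul, div_le_div_iff₀ (by positivity) (by norm_num)]
    linarith
  have hq : C * (1 / d) ^ (1 / 4 : ℝ) * d ≤ √d := by
    have e1 : d = d ^ (1 / 4 : ℝ) * (d ^ (1 / 4 : ℝ) * √d) := by
      rw [Real.sqrt_eq_rpow, ← Real.rpow_add hd0, ← Real.rpow_add hd0]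
      norm_num
    have e2 : (1 / d) ^ (1 / 4 : ℝ) * d ^ (1 / 4 : ℝ) = 1 := by
      rw [← Real.mul_rpow (by positivity) hd0.le, one_div, inv_mul_cancel₀ hd0.ne', Real.one_rpow]
    have e3 : C * d ^ (1 / 4 : ℝ) ≤ 1 := by
      have h7 : d ^ (1 / 4 : ℝ) ≤ ((1 / (C + 1)) ^ 4) ^ (1 / 4 : ℝ) :=
        Real.rpow_le_rpow hd0.le hdC.le (by norm_num)
      have h8 : ((1 / (C + 1)) ^ 4) ^ (1 / 4 : ℝ) = 1 / (C + 1) := by
        rw [← Real.rpow_natCast, ← Real.rpow_mul (by positivity)]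
        norm_num
      rw [h8] at h7
      calc C * d ^ (1 / 4 : ℝ) ≤ C * (1 / (C + 1)) := mul_le_mul_of_nonneg_left h7 hC0
        _ ≤ 1 := by
          rw [mul_one_div, div_le_one (by positivity)]
          linarith
    calc C * (1 / d) ^ (1 / 4 : ℝ) * d
        = ((1 / d) ^ (1 / 4 : ℝ) * d ^ (1 / 4 : ℝ)) * (C * d ^ (1 / 4 : ℝ)) * √d := by
          nth_rewrite 2 [e1]
          ring
      _ ≤ 1 * 1 * √d := by
          rw [e2]
          exact mul_le_mul_of_nonneg_right (mul_le_mul_of_nonneg_left e3 zero_le_one)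
            (Real.sqrt_nonneg _)
      _ = √d := by ring
  calc K * (d * (1 + a * Real.log (1 / d)) ^ A) * (1 + b * Real.log (1 / d)) ^ B
      ≤ K * (d * ((1 + c / ε) * (1 / d) ^ ε) ^ A) * ((1 + c / ε) * (1 / d) ^ ε) ^ B := by
        gcongr
    _ = K * (1 + c / ε) ^ k * ((1 / d) ^ ε) ^ k * d := by
        rw [hk, pow_add, pow_add, mul_pow, mul_pow]
        ring
    _ ≤ K * (1 + c / ε) ^ k * (1 / d) ^ (1 / 4 : ℝ) * d := by
        gcongr
    _ ≤ √d := hq

end Pool.Agent.KRFG.Decay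

end

section

/-!
# The decay on the total space: continuity and one slice (helper52)
-/

open scoped ContDiff ENNReal ComplexOrder Topology NNReal Pointwise
open Set MeasureTheory Filter Pool.Agent.ToricKRF Pool.Agent.ToricKRF.G Pool.Agent.KRFS
  Pool.Agent.KRFF

namespace Pool.Agent.KRFG.Decay

section

variable {k : ℕ}

theorem isOpen_opd (r : ℝ) : IsOpen (opd (k := k) r) := by
  have : (opd r : Set (Cn k)) = ⋂ i, {u | u.1 i ^ 2 + u.2 i ^ 2 < r ^ 2} := by
    ext u
    simp [opd]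
  rw [this]
  refine isOpen_iInter_of_finite fun i => isOpen_lt ?_ continuous_const
  fun_prop

theorem cpd_sub_opd {a b : ℝ} (ha : 0 ≤ a) (h : a < b) : cpd (k := k) a ⊆ opd b := by
  intro u hu i
  have := hu i
  nlinarith

theorem cpd_sub_cpd {a b : ℝ} (ha : 0 ≤ a) (h : a ≤ b) : cpd (k := k) a ⊆ cpd b := by
  intro u hu i
  have := hu i
  nlinarith

theorem nsq_le_of_opd {u : Cn k} (hu : u ∈ opd (k := k) 9) : nsq u ≤ 81 * k := by
  have : nsq u = ∑ i, (u.1 i ^ 2 + u.2 i ^ 2) := by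
    simp only [nsq, dotProduct, Finset.sum_add_distrib, pow_two]
  rw [this]
  calc ∑ i, (u.1 i ^ 2 + u.2 i ^ 2) ≤ ∑ _i : Fin k, (81 : ℝ) := by
        refine Finset.sum_le_sum fun i _ => ?_
        have := hu i
        linarith
    _ = 81 * k := by simp [mul_comm]

theorem nsq_nonneg (u : Cn k) : 0 ≤ nsq u := by
  have : nsq u = ∑ i, (u.1 i ^ 2 + u.2 i ^ 2) := by
    simp only [nsq, dotProduct, Finset.sum_add_distrib, pow_two]
  rw [this]
  positivity

theorem contDiff_nsq : ContDiff ℝ ∞ (nsq : Cn k → ℝ) := by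
  have : (nsq : Cn k → ℝ) = fun u => ∑ i, (u.1 i ^ 2 + u.2 i ^ 2) := by
    funext u
    simp only [nsq, dotProduct, Finset.sum_add_distrib, pow_two]
  rw [this]
  fun_prop

end

variable {n m : ℕ} {M Y W : Type} [TopologicalSpace M] [CompactSpace M] [T2Space M]
  [TopologicalSpace Y] [T2Space Y] [TopologicalSpace W] [T2Space W] {κ P ι : Type}
  [Finite P] [Fintype ι] {T : ℝ} (F : Mod n m M Y W κ P ι T)

include F in
theorem mem_source {c : ι} {x : Cn n} (hx : x ∈ opd (k := n) 10) :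
    (F.a c).symm x ∈ (F.a c).source :=
  (F.a c).map_target (by rw [F.model.target c]; exact hx)

theorem cont_pi (c : ι) : ContinuousOn (fun x => F.π ((F.a c).symm x)) (opd (k := n) 10) := by
  have h1 : ContinuousOn (fun x => F.e (F.al c) (F.π ((F.a c).symm x))) (opd (k := n) 10) :=
    (F.model.holo c).1.continuousOn
  have h2 : ContinuousOn (fun x => (F.e (F.al c)).symm
      (F.e (F.al c) (F.π ((F.a c).symm x)))) (opd (k := n) 10) :=
    (F.e (F.al c)).continuousOn_symm.comp h1 fun x hx =>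
      (F.e (F.al c)).map_source (F.model.mem c _ (mem_source F hx))
  refine h2.congr fun x hx => ?_
  exact ((F.e (F.al c)).left_inv (F.model.mem c _ (mem_source F hx))).symm

theorem cont_f (c : ι) : ContinuousOn (fun x => F.f (F.π ((F.a c).symm x))) (opd (k := n) 10) :=
  F.hol.cont.comp_continuousOn (cont_pi F c)

theorem mem_base {c : ι} {x : Cn n} (hx : x ∈ opd (k := n) 10) :
    F.f (F.π ((F.a c).symm x)) ∈ (F.b (F.pc c)).source := by
  have h := (F.model.base ((F.a c).symm x)).1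
  rwa [F.model.lab_eq c _ (mem_source F hx)] at h

theorem cont_yc (c : ι) : ContinuousOn (F.yc c) (opd (k := n) 10) :=
  (F.b (F.pc c)).continuousOn.comp (cont_f F c) fun _ hx => mem_base F hx

theorem cont_gc {t : ℝ} (ht : t ∈ Ico 0 T) (c : ι) : ContinuousOn (F.gc t c) (opd (k := n) 10) :=
  (F.smooth_W ht c).continuousOn.sub ((F.Mx_continuous ht).comp_continuousOn (cont_f F c))

theorem gc_nonpos {t : ℝ} (ht : t ∈ Ico 0 T) (c : ι) (x : Cn n) : F.gc t c x ≤ 0 :=
  sub_nonpos.2 ((F.Mx_spec ht _).2 _ rfl)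

/-- the base point depends only on the products -/
theorem base_eq {c : ι} {x x' : Cn n} (hx : x ∈ opd (k := n) 10) (hx' : x' ∈ opd (k := n) 10)
    (h : ∀ i, prow (F.row c) i x = prow (F.row c) i x') :
    F.f (F.π ((F.a c).symm x)) = F.f (F.π ((F.a c).symm x')) := by
  have key : ∀ y : Cn n, y ∈ opd (k := n) 10 → ∀ i,
      cc (F.b (F.pc c) (F.f (F.π ((F.a c).symm y)))) i =
        (F.s c i * prow (F.row c) i y) ^ F.N (F.pc c) i := by
    intro y hy i
    have h1 := (F.model.base ((F.a c).symm y)).2 i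
    rw [F.model.lab_eq c _ (mem_source F hy)] at h1
    rw [h1, F.model.mono c _ (mem_source F hy) i, (F.a c).right_inv (by
      rw [F.model.target c]
      exact hy)]
  apply (F.b (F.pc c)).injOn (mem_base F hx) (mem_base F hx')
  apply cc_ext
  intro i
  rw [key x hx, key x' hx', h]

theorem holOn_smul (r : ℝ) : HolOn (fun z : Cn n => r • z) univ := by
  refine ⟨by fun_prop, fun z _ u => ?_⟩
  have h : HasFDerivAt (fun z : Cn n => r • z) (r • ContinuousLinearMap.id ℝ (Cn n)) z :=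
    (hasFDerivAt_id z).const_smul r
  rw [h.fderiv]
  simp [J_smul]

/-- the decay in one fibre -/
theorem slice : ∃ (K r : ℝ) (B : ℕ), 0 ≤ K ∧ 0 < r ∧ r ≤ 1 ∧ ∀ t ∈ Ico 0 T, ∀ c,
    ∀ piv : Fin m → Fin n, (∀ i, F.row c (piv i) = some i) →
    ∀ q ∈ cpd (k := n) (3 / 2), (∀ i, prow (F.row c) i q ≠ 0) → nsq (F.yc c q) ≤ 20 →
    ∀ Λ : ℝ, ∑ i, |Real.log ‖prow (F.row c) i q‖| ≤ Λ → ∀ ρ ∈ Ioc (0 : ℝ) 1, ∀ N > 0,
      K * ((T - t) * (1 + Λ) ^ B) * (1 + Real.log (1 / ρ)) ^ n ≤ N →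
      volume {w : Cn n | w ∈ cpd r ∧ F.gc t c (Em (F.row c) piv q w) < -N} ≤
        ENNReal.ofReal ρ := by
  obtain ⟨C, r, B, hC, hr, hr1, hch⟩ := F.chain
  obtain ⟨Cf, hCf, hfib⟩ := F.fib_psh
  obtain ⟨Cd, hCd, hdec⟩ := psh_decay_of_integral n
  have hvr : volume (cpd (k := n) r) ≠ ⊤ := volume_cpd_ne_top r
  set v : ℝ := (volume (cpd (k := n) r)).toReal with hv
  have hv0 : 0 ≤ v := ENNReal.toReal_nonneg
  set K₁ : ℝ := (5 / r) ^ (2 * n) * (C + Cf * (81 * n) * v / T) with hK₁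
  by_cases hT : 0 < T
  swap
  · exact ⟨0, 1, 0, le_rfl, one_pos, le_rfl, fun t ht => absurd (lt_of_le_of_lt ht.1 ht.2) hT⟩
  have hK₁0 : 0 ≤ K₁ := by positivity
  refine ⟨Cd * K₁, 2 * r / 5, B, by positivity, by positivity, by linarith, ?_⟩
  intro t ht c piv hpiv q hq hne hyc Λ hΛ ρ hρ N hN hcond
  obtain ⟨hE9, hint⟩ := hch t ht c piv hpiv q hq hne hyc
  have hTt : 0 < T - t := by linarith [ht.2]
  have hd0 : 0 ≤ 1 - t / T := by
    rw [sub_nonneg, div_le_one hT]
    exact ht.2.le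
  have hd1 : 1 - t / T = (T - t) / T := by field_simp
  have hΛ0 : 0 ≤ Λ := le_trans (Finset.sum_nonneg fun i _ => abs_nonneg _) hΛ
  have hq10 : q ∈ opd (k := n) 10 := cpd_sub_opd (by norm_num) (by norm_num) hq
  -- the function in the logarithmic coordinates
  set E : Cn n → Cn n := fun w => Em (F.row c) piv q w with hE
  have hEhol : HolOn E univ := Fb.Em_holOn' q
  set M₀ : ℝ := F.Mx t (F.f (F.π ((F.a c).symm q))) with hM₀
  set G : Cn n → ℝ := fun w => F.Phi t (F.π ((F.a c).symm (E w))) - M₀ +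
    Cf * (1 - t / T) * (nsq (E w) - 81 * n) with hG
  have h910 : ∀ x ∈ opd (k := n) 9, x ∈ opd (k := n) 10 := by
    intro x hx i
    have := hx i
    nlinarith
  have hgc : ∀ w, E w ∈ opd (k := n) 9 → F.gc t c (E w) =
      F.Phi t (F.π ((F.a c).symm (E w))) - M₀ := by
    intro w hw
    unfold Mod.gc
    rw [base_eq F (h910 _ hw) hq10 fun i => Fb.prow_Em' hpiv q w i]
  have hGle : ∀ w, E w ∈ opd (k := n) 9 → G w ≤ F.gc t c (E w) := by
    intro w hw
    rw [hgc w hw]
    have h1 := nsq_le_of_opd hw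
    have h2 : Cf * (1 - t / T) * (nsq (E w) - 81 * n) ≤ 0 :=
      mul_nonpos_of_nonneg_of_nonpos (by positivity) (by linarith)
    simp only [hG]
    linarith
  have hS9 : IsOpen (E ⁻¹' opd (k := n) 9) := by
    have : Continuous E := continuousOn_univ.1 hEhol.1.continuousOn
    exact (isOpen_opd 9).preimage this
  have hGs : ContDiffOn ℝ ∞ G (E ⁻¹' opd (k := n) 9) := by
    have h1 : ContDiffOn ℝ ∞ (fun w => F.Phi t (F.π ((F.a c).symm (E w))))
        (E ⁻¹' opd (k := n) 9) :=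
      (F.smooth_W ht c).comp (hEhol.1.mono (subset_univ _)) fun w hw => h910 _ hw
    have h2 : ContDiffOn ℝ ∞ (fun w => nsq (E w)) (E ⁻¹' opd (k := n) 9) :=
      contDiff_nsq.comp_contDiffOn (hEhol.1.mono (subset_univ _))
    exact (h1.sub contDiffOn_const).add (contDiffOn_const.mul (h2.sub contDiffOn_const))
  -- rescaling
  set lam : ℝ := r / 5 with hlam
  have hlam0 : 0 < lam := by positivity
  have hscale : ∀ z ∈ opd (k := n) 5, lam • z ∈ cpd (k := n) r := by
    intro z hz i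
    have h1 := hz i
    have h2 : (lam • z).1 i = lam * z.1 i := rfl
    have h3 : (lam • z).2 i = lam * z.2 i := rfl
    rw [h2, h3]
    have h4 : (lam * z.1 i) ^ 2 + (lam * z.2 i) ^ 2 = lam ^ 2 * (z.1 i ^ 2 + z.2 i ^ 2) := by ring
    rw [h4]
    have h5 : r ^ 2 = lam ^ 2 * 5 ^ 2 := by
      rw [hlam]
      ring
    rw [h5]
    exact mul_le_mul_of_nonneg_left h1.le (by positivity)
  set h : Cn n → ℝ := fun z => G (lam • z) with hh
  have hhs : ContDiffOn ℝ ∞ h (opd 5) :=
    hGs.comp (g := G) (f := fun z : Cn n => lam • z) (by fun_prop)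
      fun z hz => hE9 _ (hscale z hz)
  have hhneg : ∀ z ∈ opd (k := n) 5, h z ≤ 0 := fun z hz =>
    (hGle _ (hE9 _ (hscale z hz))).trans (gc_nonpos F ht c _)
  have hhpsh : ∀ z ∈ opd (k := n) 5, ∀ u, 0 ≤ levz h u z := by
    intro z hz u
    have h1 : levz h u z = levz G (fderiv ℝ (fun z : Cn n => lam • z) z u) (lam • z) :=
      levz_comp hS9 hGs isOpen_univ (holOn_smul lam) (mem_univ z) (hE9 _ (hscale z hz)) u
    rw [h1]
    exact hfib t ht c q (by
      intro i
      have := hq i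
      nlinarith) M₀ piv hpiv _ (hE9 _ (hscale z hz)) _
  -- the integral
  have hcpdr : IsCompact (cpd (k := n) r) := isCompact_cpd r
  have hGint : IntegrableOn (fun w => -G w) (cpd (k := n) r) :=
    (hGs.continuousOn.mono fun w hw => hE9 w hw).neg.integrableOn_compact hcpdr
  have hgcint : IntegrableOn (fun w => -F.gc t c (E w)) (cpd (k := n) r) := by
    refine ContinuousOn.integrableOn_compact hcpdr ?_
    refine ((cont_gc F ht c).comp (hEhol.1.continuousOn.mono (subset_univ _)) ?_).neg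
    intro w hw
    exact h910 _ (hE9 w hw)
  have hI1 : ∫ w in cpd (k := n) r, -G w ≤ (T - t) * (1 + Λ) ^ B * (C + Cf * (81 * n) * v / T) := by
    have hle : ∫ w in cpd (k := n) r, -G w ≤
        ∫ w in cpd (k := n) r, (-F.gc t c (E w) + Cf * (1 - t / T) * (81 * n)) := by
      refine setIntegral_mono_on hGint (hgcint.add (integrableOn_const hvr))
        hcpdr.isClosed.measurableSet ?_
      intro w hw
      rw [hgc w (hE9 w hw)]
      have h1 := nsq_nonneg (E w)
      have h2 : 0 ≤ Cf * (1 - t / T) * nsq (E w) := by positivity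
      simp only [hG]
      nlinarith
    rw [integral_add hgcint (integrableOn_const hvr), setIntegral_const, smul_eq_mul] at hle
    have hvreal : volume.real (cpd (k := n) r) = v := rfl
    rw [hvreal] at hle
    have h3 : (1 + ∑ i, |Real.log ‖prow (F.row c) i q‖|) ^ B ≤ (1 + Λ) ^ B :=
      pow_le_pow_left₀ (by positivity) (by linarith) _
    have h4 : (1 : ℝ) ≤ (1 + Λ) ^ B := one_le_pow₀ (by linarith)
    have h5 : C * (T - t) * (1 + ∑ i, |Real.log ‖prow (F.row c) i q‖|) ^ B ≤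
        C * (T - t) * (1 + Λ) ^ B := mul_le_mul_of_nonneg_left h3 (by positivity)
    have h6 : v * (Cf * (1 - t / T) * (81 * n)) ≤
        (T - t) * (1 + Λ) ^ B * (Cf * (81 * n) * v / T) := by
      rw [hd1]
      have h7 : v * (Cf * ((T - t) / T) * (81 * n)) = (T - t) * (Cf * (81 * n) * v / T) := by
        field_simp
      rw [h7]
      have h8 : 0 ≤ (T - t) * (Cf * (81 * n) * v / T) := by positivity
      calc (T - t) * (Cf * (81 * n) * v / T)
          = (T - t) * (Cf * (81 * n) * v / T) * 1 := by ring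
        _ ≤ (T - t) * (Cf * (81 * n) * v / T) * (1 + Λ) ^ B := mul_le_mul_of_nonneg_left h4 h8
        _ = (T - t) * (1 + Λ) ^ B * (Cf * (81 * n) * v / T) := by ring
    have h9 := hint.trans h5
    calc ∫ w in cpd (k := n) r, -G w ≤ _ := hle
      _ ≤ C * (T - t) * (1 + Λ) ^ B + (T - t) * (1 + Λ) ^ B * (Cf * (81 * n) * v / T) :=
          add_le_add h9 h6
      _ = (T - t) * (1 + Λ) ^ B * (C + Cf * (81 * n) * v / T) := by ring
  have hinv := haar n
  have hfr : Module.finrank ℝ (Cn n) = 2 * n := by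
    rw [Module.finrank_prod, Module.finrank_fin_fun]
    ring
  have hI2 : ∫ z in cpd (k := n) (9 / 2), -h z ≤ K₁ * ((T - t) * (1 + Λ) ^ B) := by
    have h1 := Measure.setIntegral_comp_smul (volume : Measure (Cn n)) (fun w => -G w)
      (R := lam) (cpd (k := n) (9 / 2)) hlam0.ne'
    have h2 : ∫ z in cpd (k := n) (9 / 2), -h z = ∫ x in cpd (k := n) (9 / 2),
        (fun w => -G w) (lam • x) := rfl
    rw [h2, h1, hfr, smul_eq_mul]
    have h3 : |(lam ^ (2 * n))⁻¹| = (5 / r) ^ (2 * n) := by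
      rw [abs_of_pos (by positivity), ← inv_pow, hlam, inv_div]
    rw [h3]
    have hsub : lam • cpd (k := n) (9 / 2) ⊆ cpd (k := n) r := by
      rintro _ ⟨z, hz, rfl⟩
      exact hscale z (cpd_sub_opd (by norm_num) (by norm_num) hz)
    have h4 : ∫ x in lam • cpd (k := n) (9 / 2), -G x ≤ ∫ w in cpd (k := n) r, -G w := by
      refine setIntegral_mono_set hGint ?_ hsub.eventuallyLE
      refine (ae_restrict_iff' hcpdr.isClosed.measurableSet).2 (ae_of_all _ fun w hw => ?_)
      have h5 := (hGle _ (hE9 w hw)).trans (gc_nonpos F ht c _)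
      simp only [Pi.zero_apply]
      linarith
    calc (5 / r) ^ (2 * n) * ∫ x in lam • cpd (k := n) (9 / 2), -G x
        ≤ (5 / r) ^ (2 * n) * ((T - t) * (1 + Λ) ^ B * (C + Cf * (81 * n) * v / T)) :=
          mul_le_mul_of_nonneg_left (h4.trans hI1) (by positivity)
      _ = K₁ * ((T - t) * (1 + Λ) ^ B) := by
          rw [hK₁]
          ring
  -- the decay
  have hlogρ : 0 ≤ Real.log (1 / ρ) := Real.log_nonneg (by
    rw [le_div_iff₀ hρ.1]
    linarith [hρ.2])
  have hL0 : 0 ≤ K₁ * ((T - t) * (1 + Λ) ^ B) := by positivity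
  have hdec' := hdec h (K₁ * ((T - t) * (1 + Λ) ^ B)) hhs hhneg hhpsh hI2 ρ hρ N hN (by
    calc Cd * (K₁ * ((T - t) * (1 + Λ) ^ B)) * (1 + Real.log (1 / ρ)) ^ n
        = Cd * K₁ * ((T - t) * (1 + Λ) ^ B) * (1 + Real.log (1 / ρ)) ^ n := by ring
      _ ≤ N := hcond)
  have hCL : Cd * (K₁ * ((T - t) * (1 + Λ) ^ B)) ≤ N := by
    have h1 : (1 : ℝ) ≤ (1 + Real.log (1 / ρ)) ^ n := one_le_pow₀ (by linarith)
    calc Cd * (K₁ * ((T - t) * (1 + Λ) ^ B))
        = Cd * K₁ * ((T - t) * (1 + Λ) ^ B) * 1 := by ring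
      _ ≤ Cd * K₁ * ((T - t) * (1 + Λ) ^ B) * (1 + Real.log (1 / ρ)) ^ n :=
          mul_le_mul_of_nonneg_left h1 (by positivity)
      _ ≤ N := hcond
  have hsub2 : {w : Cn n | w ∈ cpd (2 * r / 5) ∧ F.gc t c (E w) < -N} ⊆
      lam • {z : Cn n | z ∈ cpd 2 ∧ h z < -N} := by
    rintro w ⟨hw1, hw2⟩
    refine ⟨lam⁻¹ • w, ⟨?_, ?_⟩, by simp [smul_smul, mul_inv_cancel₀ hlam0.ne']⟩
    · intro i
      have h1 := hw1 i
      have h2 : (lam⁻¹ • w).1 i = lam⁻¹ * w.1 i := rfl
      have h3 : (lam⁻¹ • w).2 i = lam⁻¹ * w.2 i := rfl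
      rw [h2, h3]
      have h4 : (lam⁻¹ * w.1 i) ^ 2 + (lam⁻¹ * w.2 i) ^ 2 =
          (lam⁻¹) ^ 2 * (w.1 i ^ 2 + w.2 i ^ 2) := by ring
      rw [h4]
      have h5 : (2 : ℝ) ^ 2 = (lam⁻¹) ^ 2 * (2 * r / 5) ^ 2 := by
        rw [hlam]
        field_simp
      rw [h5]
      exact mul_le_mul_of_nonneg_left h1 (by positivity)
    · have h1 : lam • lam⁻¹ • w = w := by simp [smul_smul, mul_inv_cancel₀ hlam0.ne']
      simp only [hh]
      rw [h1]
      have hwr : w ∈ cpd (k := n) r := cpd_sub_cpd (by positivity) (by linarith) hw1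
      exact lt_of_le_of_lt (hGle _ (hE9 w hwr)) hw2
  calc volume {w : Cn n | w ∈ cpd (2 * r / 5) ∧ F.gc t c (E w) < -N}
      ≤ volume (lam • {z : Cn n | z ∈ cpd 2 ∧ h z < -N}) := measure_mono hsub2
    _ = ENNReal.ofReal |lam ^ (2 * n)| * volume {z : Cn n | z ∈ cpd 2 ∧ h z < -N} := by
        rw [Measure.addHaar_smul, hfr]
    _ ≤ 1 * ENNReal.ofReal (Cd * (K₁ * ((T - t) * (1 + Λ) ^ B)) * ρ / N) := by
        refine mul_le_mul' ?_ hdec'
        rw [abs_of_pos (by positivity), ← ENNReal.ofReal_one]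
        apply ENNReal.ofReal_le_ofReal
        apply pow_le_one₀ hlam0.le
        rw [hlam]
        linarith
    _ ≤ ENNReal.ofReal ρ := by
        rw [one_mul]
        apply ENNReal.ofReal_le_ofReal
        rw [div_le_iff₀ hN, mul_comm ρ N]
        exact mul_le_mul_of_nonneg_right hCL hρ.1.le

end Pool.Agent.KRFG.Decay

end
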